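import Mathlib

/-! Closed surfaces as quotients of the plane, metrics of negative curvature, min-max
eigenvalues of the Laplacian, and local statistics of the unfolded spectrum. -/

open MeasureTheory Set Filter Topology
open scoped ContDiff ENNReal NNReal

namespace BGS

/-- The plane; it is the universal cover of every closed surface of genus at least two. -/
abbrev Pl : Type := ℝ × ℝ

/-- Coefficients `(E, F, G)` of a quadratic form in two variables. -/
abbrev Co : Type := ℝ × ℝ × ℝ

/-- Partial derivatives of a function on the plane. -/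
noncomputable def dx (h : Pl → ℝ) (z : Pl) : ℝ := fderiv ℝ h z (1, 0)

noncomputable def dy (h : Pl → ℝ) (z : Pl) : ℝ := fderiv ℝ h z (0, 1)

/-- The quadratic form `E v₁² + 2 F v₁ v₂ + G v₂²`. -/
def qf (c : Co) (v : Pl) : ℝ := c.1 * v.1 ^ 2 + 2 * c.2.1 * v.1 * v.2 + c.2.2 * v.2 ^ 2

/-- The determinant `E G - F²`. -/
def dt (c : Co) : ℝ := c.1 * c.2.2 - c.2.1 ^ 2

/-- The closed surface `ℝ² / Γ`: the group `Γ` acts on the plane by diffeomorphisms, freely and
properly discontinuously, and `D` is a bounded Borel set that meets every orbit exactly once. -/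
structure Surface (Γ : Type) [Group Γ] [MulAction Γ Pl] (D : Set Pl) : Prop where
  smooth : ∀ γ : Γ, ContDiff ℝ ∞ fun z : Pl => γ • z
  proper : ∀ K : Set Pl, IsCompact K → {γ : Γ | ∃ z ∈ K, γ • z ∈ K}.Finite
  bdd : Bornology.IsBounded D
  meas : MeasurableSet D
  orbit : ∀ z : Pl, ∃! γ : Γ, γ • z ∈ D

/-- The Gaussian curvature of the metric `E dx² + 2 F dx dy + G dy²` (Brioschi's formula). -/
noncomputable def curv (m : Pl → Co) (z : Pl) : ℝ :=
  let E : Pl → ℝ := fun w => (m w).1
  let F : Pl → ℝ := fun w => (m w).2.1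
  let G : Pl → ℝ := fun w => (m w).2.2
  (Matrix.det !![-(dy (dy E) z) / 2 + dy (dx F) z - dx (dx G) z / 2, dx E z / 2,
        dx F z - dy E z / 2;
      dy F z - dx G z / 2, E z, F z;
      dy G z / 2, F z, G z]
    - Matrix.det !![0, dy E z / 2, dx G z / 2;
      dy E z / 2, E z, F z;
      dx G z / 2, F z, G z]) / dt (m z) ^ 2

/-- Smooth maps from the plane to the coefficients. -/
def Sm : Type := {m : Pl → Co // ContDiff ℝ ∞ m}

/-- All iterated derivatives, as continuous maps. -/
noncomputable def jet (m : Sm) (k : ℕ) : C(Pl, Pl [×k]→L[ℝ] Co) :=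
  ⟨iteratedFDeriv ℝ k m.1, m.2.continuous_iteratedFDeriv (by exact_mod_cast le_top)⟩

/-- The `C^∞` topology: uniform convergence of all derivatives on compact sets. -/
noncomputable instance : TopologicalSpace Sm := TopologicalSpace.induced jet inferInstance

/-- `m` is (the lift to the plane of) a smooth Riemannian metric on the surface with everywhere
negative curvature and total area one. -/
structure IsMetric (Γ : Type) [Group Γ] [MulAction Γ Pl] (D : Set Pl) (m : Pl → Co) : Prop where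
  pos : ∀ z, 0 < (m z).1 ∧ 0 < dt (m z)
  inv : ∀ (γ : Γ) (z v : Pl), qf (m (γ • z)) (fderiv ℝ (fun w : Pl => γ • w) z v) = qf (m z) v
  neg : ∀ z, curv m z < 0
  area : ∫ z in D, √(dt (m z)) = 1

/-- The space of smooth metrics of negative curvature and area one, with the `C^∞` topology. -/
def Mt (Γ : Type) [Group Γ] [MulAction Γ Pl] (D : Set Pl) : Type :=
  {m : Sm // IsMetric Γ D m.1}

noncomputable instance (Γ : Type) [Group Γ] [MulAction Γ Pl] (D : Set Pl) :
    TopologicalSpace (Mt Γ D) :=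
  instTopologicalSpaceSubtype

/-- Smooth functions on the surface, lifted to the plane. -/
def Test (Γ : Type) [Group Γ] [MulAction Γ Pl] : Set (Pl → ℝ) :=
  {u | ContDiff ℝ ∞ u ∧ ∀ (γ : Γ) (z : Pl), u (γ • z) = u z}

/-- The squared length `(G p² - 2 F p q + E q²) / (E G - F²)` of the covector `(p, q)`, times the
area density `√(E G - F²)`. -/
noncomputable def wf (c : Co) (p q : ℝ) : ℝ :=
  (c.2.2 * p ^ 2 - 2 * c.2.1 * p * q + c.1 * q ^ 2) / √(dt c)

/-- The Dirichlet energy of `u`: the integral of the squared length of the gradient. -/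
noncomputable def en (D : Set Pl) (m : Pl → Co) (u : Pl → ℝ) : ℝ :=
  ∫ z in D, wf (m z) (dx u z) (dy u z)

/-- The squared `L²` norm of `u`. -/
noncomputable def l2 (D : Set Pl) (m : Pl → Co) (u : Pl → ℝ) : ℝ :=
  ∫ z in D, u z ^ 2 * √(dt (m z))

/-- The `k`-th eigenvalue (`k = 0, 1, ...`, with multiplicity) of `-Δ`, by the min-max principle:
the infimum of all `c ≥ 0` such that the energy is at most `c` times the squared norm on some
`(k + 1)`-dimensional space of smooth functions on the surface. -/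
noncomputable def ev (Γ : Type) [Group Γ] [MulAction Γ Pl] (D : Set Pl) (m : Pl → Co) (k : ℕ) :
    ℝ≥0∞ :=
  ⨅ (c : ℝ≥0) (_ : ∃ V : Submodule ℝ (Pl → ℝ), Module.finrank ℝ V = k + 1 ∧
    ∀ u ∈ V, u ∈ Test Γ ∧ en D m u ≤ c * l2 D m u), (c : ℝ≥0∞)

/-- The unfolded level `x_k = λ_k² / (4 π)`, where `λ_k²` is the `k`-th eigenvalue of `-Δ`. -/
noncomputable def lvl {Γ : Type} [Group Γ] [MulAction Γ Pl] {D : Set Pl} (m : Mt Γ D) (k : ℕ) :
    ℝ≥0∞ :=
  ev Γ D m.1.1 k / ENNReal.ofReal (4 * Real.pi)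

/-- The unfolded level as a real number. -/
noncomputable def x {Γ : Type} [Group Γ] [MulAction Γ Pl] {D : Set Pl} (m : Mt Γ D) (k : ℕ) : ℝ :=
  (lvl m k).toReal

/-- The `(p + 2)`-point correlation sum of the levels up to `T`:
`(1/T) ∑ f(x_{j₁} - x_{j₀}, ..., x_{j_{p+1}} - x_{j₀})` over all tuples of distinct indices of
levels at most `T`. -/
noncomputable def corr {Γ : Type} [Group Γ] [MulAction Γ Pl] {D : Set Pl} (p : ℕ)
    (f : (Fin (p + 1) → ℝ) → ℝ) (m : Mt Γ D) (T : ℝ) : ℝ :=
  (1 / T) * ∑ᶠ j : {j : Fin (p + 2) → ℕ //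
      Function.Injective j ∧ ∀ i, lvl m (j i) ≤ ENNReal.ofReal T},
    f fun i => x m (j.1 i.succ) - x m (j.1 0)

/-- The nearest-neighbour spacing sum of the levels up to `T`. -/
noncomputable def spac {Γ : Type} [Group Γ] [MulAction Γ Pl] {D : Set Pl}
    (f : ℝ → ℝ) (m : Mt Γ D) (T : ℝ) : ℝ :=
  (1 / T) * ∑ᶠ k : {k : ℕ // lvl m (k + 1) ≤ ENNReal.ofReal T}, f (x m (k.1 + 1) - x m k.1)

/-- A limiting law: the limits of all `n`-point correlation measures (`n = p + 2`) and of the
nearest-neighbour spacing distribution. The law of the GOE is one of them. -/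
structure Law where
  rho : ∀ p : ℕ, Measure (Fin (p + 1) → ℝ)
  sigma : Measure ℝ
  rho_fin : ∀ p, IsFiniteMeasureOnCompacts (rho p)
  sigma_fin : IsFiniteMeasureOnCompacts sigma

/-- The local statistics of the unfolded spectrum of `m` converge to the law `L`. -/
def Obeys {Γ : Type} [Group Γ] [MulAction Γ Pl] {D : Set Pl} (L : Law) (m : Mt Γ D) : Prop :=
  (∀ (p : ℕ) (f : (Fin (p + 1) → ℝ) → ℝ), Continuous f → HasCompactSupport f →
    Tendsto (fun T => corr p f m T) atTop (𝓝 (∫ y, f y ∂(L.rho p)))) ∧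
  (∀ f : ℝ → ℝ, Continuous f → HasCompactSupport f →
    Tendsto (fun T => spac f m T) atTop (𝓝 (∫ y, f y ∂L.sigma)))

/-- Stable form: the statistics converge to `L` as the metric tends to `m` and `T` to infinity,
independently of each other. -/
def ObeysNear {Γ : Type} [Group Γ] [MulAction Γ Pl] {D : Set Pl} (L : Law) (m : Mt Γ D) : Prop :=
  (∀ (p : ℕ) (f : (Fin (p + 1) → ℝ) → ℝ), Continuous f → HasCompactSupport f →
    Tendsto (fun q : Mt Γ D × ℝ => corr p f q.1 q.2) (𝓝 m ×ˢ atTop)
      (𝓝 (∫ y, f y ∂(L.rho p)))) ∧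
  (∀ f : ℝ → ℝ, Continuous f → HasCompactSupport f →
    Tendsto (fun q : Mt Γ D × ℝ => spac f q.1 q.2) (𝓝 m ×ˢ atTop) (𝓝 (∫ y, f y ∂L.sigma)))

end BGS
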