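import Mathlib
import Pool.Agent.LibBGS.Defs

/-! TASK CMP: eigenvalues of nearby metrics are comparable, uniformly in the index.
Prefix own names with `Cmp_`. -/

open MeasureTheory Set Filter Topology
open scoped ContDiff ENNReal NNReal

namespace BGS

variable {Γ : Type} [Group Γ] [MulAction Γ Pl] {D : Set Pl}

theorem continuous_jet : Continuous jet := continuous_induced_dom

theorem Cmp_jet (k : ℕ) : Continuous fun q : Sm × Pl => jet q.1 k q.2 := by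
  have h1 : Continuous fun q : Sm × Pl => jet q.1 k :=
    (continuous_apply k).comp (continuous_jet.comp continuous_fst)
  exact h1.eval continuous_snd

/-- Evaluation of a metric is jointly continuous (it factors through the compact-open topology:
`iteratedFDeriv ℝ 0`). -/
theorem continuous_eval : Continuous fun q : Sm × Pl => q.1.1 q.2 := by
  have h1 := Cmp_jet 0
  have h2 : Continuous fun q : Sm × Pl => (jet q.1 0 q.2).curry0 :=
    (continuousMultilinearCurryFin0 ℝ Pl Co).continuous.comp h1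
  exact h2

theorem Cmp_form {A B C A' B' C' η p q : ℝ} (h1 : A * C - B ^ 2 = 1) (hA : 0 < A + C)
    (hη : (|A' - A| + |B' - B| + |C' - C|) * (A + C) ≤ η) :
    A' * p ^ 2 - 2 * B' * p * q + C' * q ^ 2 ≤
      (1 + η) * (A * p ^ 2 - 2 * B * p * q + C * q ^ 2) := by
  set F := A * p ^ 2 - 2 * B * p * q + C * q ^ 2 with hF
  have hN : p ^ 2 + q ^ 2 ≤ (A + C) * F := by
    have e : (A + C) * F - (A * C - B ^ 2) * (p ^ 2 + q ^ 2) =
        (A * p - B * q) ^ 2 + (B * p - C * q) ^ 2 := by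
      rw [hF]; ring
    rw [h1] at e
    nlinarith [sq_nonneg (A * p - B * q), sq_nonneg (B * p - C * q)]
  have hN0 : 0 ≤ p ^ 2 + q ^ 2 := by positivity
  have hF0 : 0 ≤ F := by
    by_contra hc
    have : (A + C) * F < 0 := mul_neg_of_pos_of_neg hA (not_le.1 hc)
    linarith
  set θ := |A' - A| + |B' - B| + |C' - C| with hθ
  have hθ0 : 0 ≤ θ := by positivity
  have h2 : (A' - A) * p ^ 2 ≤ |A' - A| * (p ^ 2 + q ^ 2) := by
    nlinarith [le_abs_self (A' - A), abs_nonneg (A' - A), sq_nonneg p, sq_nonneg q]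
  have h3 : (C' - C) * q ^ 2 ≤ |C' - C| * (p ^ 2 + q ^ 2) := by
    nlinarith [le_abs_self (C' - C), abs_nonneg (C' - C), sq_nonneg p, sq_nonneg q]
  have h4 : -(2 * (B' - B) * p * q) ≤ |B' - B| * (p ^ 2 + q ^ 2) := by
    have h5 : -(2 * (B' - B) * p * q) ≤ |B' - B| * |2 * p * q| := by
      rw [← abs_mul]
      have : -(2 * (B' - B) * p * q) = -((B' - B) * (2 * p * q)) := by ring
      rw [this]
      exact neg_le_abs _
    have h6 : |2 * p * q| ≤ p ^ 2 + q ^ 2 := by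
      rw [abs_le]
      constructor
      · nlinarith [sq_nonneg (p + q)]
      · nlinarith [sq_nonneg (p - q)]
    exact h5.trans (mul_le_mul_of_nonneg_left h6 (abs_nonneg _))
  have h7 : θ * (p ^ 2 + q ^ 2) ≤ η * F := by
    calc θ * (p ^ 2 + q ^ 2) ≤ θ * ((A + C) * F) := mul_le_mul_of_nonneg_left hN hθ0
      _ = (θ * (A + C)) * F := by ring
      _ ≤ η * F := mul_le_mul_of_nonneg_right hη hF0
  have h8 : θ * (p ^ 2 + q ^ 2) = |A' - A| * (p ^ 2 + q ^ 2) + |B' - B| * (p ^ 2 + q ^ 2) +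
      |C' - C| * (p ^ 2 + q ^ 2) := by rw [hθ]; ring
  have h9 : A' * p ^ 2 - 2 * B' * p * q + C' * q ^ 2 =
      F + ((A' - A) * p ^ 2 + -(2 * (B' - B) * p * q) + (C' - C) * q ^ 2) := by
    rw [hF]; ring
  rw [h9]
  linarith

/-- Comparability of the coefficients at a point. -/
def Cmp_near (η : ℝ) (c c' : Co) : Prop :=
  (∀ p q : ℝ, wf c' p q ≤ (1 + η) * wf c p q ∧ wf c p q ≤ (1 + η) * wf c' p q) ∧
    √(dt c') ≤ (1 + η) * √(dt c) ∧ √(dt c) ≤ (1 + η) * √(dt c')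

theorem Cmp_wf (c : Co) (p q : ℝ) : wf c p q =
    c.2.2 / √(dt c) * p ^ 2 - 2 * (c.2.1 / √(dt c)) * p * q + c.1 / √(dt c) * q ^ 2 := by
  unfold wf
  ring

theorem Cmp_one {c : Co} (h : 0 < dt c) :
    c.2.2 / √(dt c) * (c.1 / √(dt c)) - (c.2.1 / √(dt c)) ^ 2 = 1 := by
  have h1 : √(dt c) ^ 2 = dt c := Real.sq_sqrt h.le
  have h2 : √(dt c) ≠ 0 := (Real.sqrt_pos.2 h).ne'
  have h3 : c.2.2 / √(dt c) * (c.1 / √(dt c)) - (c.2.1 / √(dt c)) ^ 2 =
      dt c / √(dt c) ^ 2 := by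
    unfold dt
    field_simp
  rw [h3, h1, div_self h.ne']

theorem Cmp_sum {c : Co} (h0 : 0 < c.1) (h : 0 < dt c) :
    0 < c.2.2 / √(dt c) + c.1 / √(dt c) := by
  have h2 : 0 < √(dt c) := Real.sqrt_pos.2 h
  have h3 : 0 < c.2.2 := by
    unfold dt at h
    by_contra hc
    nlinarith [sq_nonneg c.2.1, mul_nonneg h0.le (neg_nonneg.2 (not_lt.1 hc))]
  positivity

theorem Cmp_dt_cont : Continuous dt := by
  unfold dt
  fun_prop

theorem Cmp_local (c₀ : Co) (h0 : 0 < c₀.1) (h : 0 < dt c₀) {η : ℝ} (hη : 0 < η) :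
    ∀ᶠ q : Co × Co in 𝓝 (c₀, c₀), Cmp_near η q.1 q.2 := by
  have hs : 0 < √(dt c₀) := Real.sqrt_pos.2 h
  have hdt1 : ContinuousAt (fun q : Co × Co => √(dt q.1)) (c₀, c₀) :=
    (Real.continuous_sqrt.comp (Cmp_dt_cont.comp continuous_fst)).continuousAt
  have hdt2 : ContinuousAt (fun q : Co × Co => √(dt q.2)) (c₀, c₀) :=
    (Real.continuous_sqrt.comp (Cmp_dt_cont.comp continuous_snd)).continuousAt
  have e1 : ∀ᶠ q : Co × Co in 𝓝 (c₀, c₀), 0 < q.1.1 :=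
    (continuous_fst.comp continuous_fst).continuousAt.eventually (lt_mem_nhds h0)
  have e2 : ∀ᶠ q : Co × Co in 𝓝 (c₀, c₀), 0 < q.2.1 :=
    (continuous_fst.comp continuous_snd).continuousAt.eventually (lt_mem_nhds h0)
  have e3 : ∀ᶠ q : Co × Co in 𝓝 (c₀, c₀), 0 < dt q.1 :=
    (Cmp_dt_cont.comp continuous_fst).continuousAt.eventually (lt_mem_nhds h)
  have e4 : ∀ᶠ q : Co × Co in 𝓝 (c₀, c₀), 0 < dt q.2 :=
    (Cmp_dt_cont.comp continuous_snd).continuousAt.eventually (lt_mem_nhds h)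
  have e5 : ∀ᶠ q : Co × Co in 𝓝 (c₀, c₀), √(dt q.2) < (1 + η) * √(dt q.1) := by
    apply hdt2.eventually_lt (hdt1.const_mul (1 + η))
    simp only
    nlinarith
  have e6 : ∀ᶠ q : Co × Co in 𝓝 (c₀, c₀), √(dt q.1) < (1 + η) * √(dt q.2) := by
    apply hdt1.eventually_lt (hdt2.const_mul (1 + η))
    simp only
    nlinarith
  have hA1 : ContinuousAt (fun q : Co × Co => q.1.2.2 / √(dt q.1)) (c₀, c₀) :=
    ContinuousAt.div (by fun_prop) hdt1 hs.ne'
  have hB1 : ContinuousAt (fun q : Co × Co => q.1.2.1 / √(dt q.1)) (c₀, c₀) :=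
    ContinuousAt.div (by fun_prop) hdt1 hs.ne'
  have hC1 : ContinuousAt (fun q : Co × Co => q.1.1 / √(dt q.1)) (c₀, c₀) :=
    ContinuousAt.div (by fun_prop) hdt1 hs.ne'
  have hA2 : ContinuousAt (fun q : Co × Co => q.2.2.2 / √(dt q.2)) (c₀, c₀) :=
    ContinuousAt.div (by fun_prop) hdt2 hs.ne'
  have hB2 : ContinuousAt (fun q : Co × Co => q.2.2.1 / √(dt q.2)) (c₀, c₀) :=
    ContinuousAt.div (by fun_prop) hdt2 hs.ne'
  have hC2 : ContinuousAt (fun q : Co × Co => q.2.1 / √(dt q.2)) (c₀, c₀) :=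
    ContinuousAt.div (by fun_prop) hdt2 hs.ne'
  have e7 : ∀ᶠ q : Co × Co in 𝓝 (c₀, c₀),
      (|q.2.2.2 / √(dt q.2) - q.1.2.2 / √(dt q.1)| + |q.2.2.1 / √(dt q.2) - q.1.2.1 / √(dt q.1)| +
        |q.2.1 / √(dt q.2) - q.1.1 / √(dt q.1)|) *
        (q.1.2.2 / √(dt q.1) + q.1.1 / √(dt q.1)) < η := by
    apply ContinuousAt.eventually_lt
      (((((hA2.sub hA1).abs).add ((hB2.sub hB1).abs)).add ((hC2.sub hC1).abs)).mul (hA1.add hC1))
      continuousAt_const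
    simpa using hη
  have e8 : ∀ᶠ q : Co × Co in 𝓝 (c₀, c₀),
      (|q.1.2.2 / √(dt q.1) - q.2.2.2 / √(dt q.2)| + |q.1.2.1 / √(dt q.1) - q.2.2.1 / √(dt q.2)| +
        |q.1.1 / √(dt q.1) - q.2.1 / √(dt q.2)|) *
        (q.2.2.2 / √(dt q.2) + q.2.1 / √(dt q.2)) < η := by
    apply ContinuousAt.eventually_lt
      (((((hA1.sub hA2).abs).add ((hB1.sub hB2).abs)).add ((hC1.sub hC2).abs)).mul (hA2.add hC2))
      continuousAt_const
    simpa using hη
  filter_upwards [e1, e2, e3, e4, e5, e6, e7, e8] with q h1 h2 h3 h4 h5 h6 h7 h8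
  refine ⟨fun p r => ⟨?_, ?_⟩, h5.le, h6.le⟩
  · rw [Cmp_wf, Cmp_wf]
    exact Cmp_form (Cmp_one h3) (Cmp_sum h1 h3) h7.le
  · rw [Cmp_wf, Cmp_wf]
    exact Cmp_form (Cmp_one h4) (Cmp_sum h2 h4) h8.le

theorem Cmp_compact (hX : Surface Γ D) : IsCompact (closure D) :=
  Metric.isCompact_of_isClosed_isBounded isClosed_closure hX.bdd.closure

/-- The coefficients of the energy and of the `L²` norm of nearby metrics are comparable on
`D`. -/
theorem near_coeff (hX : Surface Γ D) (m : Mt Γ D) {η : ℝ} (hη : 0 < η) :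
    ∀ᶠ m' in 𝓝 m, ∀ z ∈ D,
      (∀ p q : ℝ, wf (m'.1.1 z) p q ≤ (1 + η) * wf (m.1.1 z) p q ∧
        wf (m.1.1 z) p q ≤ (1 + η) * wf (m'.1.1 z) p q) ∧
      √(dt (m'.1.1 z)) ≤ (1 + η) * √(dt (m.1.1 z)) ∧
      √(dt (m.1.1 z)) ≤ (1 + η) * √(dt (m'.1.1 z)) := by
  have h1 : ∀ᶠ m' in 𝓝 m.1, ∀ z ∈ closure D, Cmp_near η (m.1.1 z) (m'.1 z) := by
    apply (Cmp_compact hX).eventually_forall_of_forall_eventually
    intro z _
    have hc : ContinuousAt (fun q : Sm × Pl => (m.1.1 q.2, q.1.1 q.2)) (m.1, z) :=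
      ((m.1.2.continuous.comp continuous_snd).prodMk continuous_eval).continuousAt
    exact hc.eventually (Cmp_local (m.1.1 z) (m.2.pos z).1 (m.2.pos z).2 hη)
  have h2 : Continuous (fun m' : Mt Γ D => m'.1) := continuous_subtype_val
  filter_upwards [h2.continuousAt.eventually h1] with m' hm' z hz
  exact hm' z (subset_closure hz)

theorem Cmp_dx {u : Pl → ℝ} (hu : ContDiff ℝ ∞ u) : Continuous (dx u) := by
  have : Continuous (fderiv ℝ u) := hu.continuous_fderiv (by simp)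
  exact this.clm_apply continuous_const

theorem Cmp_dy {u : Pl → ℝ} (hu : ContDiff ℝ ∞ u) : Continuous (dy u) := by
  have : Continuous (fderiv ℝ u) := hu.continuous_fderiv (by simp)
  exact this.clm_apply continuous_const

theorem Cmp_wf_cont (m : Mt Γ D) {u : Pl → ℝ} (hu : ContDiff ℝ ∞ u) :
    Continuous fun z => wf (m.1.1 z) (dx u z) (dy u z) := by
  have hm : Continuous m.1.1 := m.1.2.continuous
  have hx := Cmp_dx hu
  have hy := Cmp_dy hu
  unfold wf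
  apply Continuous.div
  · fun_prop
  · exact Real.continuous_sqrt.comp (Cmp_dt_cont.comp hm)
  · intro z
    exact (Real.sqrt_pos.2 (m.2.pos z).2).ne'

theorem Cmp_l2_cont (m : Mt Γ D) {u : Pl → ℝ} (hu : ContDiff ℝ ∞ u) :
    Continuous fun z => u z ^ 2 * √(dt (m.1.1 z)) := by
  have hm : Continuous m.1.1 := m.1.2.continuous
  exact (hu.continuous.pow 2).mul (Real.continuous_sqrt.comp (Cmp_dt_cont.comp hm))

theorem Cmp_int (hX : Surface Γ D) {g : Pl → ℝ} (hg : Continuous g) : IntegrableOn g D :=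
  (hg.continuousOn.integrableOn_compact (Cmp_compact hX)).mono_set subset_closure

/-- Energies and norms of nearby metrics are comparable. -/
theorem near_en (hX : Surface Γ D) (m : Mt Γ D) {η : ℝ} (hη : 0 < η) :
    ∀ᶠ m' in 𝓝 m, ∀ u ∈ Test Γ,
      en D m'.1.1 u ≤ (1 + η) * en D m.1.1 u ∧ en D m.1.1 u ≤ (1 + η) * en D m'.1.1 u ∧
      l2 D m'.1.1 u ≤ (1 + η) * l2 D m.1.1 u ∧ l2 D m.1.1 u ≤ (1 + η) * l2 D m'.1.1 u := by
  filter_upwards [near_coeff hX m hη] with m' hm' u hu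
  have i1 := Cmp_int hX (Cmp_wf_cont m hu.1)
  have i2 := Cmp_int hX (Cmp_wf_cont m' hu.1)
  have i3 := Cmp_int hX (Cmp_l2_cont m hu.1)
  have i4 := Cmp_int hX (Cmp_l2_cont m' hu.1)
  refine ⟨?_, ?_, ?_, ?_⟩
  · unfold en
    rw [← integral_const_mul]
    exact setIntegral_mono_on i2 (i1.const_mul _) hX.meas (fun z hz => ((hm' z hz).1 _ _).1)
  · unfold en
    rw [← integral_const_mul]
    exact setIntegral_mono_on i1 (i2.const_mul _) hX.meas (fun z hz => ((hm' z hz).1 _ _).2)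
  · unfold l2
    rw [← integral_const_mul]
    refine setIntegral_mono_on i4 (i3.const_mul _) hX.meas (fun z hz => ?_)
    have := mul_le_mul_of_nonneg_left (hm' z hz).2.1 (sq_nonneg (u z))
    linarith
  · unfold l2
    rw [← integral_const_mul]
    refine setIntegral_mono_on i3 (i4.const_mul _) hX.meas (fun z hz => ?_)
    have := mul_le_mul_of_nonneg_left (hm' z hz).2.2 (sq_nonneg (u z))
    linarith

theorem Cmp_ev {m m' : Mt Γ D} {η : ℝ≥0} {θ : ℝ≥0} (hθ : (1 + θ) * (1 + θ) ≤ 1 + η)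
    (h : ∀ u ∈ Test Γ, en D m'.1.1 u ≤ (1 + θ) * en D m.1.1 u ∧
      l2 D m.1.1 u ≤ (1 + θ) * l2 D m'.1.1 u) (k : ℕ) :
    ev Γ D m'.1.1 k ≤ (1 + η) * ev Γ D m.1.1 k := by
  have hl2 : ∀ (a : Mt Γ D) (u : Pl → ℝ), 0 ≤ l2 D a.1.1 u := fun a u =>
    integral_nonneg fun z => mul_nonneg (sq_nonneg _) (Real.sqrt_nonneg _)
  conv_rhs => unfold ev
  rw [ENNReal.mul_iInf_of_ne (by simp) (by simp)]
  apply le_iInf
  intro c
  rw [ENNReal.mul_iInf_of_ne (by simp) (by simp)]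
  apply le_iInf
  rintro ⟨V, hV, hVu⟩
  have h1 : ev Γ D m'.1.1 k ≤ ((1 + η) * c : ℝ≥0) := by
    unfold ev
    apply iInf₂_le
    refine ⟨V, hV, fun u hu => ⟨(hVu u hu).1, ?_⟩⟩
    obtain ⟨h2, h3⟩ := h u (hVu u hu).1
    have h4 := (hVu u hu).2
    have hc : (0 : ℝ) ≤ c := c.2
    have ht : (0 : ℝ) ≤ θ := θ.2
    have hθ' : (1 + (θ : ℝ)) * (1 + θ) ≤ 1 + η := by exact_mod_cast hθ
    calc en D m'.1.1 u ≤ (1 + θ) * en D m.1.1 u := h2
      _ ≤ (1 + θ) * (c * l2 D m.1.1 u) := by gcongr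
      _ ≤ (1 + θ) * (c * ((1 + θ) * l2 D m'.1.1 u)) := by gcongr
      _ = ((1 + θ) * (1 + θ)) * (c * l2 D m'.1.1 u) := by ring
      _ ≤ (1 + η) * (c * l2 D m'.1.1 u) := by
          apply mul_le_mul_of_nonneg_right hθ'
          exact mul_nonneg hc (hl2 m' u)
      _ = _ := by push_cast; ring
  refine h1.trans (le_of_eq ?_)
  push_cast
  rfl

/-- Eigenvalues of nearby metrics are comparable, uniformly in the index. -/
theorem ev_near (hX : Surface Γ D) (m : Mt Γ D) {η : ℝ≥0} (hη : 0 < η) :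
    ∀ᶠ m' in 𝓝 m, ∀ k, ev Γ D m'.1.1 k ≤ (1 + η) * ev Γ D m.1.1 k ∧
      ev Γ D m.1.1 k ≤ (1 + η) * ev Γ D m'.1.1 k := by
  set θ : ℝ≥0 := min 1 (η / 3) with hθ
  have hθpos : 0 < θ := lt_min one_pos (by positivity)
  have h1 : θ ≤ 1 := min_le_left _ _
  have h2 : θ ≤ η / 3 := min_le_right _ _
  have h3 : (1 + θ) * (1 + θ) ≤ 1 + η := by
    have h4 : θ * θ ≤ θ := by
      calc θ * θ ≤ 1 * θ := by gcongr
        _ = θ := one_mul _
    calc (1 + θ) * (1 + θ) = 1 + 2 * θ + θ * θ := by ring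
      _ ≤ 1 + 2 * θ + θ := by gcongr
      _ = 1 + 3 * θ := by ring
      _ ≤ 1 + 3 * (η / 3) := by gcongr
      _ = 1 + η := by rw [mul_div_cancel₀ _ (by norm_num)]
  filter_upwards [near_en hX m (η := (θ : ℝ)) (by exact_mod_cast hθpos)] with m' hm' k
  exact ⟨Cmp_ev h3 (fun u hu => ⟨(hm' u hu).1, (hm' u hu).2.2.2⟩) k,
    Cmp_ev h3 (fun u hu => ⟨(hm' u hu).2.1, (hm' u hu).2.2.1⟩) k⟩

end BGS
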