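import Mathlib
import Pool.Agent.LibBGS.Defs
import Pool.Agent.LibBGS.Cmp

/-! TASK COVER: invariance of the energy under the group. Prefix own names with `Cover_`. -/

open MeasureTheory Set Filter Topology
open scoped ContDiff ENNReal NNReal

namespace BGS

variable {Γ : Type} [Group Γ] [MulAction Γ Pl] {D : Set Pl}

theorem Cover_det (A : Pl →L[ℝ] Pl) :
    A.det = (A (1, 0)).1 * (A (0, 1)).2 - (A (0, 1)).1 * (A (1, 0)).2 := by
  have h1 : A.det = LinearMap.det (A : Pl →ₗ[ℝ] Pl) := rfl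
  rw [h1, ← LinearMap.det_toMatrix (Module.Basis.finTwoProd ℝ), Matrix.det_fin_two]
  simp [LinearMap.toMatrix_apply]

theorem Cover_apply (A : Pl →L[ℝ] Pl) (v : Pl) :
    A v = (v.1 * (A (1, 0)).1 + v.2 * (A (0, 1)).1, v.1 * (A (1, 0)).2 + v.2 * (A (0, 1)).2) := by
  have h1 : v = v.1 • ((1 : ℝ), (0 : ℝ)) + v.2 • ((0 : ℝ), (1 : ℝ)) := by
    ext <;> simp
  conv_lhs => rw [h1]
  rw [map_add, map_smul, map_smul]
  ext <;> simp

/-- Pure algebra behind the change of variables. -/
theorem Cover_algebra {E F G E' F' G' a b c d p q p' q' : ℝ}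
    (hE : E' * a ^ 2 + 2 * F' * a * c + G' * c ^ 2 = E)
    (hG : E' * b ^ 2 + 2 * F' * b * d + G' * d ^ 2 = G)
    (hF : E' * a * b + F' * (a * d + b * c) + G' * c * d = F)
    (hp : p = p' * a + q' * c) (hq : q = p' * b + q' * d) :
    G * p ^ 2 - 2 * F * p * q + E * q ^ 2 =
        (a * d - b * c) ^ 2 * (G' * p' ^ 2 - 2 * F' * p' * q' + E' * q' ^ 2) ∧
      E * G - F ^ 2 = (a * d - b * c) ^ 2 * (E' * G' - F' ^ 2) := by
  subst hE hG hF hp hq
  constructor <;> ring

/-- The area density times the squared length of the gradient transforms like a density: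
`wf (m (γ z)) (du at γ z) * |det Dγ(z)| = wf (m z) (du at z)` for invariant `u` (and the
Jacobian matrix of `γ` is invertible). -/
theorem wf_change (hX : Surface Γ D) (m : Mt Γ D) (γ : Γ) {u : Pl → ℝ} (hu : u ∈ Test Γ)
    (z : Pl) :
    |(fderiv ℝ (fun w : Pl => γ • w) z).det| *
        wf (m.1.1 (γ • z)) (dx u (γ • z)) (dy u (γ • z)) =
      wf (m.1.1 z) (dx u z) (dy u z) := by
  set A := fderiv ℝ (fun w : Pl => γ • w) z with hA
  have hγ : HasFDerivAt (fun w : Pl => γ • w) A z :=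
    ((hX.smooth γ).differentiable (by simp) z).hasFDerivAt
  have hu1 : HasFDerivAt u (fderiv ℝ u (γ • z)) (γ • z) :=
    (hu.1.differentiable (by simp) _).hasFDerivAt
  have hcomp : HasFDerivAt (fun w : Pl => u (γ • w)) ((fderiv ℝ u (γ • z)).comp A) z :=
    hu1.comp z hγ
  have heq : (fun w : Pl => u (γ • w)) = u := funext fun w => hu.2 γ w
  rw [heq] at hcomp
  have hfd : fderiv ℝ u z = (fderiv ℝ u (γ • z)).comp A := hcomp.fderiv
  have hlin : ∀ v : Pl, fderiv ℝ u (γ • z) v = dx u (γ • z) * v.1 + dy u (γ • z) * v.2 := by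
    intro v
    have h1 : v = v.1 • ((1 : ℝ), (0 : ℝ)) + v.2 • ((0 : ℝ), (1 : ℝ)) := by
      ext <;> simp
    conv_lhs => rw [h1]
    rw [map_add, map_smul, map_smul]
    simp only [dx, dy, smul_eq_mul]
    ring
  have hp : dx u z = dx u (γ • z) * (A (1, 0)).1 + dy u (γ • z) * (A (1, 0)).2 := by
    have : dx u z = fderiv ℝ u (γ • z) (A (1, 0)) := by
      unfold dx
      rw [hfd]
      rfl
    rw [this, hlin]
  have hq : dy u z = dx u (γ • z) * (A (0, 1)).1 + dy u (γ • z) * (A (0, 1)).2 := by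
    have : dy u z = fderiv ℝ u (γ • z) (A (0, 1)) := by
      unfold dy
      rw [hfd]
      rfl
    rw [this, hlin]
  have hi := m.2.inv γ z
  have h10 := hi (1, 0)
  have h01 := hi (0, 1)
  have h11 := hi (1, 1)
  rw [← hA, Cover_apply A (1, 1)] at h11
  rw [← hA] at h10 h01
  simp only [qf] at h10 h01 h11
  obtain ⟨hN, hd⟩ := Cover_algebra (E := (m.1.1 z).1) (F := (m.1.1 z).2.1) (G := (m.1.1 z).2.2)
    (E' := (m.1.1 (γ • z)).1) (F' := (m.1.1 (γ • z)).2.1) (G' := (m.1.1 (γ • z)).2.2)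
    (a := (A (1, 0)).1) (b := (A (0, 1)).1) (c := (A (1, 0)).2) (d := (A (0, 1)).2)
    (by linarith) (by linarith) (by linarith) hp hq
  have hdet : A.det = (A (1, 0)).1 * (A (0, 1)).2 - (A (0, 1)).1 * (A (1, 0)).2 := Cover_det A
  have hd' : dt (m.1.1 z) = A.det ^ 2 * dt (m.1.1 (γ • z)) := by
    rw [hdet]
    exact hd
  have hpos := (m.2.pos z).2
  have hpos' := (m.2.pos (γ • z)).2
  have hdet0 : A.det ≠ 0 := by
    intro h0
    rw [h0] at hd'
    rw [hd'] at hpos
    norm_num at hpos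
  have hs : √(dt (m.1.1 z)) = |A.det| * √(dt (m.1.1 (γ • z))) := by
    rw [hd', Real.sqrt_mul (sq_nonneg _), Real.sqrt_sq_eq_abs]
  unfold wf
  rw [hs, hN, ← hdet]
  have h1 : |A.det| ≠ 0 := abs_ne_zero.2 hdet0
  have h2 : √(dt (m.1.1 (γ • z))) ≠ 0 := (Real.sqrt_pos.2 hpos').ne'
  have h3 : A.det ^ 2 = |A.det| * |A.det| := by rw [← sq, sq_abs]
  rw [h3]
  field_simp

theorem Cover_inj (γ : Γ) : Function.Injective fun w : Pl => γ • w := fun a b hab => by
  have : γ⁻¹ • γ • a = γ⁻¹ • γ • b := congrArg (fun w => γ⁻¹ • w) hab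
  simpa using this

/-- The energy on a translate of `D` is the energy on `D`. -/
theorem en_smul (hX : Surface Γ D) (m : Mt Γ D) (γ : Γ) {u : Pl → ℝ} (hu : u ∈ Test Γ) :
    ∫ z in (fun w : Pl => γ • w) '' D, wf (m.1.1 z) (dx u z) (dy u z) = en D m.1.1 u := by
  rw [integral_image_eq_integral_abs_det_fderiv_smul volume hX.meas
    (f' := fun z => fderiv ℝ (fun w : Pl => γ • w) z)
    (fun z _ => ((hX.smooth γ).differentiable (by simp) z).hasFDerivAt.hasFDerivWithinAt)
    (Cover_inj γ).injOn]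
  unfold en
  congr 1
  funext z
  rw [smul_eq_mul]
  exact wf_change hX m γ hu z

theorem Cover_image (γ : Γ) : (fun w : Pl => γ • w) '' D = (fun w : Pl => γ⁻¹ • w) ⁻¹' D := by
  ext z
  constructor
  · rintro ⟨w, hw, rfl⟩
    simpa using hw
  · intro hz
    exact ⟨γ⁻¹ • z, hz, by simp⟩

theorem Cover_meas (hX : Surface Γ D) (γ : Γ) : MeasurableSet ((fun w : Pl => γ • w) '' D) := by
  rw [Cover_image]
  exact (hX.smooth γ⁻¹).continuous.measurable hX.meas

theorem Cover_wf_nonneg (m : Mt Γ D) (z : Pl) (p q : ℝ) : 0 ≤ wf (m.1.1 z) p q := by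
  have h := m.2.pos z
  have h1 := Cmp_one h.2
  have h2 := Cmp_sum h.1 h.2
  rw [Cmp_wf]
  set A := (m.1.1 z).2.2 / √(dt (m.1.1 z))
  set B := (m.1.1 z).2.1 / √(dt (m.1.1 z))
  set C := (m.1.1 z).1 / √(dt (m.1.1 z))
  have e : (A + C) * (A * p ^ 2 - 2 * B * p * q + C * q ^ 2) =
      (A * p - B * q) ^ 2 + (B * p - C * q) ^ 2 + (A * C - B ^ 2) * (p ^ 2 + q ^ 2) := by ring
  rw [h1] at e
  by_contra hc
  have h3 : (A + C) * (A * p ^ 2 - 2 * B * p * q + C * q ^ 2) < 0 :=
    mul_neg_of_pos_of_neg h2 (not_le.1 hc)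
  nlinarith [sq_nonneg (A * p - B * q), sq_nonneg (B * p - C * q), sq_nonneg p, sq_nonneg q]

theorem Cover_int (hX : Surface Γ D) (γ : Γ) {g : Pl → ℝ} (hg : Continuous g) :
    IntegrableOn g ((fun w : Pl => γ • w) '' D) := by
  have hc : IsCompact ((fun w : Pl => γ • w) '' closure D) :=
    (Cmp_compact hX).image (hX.smooth γ).continuous
  exact (hg.continuousOn.integrableOn_compact hc).mono_set (image_mono subset_closure)

/-- The energy on a bounded set is bounded by a constant times the energy on `D`. -/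
theorem en_cover (hX : Surface Γ D) (m : Mt Γ D) (Q : Set Pl) (hQ : Bornology.IsBounded Q)
    (hQm : MeasurableSet Q) :
    ∃ P : ℝ, 0 < P ∧ ∀ u ∈ Test Γ,
      ∫ z in Q, wf (m.1.1 z) (dx u z) (dy u z) ≤ P * en D m.1.1 u := by
  have hK : IsCompact (closure (Q ∪ D)) :=
    Metric.isCompact_of_isClosed_isBounded isClosed_closure (hQ.union hX.bdd).closure
  have hfin := hX.proper _ hK
  set S := hfin.toFinset with hS
  refine ⟨S.card + 1, by positivity, fun u hu => ?_⟩
  have hcont := Cmp_wf_cont m hu.1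
  have hen : 0 ≤ en D m.1.1 u := integral_nonneg fun z => Cover_wf_nonneg m z _ _
  have h1 : ∫ z in Q, wf (m.1.1 z) (dx u z) (dy u z) ≤
      ∑ γ ∈ S, ∫ z in (fun w : Pl => γ • w) '' D, wf (m.1.1 z) (dx u z) (dy u z) := by
    rw [← integral_indicator hQm]
    have h2 : ∀ γ ∈ S, ∫ z in (fun w : Pl => γ • w) '' D, wf (m.1.1 z) (dx u z) (dy u z) =
        ∫ z, indicator ((fun w : Pl => γ • w) '' D)
          (fun z => wf (m.1.1 z) (dx u z) (dy u z)) z := fun γ _ =>
      (integral_indicator (Cover_meas hX γ)).symm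
    rw [Finset.sum_congr rfl h2, ← integral_finsetSum]
    · apply integral_mono
      · rw [integrable_indicator_iff hQm]
        exact (hcont.continuousOn.integrableOn_compact hK).mono_set
          (subset_union_left.trans subset_closure)
      · apply integrable_finsetSum
        intro γ _
        rw [integrable_indicator_iff (Cover_meas hX γ)]
        exact Cover_int hX γ hcont
      · intro z
        have hnn : ∀ γ ∈ S, 0 ≤ indicator ((fun w : Pl => γ • w) '' D)
            (fun z => wf (m.1.1 z) (dx u z) (dy u z)) z := fun γ _ =>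
          indicator_nonneg (fun y _ => Cover_wf_nonneg m y _ _) z
        by_cases hz : z ∈ Q
        · obtain ⟨γ, hγ, -⟩ := hX.orbit z
          have hmem : γ⁻¹ ∈ S := by
            rw [hS, Finite.mem_toFinset]
            have h5 : γ⁻¹ • γ • z = z := by simp
            refine ⟨γ • z, subset_closure (Or.inr hγ), ?_⟩
            rw [h5]
            exact subset_closure (Or.inl hz)
          have hz' : z ∈ (fun w : Pl => γ⁻¹ • w) '' D := ⟨γ • z, hγ, by simp⟩
          have h6 := Finset.single_le_sum hnn hmem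
          rw [indicator_of_mem hz'] at h6
          rw [indicator_of_mem hz]
          exact h6
        · rw [indicator_of_notMem hz]
          exact Finset.sum_nonneg hnn
    · intro γ _
      rw [integrable_indicator_iff (Cover_meas hX γ)]
      exact Cover_int hX γ hcont
  have h3 : ∑ γ ∈ S, ∫ z in (fun w : Pl => γ • w) '' D, wf (m.1.1 z) (dx u z) (dy u z) =
      S.card * en D m.1.1 u := by
    rw [Finset.sum_congr rfl (fun γ _ => en_smul hX m γ hu), Finset.sum_const, nsmul_eq_mul]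
  calc _ ≤ _ := h1
    _ = S.card * en D m.1.1 u := h3
    _ ≤ (S.card + 1) * en D m.1.1 u := by
        apply mul_le_mul_of_nonneg_right _ hen
        linarith

theorem Cover_countable (hX : Surface Γ D) : Countable Γ := by
  have h1 : (⋃ n : ℕ, {γ : Γ | ∃ z ∈ Metric.closedBall (0 : Pl) n,
      γ • z ∈ Metric.closedBall (0 : Pl) n}) = univ := by
    rw [eq_univ_iff_forall]
    intro γ
    obtain ⟨n, hn⟩ := exists_nat_ge ‖γ • (0 : Pl)‖
    exact mem_iUnion.2 ⟨n, 0, by simp, by simpa using hn⟩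
  have h2 : (univ : Set Γ).Countable := by
    rw [← h1]
    exact countable_iUnion fun n => (hX.proper _ (isCompact_closedBall _ _)).countable
  exact countable_univ_iff.1 h2

/-- A nonzero smooth function on the surface has positive norm. (`D` and its translates cover the
plane, diffeomorphisms preserve null sets, and `u` is continuous.) -/
theorem l2_pos (hX : Surface Γ D) (m : Mt Γ D) {u : Pl → ℝ} (hu : u ∈ Test Γ) (h0 : u ≠ 0) :
    0 < l2 D m.1.1 u := by
  have hnn : ∀ z, 0 ≤ u z ^ 2 * √(dt (m.1.1 z)) := fun z =>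
    mul_nonneg (sq_nonneg _) (Real.sqrt_nonneg _)
  refine lt_of_le_of_ne (integral_nonneg hnn) ?_
  intro hz
  have hz' : ∫ z in D, u z ^ 2 * √(dt (m.1.1 z)) = 0 := hz.symm
  rw [setIntegral_eq_zero_iff_of_nonneg_ae (ae_of_all _ hnn)
    (Cmp_int hX (Cmp_l2_cont m hu.1))] at hz'
  have hnull : volume (D ∩ {z | u z ≠ 0}) = 0 := by
    have h1 : ∀ᵐ z ∂(volume.restrict D), u z = 0 := by
      filter_upwards [hz'] with z hz2
      have h2 : √(dt (m.1.1 z)) ≠ 0 := (Real.sqrt_pos.2 (m.2.pos z).2).ne'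
      have h3 : u z ^ 2 * √(dt (m.1.1 z)) = 0 := hz2
      rcases mul_eq_zero.1 h3 with h4 | h4
      · exact pow_eq_zero_iff (two_ne_zero) |>.1 h4
      · exact absurd h4 h2
    rw [ae_restrict_iff' hX.meas, ae_iff] at h1
    convert h1 using 2
    ext z
    simp
  have := Cover_countable hX
  have hN : volume {z | u z ≠ 0} = 0 := by
    have hsub : {z | u z ≠ 0} ⊆ ⋃ γ : Γ, (fun w : Pl => γ • w) '' (D ∩ {z | u z ≠ 0}) := by
      intro z hz3
      obtain ⟨γ, hγ, -⟩ := hX.orbit z
      refine mem_iUnion.2 ⟨γ⁻¹, γ • z, ⟨hγ, ?_⟩, by simp⟩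
      show u (γ • z) ≠ 0
      rw [hu.2]
      exact hz3
    refine measure_mono_null hsub ?_
    rw [measure_iUnion_null_iff]
    intro γ
    exact addHaar_image_eq_zero_of_differentiableOn_of_addHaar_eq_zero volume
      ((hX.smooth γ).differentiable (by simp)).differentiableOn hnull
  have hopen : IsOpen {z | u z ≠ 0} := isOpen_ne_fun hu.1.continuous continuous_const
  obtain ⟨z, hz4⟩ := Function.ne_iff.1 h0
  exact (hopen.measure_pos volume ⟨z, hz4⟩).ne' hN

end BGS
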