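import Mathlib

namespace BGS

/-- Four times the numerator of Brioschi's formula, from a jet. -/
def Curv_N {S : Type} [CommRing S] (X Y : S → S) (E F G : S) : S :=
  (-(Y (Y E)) + 2 * X (Y F) - X (X G)) * (E * G - F ^ 2) * 2
    - X E * ((2 * Y F - X G) * G - F * Y G)
    + (2 * X F - Y E) * ((2 * Y F - X G) * F - E * Y G)
    + Y E * (Y E * G - F * X G) - X G * (Y E * F - E * X G)



set_option maxHeartbeats 40000000 in
theorem Curv_alg {S : Type} [CommRing S] (X Y T : S → S)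
    (hXa : ∀ u v, X (u + v) = X u + X v) (hYa : ∀ u v, Y (u + v) = Y u + Y v)
    (hXm : ∀ u v, X (u * v) = X u * v + u * X v) (hYm : ∀ u v, Y (u * v) = Y u * v + u * Y v)
    (hXY : ∀ u, Y (X u) = X (Y u))
    (hX2 : X 2 = 0) (hY2 : Y 2 = 0) (hX0 : X 0 = 0) (hY0 : Y 0 = 0)
    (f g : S) (hXT : ∀ u, X (T u) = T (X u) * X f + T (Y u) * X g)
    (hYT : ∀ u, Y (T u) = T (X u) * Y f + T (Y u) * Y g)
    (E F G : S) :
    Curv_N X Y (T E * (X f * X f) + 2 * (T F * (X f * X g)) + T G * (X g * X g))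
      (T E * (X f * Y f) + T F * (X f * Y g + Y f * X g) + T G * (X g * Y g))
      (T E * (Y f * Y f) + 2 * (T F * (Y f * Y g)) + T G * (Y g * Y g)) =
    (X f * Y g - Y f * X g) ^ 4 *
      ((-(T (Y (Y E))) + 2 * T (X (Y F)) - T (X (X G))) * (T E * T G - T F ^ 2) * 2
    - T (X E) * ((2 * T (Y F) - T (X G)) * T G - T F * T (Y G))
    + (2 * T (X F) - T (Y E)) * ((2 * T (Y F) - T (X G)) * T F - T E * T (Y G))
    + T (Y E) * (T (Y E) * T G - T F * T (X G)) - T (X G) * (T (Y E) * T F - T E * T (X G))) := by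
  unfold Curv_N
  simp only [hXa, hYa, hXm, hYm, hXT, hYT, hXY, hX2, hY2, hX0, hY0]
  ring

end BGS
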