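import Mathlib
import Pool.Agent.LibBGS.Defs
import Pool.Agent.LibBGS.Cmp
import Pool.Agent.LibBGS.Cover
import Pool.Agent.LibBGS.CurvAlg

/-! The curvature (Brioschi's formula) of an invariant metric is invariant under the group.
Own names start with `Egr_`. -/

open MeasureTheory Set Filter Topology
open scoped ContDiff ENNReal NNReal

namespace BGS

variable {Γ : Type} [Group Γ] [MulAction Γ Pl] {D : Set Pl}

/-- The ring of smooth functions on the plane. -/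
def Egr_S : Subring (Pl → ℝ) where
  carrier := {h | ContDiff ℝ ∞ h}
  mul_mem' := by
    intro a b ha hb
    have h1 : ContDiff ℝ ∞ a := ha
    have h2 : ContDiff ℝ ∞ b := hb
    exact h1.mul h2
  one_mem' := (contDiff_const : ContDiff ℝ ∞ fun _ : Pl => (1 : ℝ))
  add_mem' := by
    intro a b ha hb
    have h1 : ContDiff ℝ ∞ a := ha
    have h2 : ContDiff ℝ ∞ b := hb
    exact h1.add h2
  zero_mem' := (contDiff_const : ContDiff ℝ ∞ fun _ : Pl => (0 : ℝ))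
  neg_mem' := by
    intro a ha
    have h1 : ContDiff ℝ ∞ a := ha
    exact h1.neg

theorem Egr_mem (u : Egr_S) : ContDiff ℝ ∞ u.1 := u.2

theorem Egr_smooth_v {h : Pl → ℝ} (hh : ContDiff ℝ ∞ h) (v : Pl) :
    ContDiff ℝ ∞ fun z => fderiv ℝ h z v :=
  ((contDiff_infty_iff_fderiv.1 hh).2).clm_apply contDiff_const

theorem Egr_smooth_dx {h : Pl → ℝ} (hh : ContDiff ℝ ∞ h) : ContDiff ℝ ∞ (dx h) :=
  Egr_smooth_v hh (1, 0)

theorem Egr_smooth_dy {h : Pl → ℝ} (hh : ContDiff ℝ ∞ h) : ContDiff ℝ ∞ (dy h) :=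
  Egr_smooth_v hh (0, 1)

/-- Derivations of the ring of smooth functions. -/
noncomputable def Egr_X (u : Egr_S) : Egr_S := ⟨dx u.1, Egr_smooth_dx u.2⟩

noncomputable def Egr_Y (u : Egr_S) : Egr_S := ⟨dy u.1, Egr_smooth_dy u.2⟩

theorem Egr_diff (u : Egr_S) (z : Pl) : DifferentiableAt ℝ u.1 z :=
  ((Egr_mem u).differentiable (by simp)) z

theorem Egr_add (u v : Egr_S) (w z : Pl) :
    fderiv ℝ (u + v : Egr_S).1 z w = fderiv ℝ u.1 z w + fderiv ℝ v.1 z w := by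
  have h : (u + v : Egr_S).1 = u.1 + v.1 := rfl
  rw [h, fderiv_add (Egr_diff u z) (Egr_diff v z)]
  rfl

theorem Egr_mul (u v : Egr_S) (w z : Pl) :
    fderiv ℝ (u * v : Egr_S).1 z w = fderiv ℝ u.1 z w * v.1 z + u.1 z * fderiv ℝ v.1 z w := by
  have h : (u * v : Egr_S).1 = u.1 * v.1 := rfl
  rw [h, fderiv_mul (Egr_diff u z) (Egr_diff v z)]
  show u.1 z * fderiv ℝ v.1 z w + v.1 z * fderiv ℝ u.1 z w = _
  ring

theorem Egr_const (c : Egr_S) (a : ℝ) (h : c.1 = fun _ => a) (w z : Pl) :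
    fderiv ℝ c.1 z w = 0 := by
  rw [h, fderiv_fun_const]
  rfl

/-- The composition with a smooth map. -/
def Egr_T (φ : Pl → Pl) (hφ : ContDiff ℝ ∞ φ) (u : Egr_S) : Egr_S :=
  ⟨fun z => u.1 (φ z), (Egr_mem u).comp hφ⟩

theorem Egr_chain (φ : Pl → Pl) (hφ : ContDiff ℝ ∞ φ) (u : Egr_S) (w z : Pl) :
    fderiv ℝ (fun z => u.1 (φ z)) z w =
      dx u.1 (φ z) * fderiv ℝ (fun z => (φ z).1) z w +
        dy u.1 (φ z) * fderiv ℝ (fun z => (φ z).2) z w := by
  have h0 : HasFDerivAt φ (fderiv ℝ φ z) z := ((hφ.differentiable (by simp)) z).hasFDerivAt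
  have h1 : HasFDerivAt (fun z => (φ z).1)
      ((ContinuousLinearMap.fst ℝ ℝ ℝ).comp (fderiv ℝ φ z)) z :=
    (ContinuousLinearMap.fst ℝ ℝ ℝ).hasFDerivAt.comp z h0
  have h2 : HasFDerivAt (fun z => (φ z).2)
      ((ContinuousLinearMap.snd ℝ ℝ ℝ).comp (fderiv ℝ φ z)) z :=
    (ContinuousLinearMap.snd ℝ ℝ ℝ).hasFDerivAt.comp z h0
  have h3 : HasFDerivAt (fun z => u.1 (φ z)) ((fderiv ℝ u.1 (φ z)).comp (fderiv ℝ φ z)) z :=
    (Egr_diff u (φ z)).hasFDerivAt.comp z h0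
  rw [h1.fderiv, h2.fderiv, h3.fderiv]
  have h4 : ∀ v : Pl, fderiv ℝ u.1 (φ z) v = dx u.1 (φ z) * v.1 + dy u.1 (φ z) * v.2 := by
    intro v
    have h5 : v = v.1 • ((1 : ℝ), (0 : ℝ)) + v.2 • ((0 : ℝ), (1 : ℝ)) := by
      ext <;> simp
    conv_lhs => rw [h5]
    rw [map_add, map_smul, map_smul]
    simp only [dx, dy, smul_eq_mul]
    ring
  exact h4 (fderiv ℝ φ z w)

/-- The second derivatives commute. -/
theorem Egr_symm {h : Pl → ℝ} (hh : ContDiff ℝ ∞ h) (z : Pl) : dy (dx h) z = dx (dy h) z := by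
  have hd : Differentiable ℝ (fderiv ℝ h) :=
    ((contDiff_infty_iff_fderiv.1 hh).2).differentiable (by simp)
  have key : ∀ v w : Pl, fderiv ℝ (fun y => fderiv ℝ h y v) z w =
      fderiv ℝ (fderiv ℝ h) z w v := by
    intro v w
    have h3 : HasFDerivAt (fderiv ℝ h) (fderiv ℝ (fderiv ℝ h) z) z := (hd z).hasFDerivAt
    have h4 : HasFDerivAt (fun y => fderiv ℝ h y v)
        ((ContinuousLinearMap.apply ℝ ℝ v).comp (fderiv ℝ (fderiv ℝ h) z)) z :=
      (ContinuousLinearMap.apply ℝ ℝ v).hasFDerivAt.comp z h3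
    rw [h4.fderiv]
    rfl
  have hs : IsSymmSndFDerivAt ℝ h z :=
    (hh.contDiffAt).isSymmSndFDerivAt (by
      simp only [minSmoothness_of_isRCLikeNormedField]
      exact ENat.LEInfty.out)
  have h1 : dy (dx h) z = fderiv ℝ (fderiv ℝ h) z (0, 1) (1, 0) := key (1, 0) (0, 1)
  have h2 : dx (dy h) z = fderiv ℝ (fderiv ℝ h) z (1, 0) (0, 1) := key (0, 1) (1, 0)
  rw [h1, h2]
  exact hs (0, 1) (1, 0)

/-- The curvature in terms of four times the numerator. -/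
theorem Egr_curv {m : Pl → Co} (E F G : Egr_S) (hE : ∀ w, E.1 w = (m w).1)
    (hF : ∀ w, F.1 w = (m w).2.1) (hG : ∀ w, G.1 w = (m w).2.2) (z : Pl) :
    curv m z = (Curv_N Egr_X Egr_Y E F G).1 z / (4 * dt (m z) ^ 2) := by
  have hE' : (fun w => (m w).1) = E.1 := funext fun w => (hE w).symm
  have hF' : (fun w => (m w).2.1) = F.1 := funext fun w => (hF w).symm
  have hG' : (fun w => (m w).2.2) = G.1 := funext fun w => (hG w).symm
  have h1 : (Curv_N Egr_X Egr_Y E F G).1 z =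
      (-(dy (dy E.1) z) + 2 * dx (dy F.1) z - dx (dx G.1) z) * (E.1 z * G.1 z - F.1 z ^ 2) * 2
    - dx E.1 z * ((2 * dy F.1 z - dx G.1 z) * G.1 z - F.1 z * dy G.1 z)
    + (2 * dx F.1 z - dy E.1 z) * ((2 * dy F.1 z - dx G.1 z) * F.1 z - E.1 z * dy G.1 z)
    + dy E.1 z * (dy E.1 z * G.1 z - F.1 z * dx G.1 z)
    - dx G.1 z * (dy E.1 z * F.1 z - E.1 z * dx G.1 z) := rfl
  have h2 : dy (dx F.1) z = dx (dy F.1) z := Egr_symm F.2 z
  rw [h1]
  unfold curv
  rw [hE', hF', hG']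
  simp only [h2, Matrix.det_fin_three, Matrix.of_apply, Matrix.cons_val]
  rw [← mul_div_mul_left _ _ (show (4 : ℝ) ≠ 0 by norm_num)]
  congr 1
  ring

/-- THEOREMA EGREGIUM for the deck transformations: if the smooth metric `m` is invariant under
`γ`, then so is its curvature. -/
theorem Egr_main (hX : Surface Γ D) (m : Sm) (hpos : ∀ z, 0 < dt (m.1 z)) (γ : Γ)
    (hinv : ∀ z v : Pl,
      qf (m.1 (γ • z)) (fderiv ℝ (fun w : Pl => γ • w) z v) = qf (m.1 z) v) (z : Pl) :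
    curv m.1 (γ • z) = curv m.1 z := by
  have hφ : ContDiff ℝ ∞ fun w : Pl => γ • w := hX.smooth γ
  set E : Egr_S := ⟨fun w => (m.1 w).1, m.2.fst⟩ with hE
  set F : Egr_S := ⟨fun w => (m.1 w).2.1, m.2.snd.fst⟩ with hF
  set G : Egr_S := ⟨fun w => (m.1 w).2.2, m.2.snd.snd⟩ with hG
  set f : Egr_S := ⟨fun w => (γ • w).1, hφ.fst⟩ with hf
  set g : Egr_S := ⟨fun w => (γ • w).2, hφ.snd⟩ with hg
  set T : Egr_S → Egr_S := Egr_T (fun w : Pl => γ • w) hφ with hT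
  have hcol : ∀ w v : Pl, fderiv ℝ (fun w : Pl => γ • w) w v =
      (fderiv ℝ f.1 w v, fderiv ℝ g.1 w v) := by
    intro w v
    have h0 : HasFDerivAt (fun w : Pl => γ • w) (fderiv ℝ (fun w : Pl => γ • w) w) w :=
      ((hφ.differentiable (by simp)) w).hasFDerivAt
    have h1 : HasFDerivAt f.1
        ((ContinuousLinearMap.fst ℝ ℝ ℝ).comp (fderiv ℝ (fun w : Pl => γ • w) w)) w :=
      (ContinuousLinearMap.fst ℝ ℝ ℝ).hasFDerivAt.comp w h0
    have h2 : HasFDerivAt g.1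
        ((ContinuousLinearMap.snd ℝ ℝ ℝ).comp (fderiv ℝ (fun w : Pl => γ • w) w)) w :=
      (ContinuousLinearMap.snd ℝ ℝ ℝ).hasFDerivAt.comp w h0
    rw [h1.fderiv, h2.fderiv]
    rfl
  have key := Curv_alg Egr_X Egr_Y T
    (fun u v => Subtype.ext (funext fun z => Egr_add u v (1, 0) z))
    (fun u v => Subtype.ext (funext fun z => Egr_add u v (0, 1) z))
    (fun u v => Subtype.ext (funext fun z => Egr_mul u v (1, 0) z))
    (fun u v => Subtype.ext (funext fun z => Egr_mul u v (0, 1) z))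
    (fun u => Subtype.ext (funext fun z => Egr_symm u.2 z))
    (Subtype.ext (funext fun z => Egr_const 2 2 rfl (1, 0) z))
    (Subtype.ext (funext fun z => Egr_const 2 2 rfl (0, 1) z))
    (Subtype.ext (funext fun z => Egr_const 0 0 rfl (1, 0) z))
    (Subtype.ext (funext fun z => Egr_const 0 0 rfl (0, 1) z))
    f g
    (fun u => Subtype.ext (funext fun z => Egr_chain (fun w : Pl => γ • w) hφ u (1, 0) z))
    (fun u => Subtype.ext (funext fun z => Egr_chain (fun w : Pl => γ • w) hφ u (0, 1) z))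
    E F G
  have hi : ∀ w v : Pl, qf (m.1 (γ • w)) (fderiv ℝ f.1 w v, fderiv ℝ g.1 w v) =
      qf (m.1 w) v := by
    intro w v
    rw [← hcol]
    exact hinv w v
  have e1 : T E * (Egr_X f * Egr_X f) + 2 * (T F * (Egr_X f * Egr_X g)) +
      T G * (Egr_X g * Egr_X g) = E := by
    apply Subtype.ext
    funext w
    have h := hi w (1, 0)
    simp only [qf] at h
    show (m.1 (γ • w)).1 * (dx f.1 w * dx f.1 w) +
      2 * ((m.1 (γ • w)).2.1 * (dx f.1 w * dx g.1 w)) +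
      (m.1 (γ • w)).2.2 * (dx g.1 w * dx g.1 w) = (m.1 w).1
    simp only [dx]
    linarith
  have e2 : T E * (Egr_Y f * Egr_Y f) + 2 * (T F * (Egr_Y f * Egr_Y g)) +
      T G * (Egr_Y g * Egr_Y g) = G := by
    apply Subtype.ext
    funext w
    have h := hi w (0, 1)
    simp only [qf] at h
    show (m.1 (γ • w)).1 * (dy f.1 w * dy f.1 w) +
      2 * ((m.1 (γ • w)).2.1 * (dy f.1 w * dy g.1 w)) +
      (m.1 (γ • w)).2.2 * (dy g.1 w * dy g.1 w) = (m.1 w).2.2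
    simp only [dy]
    linarith
  have e3 : T E * (Egr_X f * Egr_Y f) + T F * (Egr_X f * Egr_Y g + Egr_Y f * Egr_X g) +
      T G * (Egr_X g * Egr_Y g) = F := by
    apply Subtype.ext
    funext w
    have h1 := hi w (1, 0)
    have h2 := hi w (0, 1)
    have h3 := hi w (1, 1)
    have h4 : ((1 : ℝ), (1 : ℝ)) = (1, 0) + (0, 1) := by simp
    rw [h4] at h3
    simp only [map_add] at h3
    simp only [qf, Prod.fst_add, Prod.snd_add] at h1 h2 h3
    show (m.1 (γ • w)).1 * (dx f.1 w * dy f.1 w) +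
      (m.1 (γ • w)).2.1 * (dx f.1 w * dy g.1 w + dy f.1 w * dx g.1 w) +
      (m.1 (γ • w)).2.2 * (dx g.1 w * dy g.1 w) = (m.1 w).2.1
    simp only [dx, dy]
    linarith
  rw [e1, e2, e3] at key
  have hz := congrFun (congrArg Subtype.val key) z
  -- evaluate at `z`
  have hN : (Curv_N Egr_X Egr_Y E F G).1 z =
      (dx f.1 z * dy g.1 z - dy f.1 z * dx g.1 z) ^ 4 *
        (Curv_N Egr_X Egr_Y E F G).1 (γ • z) := hz
  have hdt : dt (m.1 z) =
      (dx f.1 z * dy g.1 z - dy f.1 z * dx g.1 z) ^ 2 * dt (m.1 (γ • z)) := by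
    have a1 := congrFun (congrArg Subtype.val e1) z
    have a2 := congrFun (congrArg Subtype.val e2) z
    have a3 := congrFun (congrArg Subtype.val e3) z
    have b1 : (m.1 (γ • z)).1 * (dx f.1 z * dx f.1 z) +
      2 * ((m.1 (γ • z)).2.1 * (dx f.1 z * dx g.1 z)) +
      (m.1 (γ • z)).2.2 * (dx g.1 z * dx g.1 z) = (m.1 z).1 := a1
    have b2 : (m.1 (γ • z)).1 * (dy f.1 z * dy f.1 z) +
      2 * ((m.1 (γ • z)).2.1 * (dy f.1 z * dy g.1 z)) +
      (m.1 (γ • z)).2.2 * (dy g.1 z * dy g.1 z) = (m.1 z).2.2 := a2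
    have b3 : (m.1 (γ • z)).1 * (dx f.1 z * dy f.1 z) +
      (m.1 (γ • z)).2.1 * (dx f.1 z * dy g.1 z + dy f.1 z * dx g.1 z) +
      (m.1 (γ • z)).2.2 * (dx g.1 z * dy g.1 z) = (m.1 z).2.1 := a3
    unfold dt
    rw [← b1, ← b2, ← b3]
    ring
  rw [Egr_curv E F G (fun _ => rfl) (fun _ => rfl) (fun _ => rfl) z,
    Egr_curv E F G (fun _ => rfl) (fun _ => rfl) (fun _ => rfl) (γ • z), hN, hdt]
  have h1 := hpos z
  have h2 := hpos (γ • z)
  have h3 : dx f.1 z * dy g.1 z - dy f.1 z * dx g.1 z ≠ 0 := by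
    intro h0
    rw [hdt, h0] at h1
    norm_num at h1
  field_simp

/-- The same for all group elements. -/
theorem curv_inv (hX : Surface Γ D) (m : Sm) (hpos : ∀ z, 0 < dt (m.1 z))
    (hinv : ∀ (γ : Γ) (z v : Pl),
      qf (m.1 (γ • z)) (fderiv ℝ (fun w : Pl => γ • w) z v) = qf (m.1 z) v) (γ : Γ) (z : Pl) :
    curv m.1 (γ • z) = curv m.1 z :=
  Egr_main hX m hpos γ (hinv γ) z

end BGS
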