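import Mathlib
import Pool.Agent.LibBGS.Defs

/-! TASK POIN: the Poincare inequality on a square. Prefix own names with `Poin_`. -/

open MeasureTheory Set Filter Topology
open scoped ContDiff ENNReal NNReal

namespace BGS

theorem Poin_cs (f g : ℝ → ℝ) (hf : ∀ s, HasDerivAt f (g s) s) (hg : Continuous g)
    {x x' : ℝ} (h : x' < x) :
    (f x - f x') ^ 2 ≤ (x - x') * ∫ s in x'..x, g s ^ 2 := by
  have hL : 0 < x - x' := sub_pos.2 h
  have hG : ∫ s in x'..x, g s = f x - f x' :=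
    intervalIntegral.integral_eq_sub_of_hasDerivAt (fun s _ => hf s) (hg.intervalIntegrable _ _)
  set G := f x - f x' with hGdef
  have h0 : 0 ≤ ∫ s in x'..x, (g s - G / (x - x')) ^ 2 :=
    intervalIntegral.integral_nonneg h.le (fun s _ => sq_nonneg _)
  have h1 : ∫ s in x'..x, (g s - G / (x - x')) ^ 2 =
      (∫ s in x'..x, g s ^ 2) - 2 * (G / (x - x')) * G + (G / (x - x')) ^ 2 * (x - x') := by
    have e : ∀ s, (g s - G / (x - x')) ^ 2 =
        g s ^ 2 - 2 * (G / (x - x')) * g s + (G / (x - x')) ^ 2 := fun s => by ring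
    simp_rw [e]
    rw [intervalIntegral.integral_add, intervalIntegral.integral_sub,
      intervalIntegral.integral_const_mul, hG, intervalIntegral.integral_const, smul_eq_mul]
    · ring
    · exact (hg.pow 2).intervalIntegrable _ _
    · exact (continuous_const.mul hg).intervalIntegrable _ _
    · exact ((hg.pow 2).sub (continuous_const.mul hg)).intervalIntegrable _ _
    · exact continuous_const.intervalIntegrable _ _
  rw [h1] at h0
  have h2 : - (2 * (G / (x - x')) * G) + (G / (x - x')) ^ 2 * (x - x') = - (G ^ 2 / (x - x')) := by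
    field_simp
    ring
  have h3 : G ^ 2 / (x - x') ≤ ∫ s in x'..x, g s ^ 2 := by linarith
  rw [div_le_iff₀ hL] at h3
  linarith

theorem Poin_1d (f g : ℝ → ℝ) (hf : ∀ s, HasDerivAt f (g s) s) (hg : Continuous g)
    {a r x x' : ℝ} (hx : x ∈ Ico a (a + r)) (hx' : x' ∈ Ico a (a + r)) :
    (f x - f x') ^ 2 ≤ r * ∫ s in Ico a (a + r), g s ^ 2 := by
  wlog h : x' < x generalizing x x'
  · rcases (not_lt.1 h).eq_or_lt with h' | h'
    · rw [h', sub_self, zero_pow two_ne_zero]
      have hr : 0 ≤ r := by linarith [hx.1, hx.2]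
      exact mul_nonneg hr (setIntegral_nonneg measurableSet_Ico (fun s _ => sq_nonneg _))
    · have := this hx' hx h'
      calc (f x - f x') ^ 2 = (f x' - f x) ^ 2 := by ring
        _ ≤ _ := this
  have har : a ≤ a + r := by linarith [hx.1, hx.2]
  have h1 := Poin_cs f g hf hg h
  have h2 : ∫ s in x'..x, g s ^ 2 ≤ ∫ s in a..(a + r), g s ^ 2 := by
    refine intervalIntegral.integral_mono_interval hx'.1 h.le hx.2.le
      (Eventually.of_forall fun s => sq_nonneg _) ((hg.pow 2).intervalIntegrable _ _)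
  have h3 : ∫ s in a..(a + r), g s ^ 2 = ∫ s in Ico a (a + r), g s ^ 2 := by
    rw [intervalIntegral.integral_of_le har, integral_Ico_eq_integral_Ioc]
  have h4 : 0 ≤ ∫ s in x'..x, g s ^ 2 := intervalIntegral.integral_nonneg h.le
    (fun s _ => sq_nonneg _)
  rw [← h3]
  calc (f x - f x') ^ 2 ≤ (x - x') * ∫ s in x'..x, g s ^ 2 := h1
    _ ≤ r * ∫ s in x'..x, g s ^ 2 :=
        mul_le_mul_of_nonneg_right (by linarith [hx'.1, hx.2]) h4
    _ ≤ r * ∫ s in a..(a + r), g s ^ 2 :=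
        mul_le_mul_of_nonneg_left h2 (by linarith [hx'.1, hx.2])

theorem Poin_dx_cont {u : Pl → ℝ} (hu : ContDiff ℝ 1 u) : Continuous (dx u) :=
  (hu.continuous_fderiv one_ne_zero).clm_apply continuous_const

theorem Poin_dy_cont {u : Pl → ℝ} (hu : ContDiff ℝ 1 u) : Continuous (dy u) :=
  (hu.continuous_fderiv one_ne_zero).clm_apply continuous_const

theorem Poin_hasDeriv_x {u : Pl → ℝ} (hu : ContDiff ℝ 1 u) (y s : ℝ) :
    HasDerivAt (fun s => u (s, y)) (dx u (s, y)) s := by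
  have h1 : HasFDerivAt u (fderiv ℝ u (s, y)) (s, y) :=
    (hu.differentiable one_ne_zero (s, y)).hasFDerivAt
  have h2 : HasDerivAt (fun s : ℝ => ((s, y) : Pl)) (1, 0) s :=
    (hasDerivAt_id s).prodMk (hasDerivAt_const s y)
  exact h1.comp_hasDerivAt s h2

theorem Poin_hasDeriv_y {u : Pl → ℝ} (hu : ContDiff ℝ 1 u) (x s : ℝ) :
    HasDerivAt (fun s => u (x, s)) (dy u (x, s)) s := by
  have h1 : HasFDerivAt u (fderiv ℝ u (x, s)) (x, s) :=
    (hu.differentiable one_ne_zero (x, s)).hasFDerivAt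
  have h2 : HasDerivAt (fun s : ℝ => ((x, s) : Pl)) (0, 1) s :=
    (hasDerivAt_const s x).prodMk (hasDerivAt_id s)
  exact h1.comp_hasDerivAt s h2

/-- Poincare's inequality on a square of side `r`, for functions of mean zero.
(`2 r² ∫ u² = ∫∫ (u(z) - u(w))²` when the mean is zero, and
`(u(x,y) - u(x',y'))² ≤ 2 r ∫ u_x(s,y)² ds + 2 r ∫ u_y(x',t)² dt`.) -/
theorem poincare_square (u : Pl → ℝ) (hu : ContDiff ℝ 1 u) (a b : ℝ) {r : ℝ} (hr : 0 < r)
    (h0 : ∫ z in Ico a (a + r) ×ˢ Ico b (b + r), u z = 0) :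
    ∫ z in Ico a (a + r) ×ˢ Ico b (b + r), u z ^ 2 ≤
      r ^ 2 * ∫ z in Ico a (a + r) ×ˢ Ico b (b + r), (dx u z ^ 2 + dy u z ^ 2) := by
  have hdx := Poin_dx_cont hu
  have hdy := Poin_dy_cont hu
  have huc := hu.continuous
  set μ : Measure ℝ := volume.restrict (Ico a (a + r)) with hμ
  set ν : Measure ℝ := volume.restrict (Ico b (b + r)) with hν
  have hμm : μ.real univ = r := by
    simp [hμ, Measure.real, hr.le]
  have hνm : ν.real univ = r := by
    simp [hν, Measure.real, hr.le]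
  have hfμ : IsFiniteMeasure μ := ⟨by simp [hμ]⟩
  have hfν : IsFiniteMeasure ν := ⟨by simp [hν]⟩
  have hrestr : (volume : Measure Pl).restrict (Ico a (a + r) ×ˢ Ico b (b + r)) = μ.prod ν := by
    rw [hμ, hν, Measure.prod_restrict]
    rfl
  rw [hrestr] at h0 ⊢
  have hPm : (μ.prod ν).real univ = r ^ 2 := by
    rw [Measure.real, ← univ_prod_univ, Measure.prod_prod, ENNReal.toReal_mul]
    change μ.real univ * ν.real univ = _
    rw [hμm, hνm]; ring
  have hint : ∀ f : Pl → ℝ, Continuous f → Integrable f (μ.prod ν) := by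
    intro f hf
    rw [← hrestr]
    refine (hf.continuousOn.integrableOn_compact (isCompact_Icc.prod isCompact_Icc)).mono_set
      (Set.prod_mono Ico_subset_Icc_self Ico_subset_Icc_self)
  have hae : ∀ᵐ z ∂(μ.prod ν), z ∈ Ico a (a + r) ×ˢ Ico b (b + r) := by
    rw [← hrestr]
    exact ae_restrict_mem (measurableSet_Ico.prod measurableSet_Ico)
  set U := ∫ z, u z ^ 2 ∂(μ.prod ν) with hU
  set X := ∫ z, dx u z ^ 2 ∂(μ.prod ν) with hX
  set Y := ∫ z, dy u z ^ 2 ∂(μ.prod ν) with hY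
  set A : ℝ → ℝ := fun y => ∫ x, dx u (x, y) ^ 2 ∂μ with hA
  set B : ℝ → ℝ := fun x => ∫ y, dy u (x, y) ^ 2 ∂ν with hB
  have hAint : Integrable A ν := (hint _ (hdx.pow 2)).integral_prod_right
  have hBint : Integrable B μ := (hint _ (hdy.pow 2)).integral_prod_left
  have hXA : X = ∫ y, A y ∂ν := integral_prod_symm _ (hint _ (hdx.pow 2))
  have hYB : Y = ∫ x, B x ∂μ := integral_prod _ (hint _ (hdy.pow 2))
  have hAP : ∫ z : Pl, A z.2 ∂(μ.prod ν) = r * X := by
    rw [integral_fun_snd, hμm, hXA, smul_eq_mul]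
  have hBP : ∫ z : Pl, B z.1 ∂(μ.prod ν) = r * Y := by
    rw [integral_fun_fst, hνm, hYB, smul_eq_mul]
  have hAPi : Integrable (fun z : Pl => A z.2) (μ.prod ν) := hAint.comp_snd μ
  have hBPi : Integrable (fun z : Pl => B z.1) (μ.prod ν) := hBint.comp_fst ν
  have step1 : ∀ w ∈ Ico a (a + r) ×ˢ Ico b (b + r),
      U + r ^ 2 * u w ^ 2 ≤ 2 * r ^ 2 * X + 2 * r ^ 3 * B w.1 := by
    intro w hw
    have e1 : ∫ z, (u z - u w) ^ 2 ∂(μ.prod ν) = U + r ^ 2 * u w ^ 2 := by
      have e : ∀ z, (u z - u w) ^ 2 = u z ^ 2 - 2 * u w * u z + u w ^ 2 := fun z => by ring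
      simp_rw [e]
      rw [integral_add, integral_sub, integral_const_mul, h0, integral_const, hPm, smul_eq_mul]
      · ring
      · exact hint _ (huc.pow 2)
      · exact hint _ (continuous_const.mul huc)
      · exact hint _ ((huc.pow 2).sub (continuous_const.mul huc))
      · exact integrable_const _
    have e2 : ∫ z : Pl, (2 * r * A z.2 + 2 * r * B w.1) ∂(μ.prod ν) =
        2 * r ^ 2 * X + 2 * r ^ 3 * B w.1 := by
      rw [integral_add, integral_const_mul, hAP, integral_const, hPm, smul_eq_mul]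
      · ring
      · exact hAPi.const_mul _
      · exact integrable_const _
    rw [← e1, ← e2]
    refine integral_mono_ae (hint _ ((huc.sub continuous_const).pow 2))
      ((hAPi.const_mul _).add (integrable_const _)) ?_
    filter_upwards [hae] with z hz
    have h1 : (u (z.1, z.2) - u (w.1, z.2)) ^ 2 ≤ r * A z.2 :=
      Poin_1d (fun s => u (s, z.2)) (fun s => dx u (s, z.2)) (Poin_hasDeriv_x hu z.2)
        (hdx.comp (by fun_prop)) hz.1 hw.1
    have h2 : (u (w.1, z.2) - u (w.1, w.2)) ^ 2 ≤ r * B w.1 :=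
      Poin_1d (fun s => u (w.1, s)) (fun s => dy u (w.1, s)) (Poin_hasDeriv_y hu w.1)
        (hdy.comp (by fun_prop)) hz.2 hw.2
    change (u (z.1, z.2) - u (w.1, w.2)) ^ 2 ≤ 2 * r * A z.2 + 2 * r * B w.1
    nlinarith [sq_nonneg ((u (z.1, z.2) - u (w.1, z.2)) - (u (w.1, z.2) - u (w.1, w.2)))]
  have step2 : ∫ w, (U + r ^ 2 * u w ^ 2) ∂(μ.prod ν) ≤
      ∫ w : Pl, (2 * r ^ 2 * X + 2 * r ^ 3 * B w.1) ∂(μ.prod ν) := by
    refine integral_mono_ae ((integrable_const _).add ((hint _ (huc.pow 2)).const_mul _))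
      ((integrable_const _).add (hBPi.const_mul _)) ?_
    filter_upwards [hae] with w hw
    exact step1 w hw
  have e3 : ∫ w, (U + r ^ 2 * u w ^ 2) ∂(μ.prod ν) = r ^ 2 * U + r ^ 2 * U := by
    rw [integral_add, integral_const, integral_const_mul, hPm, smul_eq_mul]
    · exact integrable_const _
    · exact (hint _ (huc.pow 2)).const_mul _
  have e4 : ∫ w : Pl, (2 * r ^ 2 * X + 2 * r ^ 3 * B w.1) ∂(μ.prod ν) =
      r ^ 2 * (2 * r ^ 2 * X) + 2 * r ^ 3 * (r * Y) := by
    rw [integral_add, integral_const, integral_const_mul, hPm, smul_eq_mul, hBP]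
    · exact integrable_const _
    · exact hBPi.const_mul _
  rw [e3, e4] at step2
  have e5 : ∫ z, (dx u z ^ 2 + dy u z ^ 2) ∂(μ.prod ν) = X + Y :=
    integral_add (hint _ (hdx.pow 2)) (hint _ (hdy.pow 2))
  rw [e5]
  have hr2 : 0 < 2 * r ^ 2 := by positivity
  have : 2 * r ^ 2 * U ≤ 2 * r ^ 2 * (r ^ 2 * (X + Y)) := by
    nlinarith [step2]
  exact le_of_mul_le_mul_left this hr2

end BGS
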