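import Mathlib
import Pool.Agent.LibBGS.Poin
import Pool.Agent.LibBGS.Cover

/-! TASK DISC: the eigenvalues tend to infinity. Prefix own names with `Disc_`. -/

open MeasureTheory Set Filter Topology
open scoped ContDiff ENNReal NNReal

namespace BGS

variable {Γ : Type} [Group Γ] [MulAction Γ Pl] {D : Set Pl}

/-- A half-open square. -/
def Disc_sq (a b r : ℝ) : Set Pl := Ico a (a + r) ×ˢ Ico b (b + r)

theorem Disc_sq_meas (a b r : ℝ) : MeasurableSet (Disc_sq a b r) :=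
  measurableSet_Ico.prod measurableSet_Ico

theorem Disc_sq_sub (a b r : ℝ) : Disc_sq a b r ⊆ Icc a (a + r) ×ˢ Icc b (b + r) :=
  prod_mono Ico_subset_Icc_self Ico_subset_Icc_self

theorem Disc_intble {g : Pl → ℝ} (hg : Continuous g) (a b r : ℝ) :
    IntegrableOn g (Disc_sq a b r) :=
  (hg.continuousOn.integrableOn_compact (isCompact_Icc.prod isCompact_Icc)).mono_set
    (Disc_sq_sub a b r)

/-- Decomposition of a big square into `N²` small ones. -/
theorem Disc_decomp (a b : ℝ) {r : ℝ} (hr : 0 < r) (N : ℕ) :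
    Disc_sq a b (N * r) =
      ⋃ p ∈ (Finset.univ : Finset (Fin N × Fin N)),
        Disc_sq (a + (p.1 : ℕ) * r) (b + (p.2 : ℕ) * r) r := by
  have one : ∀ a x : ℝ, x ∈ Ico a (a + N * r) → ∃ i : Fin N, x ∈ Ico (a + (i : ℕ) * r)
      (a + (i : ℕ) * r + r) := by
    intro a x hx
    have h0 : 0 ≤ (x - a) / r := div_nonneg (by linarith [hx.1]) hr.le
    have h1 : ⌊(x - a) / r⌋₊ < N := by
      rw [Nat.floor_lt h0, div_lt_iff₀ hr]
      linarith [hx.2]
    refine ⟨⟨⌊(x - a) / r⌋₊, h1⟩, ?_, ?_⟩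
    · have := Nat.floor_le h0
      rw [le_div_iff₀ hr] at this
      simp only
      linarith
    · have := Nat.lt_floor_add_one ((x - a) / r)
      rw [div_lt_iff₀ hr] at this
      simp only
      linarith
  have two : ∀ (a x : ℝ) (i : Fin N), x ∈ Ico (a + (i : ℕ) * r) (a + (i : ℕ) * r + r) →
      x ∈ Ico a (a + N * r) := by
    intro a x i hx
    have h1 : ((i : ℕ) : ℝ) + 1 ≤ N := by exact_mod_cast i.2
    have h2 : 0 ≤ ((i : ℕ) : ℝ) * r := by positivity
    have h3 := mul_le_mul_of_nonneg_right h1 hr.le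
    exact ⟨by linarith [hx.1], by linarith [hx.2]⟩
  ext z
  simp only [Disc_sq, mem_prod, Finset.mem_univ, iUnion_true, mem_iUnion, Prod.exists]
  constructor
  · rintro ⟨h1, h2⟩
    obtain ⟨i, hi⟩ := one a z.1 h1
    obtain ⟨j, hj⟩ := one b z.2 h2
    exact ⟨i, j, hi, hj⟩
  · rintro ⟨i, j, hi, hj⟩
    exact ⟨two a z.1 i hi, two b z.2 j hj⟩

theorem Disc_disj (a b : ℝ) {r : ℝ} (hr : 0 < r) (N : ℕ) :
    Set.Pairwise ((Finset.univ : Finset (Fin N × Fin N)) : Set (Fin N × Fin N))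
      (Function.onFun Disjoint
        fun p => Disc_sq (a + (p.1 : ℕ) * r) (b + (p.2 : ℕ) * r) r) := by
  have one : ∀ (a x : ℝ) (i j : Fin N), x ∈ Ico (a + (i : ℕ) * r) (a + (i : ℕ) * r + r) →
      x ∈ Ico (a + (j : ℕ) * r) (a + (j : ℕ) * r + r) → i = j := by
    intro a x i j hi hj
    have h1 : ((i : ℕ) : ℝ) * r < (((j : ℕ) : ℝ) + 1) * r := by
      have := hi.1; have := hj.2; linarith
    have h2 : ((j : ℕ) : ℝ) * r < (((i : ℕ) : ℝ) + 1) * r := by
      have := hj.1; have := hi.2; linarith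
    have h3 := lt_of_mul_lt_mul_right h1 hr.le
    have h4 := lt_of_mul_lt_mul_right h2 hr.le
    have h5 : (i : ℕ) < j + 1 := by exact_mod_cast h3
    have h6 : (j : ℕ) < i + 1 := by exact_mod_cast h4
    exact Fin.ext (by omega)
  intro p _ q _ hpq
  rw [Function.onFun, Set.disjoint_left]
  rintro z ⟨h1, h2⟩ ⟨h3, h4⟩
  exact hpq (Prod.ext (one a z.1 _ _ h1 h3) (one b z.2 _ _ h2 h4))

theorem Disc_sum {g : Pl → ℝ} (hg : Continuous g) (a b : ℝ) {r : ℝ} (hr : 0 < r) (N : ℕ) :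
    ∫ z in Disc_sq a b (N * r), g z =
      ∑ p : Fin N × Fin N, ∫ z in Disc_sq (a + (p.1 : ℕ) * r) (b + (p.2 : ℕ) * r) r, g z := by
  rw [Disc_decomp a b hr N]
  exact integral_biUnion_finset _ (fun p _ => Disc_sq_meas _ _ _) (Disc_disj a b hr N)
    fun p _ => Disc_intble hg _ _ _

/-- The pointwise lower bound of the energy density. -/
theorem Disc_wf {c : Co} (h0 : 0 < c.1) (h : 0 < dt c) (p q : ℝ) :
    √(dt c) / (c.1 + c.2.2) * (p ^ 2 + q ^ 2) ≤ wf c p q := by
  have h3 : 0 < c.2.2 := by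
    unfold dt at h
    by_contra hc
    push Not at hc
    nlinarith [mul_nonneg h0.le (neg_nonneg.2 hc), sq_nonneg c.2.1]
  have hs : 0 < √(dt c) := Real.sqrt_pos.2 h
  unfold wf
  rw [div_mul_eq_mul_div, div_le_div_iff₀ (by positivity) hs]
  have h4 : √(dt c) * (p ^ 2 + q ^ 2) * √(dt c) = dt c * (p ^ 2 + q ^ 2) := by
    rw [mul_right_comm, Real.mul_self_sqrt h.le]
  rw [h4]
  unfold dt
  nlinarith [sq_nonneg (c.2.2 * p - c.2.1 * q), sq_nonneg (c.2.1 * p - c.1 * q)]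

/-- Dimension count: a space of dimension larger than the number of conditions contains a nonzero
function satisfying them. -/
theorem Disc_count {ι : Type} [Fintype ι] (V : Submodule ℝ (Pl → ℝ)) (S : ι → Set Pl)
    (hV : Fintype.card ι < Module.finrank ℝ V)
    (hint : ∀ u ∈ V, ∀ i, IntegrableOn u (S i)) :
    ∃ u ∈ V, u ≠ 0 ∧ ∀ i, ∫ z in S i, u z = 0 := by
  have : FiniteDimensional ℝ V := Module.finite_of_finrank_pos (by omega)
  let L : V →ₗ[ℝ] (ι → ℝ) :=
    { toFun := fun u i => ∫ z in S i, u.1 z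
      map_add' := by
        intro u v
        funext i
        exact integral_add (hint u.1 u.2 i) (hint v.1 v.2 i)
      map_smul' := by
        intro c u
        funext i
        exact integral_const_mul c u.1 }
  have hker : LinearMap.ker L ≠ ⊥ := by
    refine LinearMap.ker_ne_bot_of_finrank_lt ?_
    rw [Module.finrank_fintype_fun_eq_card]
    exact hV
  obtain ⟨u, hu, hne⟩ := (Submodule.ne_bot_iff _).1 hker
  refine ⟨u.1, u.2, fun h => hne (Subtype.ext h), fun i => ?_⟩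
  have := congrFun (LinearMap.mem_ker.1 hu) i
  exact this

/-- Poincare's inequality summed over the small squares. -/
theorem Disc_poin {u : Pl → ℝ} (hu : ContDiff ℝ ∞ u) (a b : ℝ) {r : ℝ} (hr : 0 < r) (N : ℕ)
    (h0 : ∀ p : Fin N × Fin N,
      ∫ z in Disc_sq (a + (p.1 : ℕ) * r) (b + (p.2 : ℕ) * r) r, u z = 0) :
    ∫ z in Disc_sq a b (N * r), u z ^ 2 ≤
      r ^ 2 * ∫ z in Disc_sq a b (N * r), (dx u z ^ 2 + dy u z ^ 2) := by
  rw [Disc_sum (g := fun z => u z ^ 2) (hu.continuous.pow 2) a b hr N,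
    Disc_sum (g := fun z => dx u z ^ 2 + dy u z ^ 2)
      (((Cmp_dx hu).pow 2).add ((Cmp_dy hu).pow 2)) a b hr N, Finset.mul_sum]
  refine Finset.sum_le_sum fun p _ => ?_
  exact poincare_square u (hu.of_le (by exact_mod_cast le_top)) _ _ hr (h0 p)

/-- Cut a big square `[-R, R) × [-R, R)` containing `D` into `N²` squares of side `r = 2 R / N`.
If `V` has dimension larger than `N²`, some nonzero `u ∈ V` has mean zero on all small squares;
Poincare on them and `en_cover` give `l2 ≤ A r² en`, hence `c ≥ 1 / (A r²)`. -/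
theorem ev_large (hX : Surface Γ D) (m : Mt Γ D) (C : ℝ≥0) :
    ∃ k₀ : ℕ, ∀ k, k₀ ≤ k → (C : ℝ≥0∞) ≤ ev Γ D m.1.1 k := by
  obtain ⟨R, hR, hDR⟩ : ∃ R : ℝ, 0 < R ∧ D ⊆ Disc_sq (-R) (-R) (2 * R) := by
    obtain ⟨R, hR⟩ := hX.bdd.subset_closedBall (0 : Pl)
    refine ⟨max R 0 + 1, by positivity, fun z hz => ?_⟩
    have h1 := hR hz
    rw [mem_closedBall_zero_iff, Prod.norm_def, max_le_iff, Real.norm_eq_abs, Real.norm_eq_abs,
      abs_le, abs_le] at h1
    have h2 := le_max_left R 0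
    exact ⟨⟨by linarith [h1.1.1], by linarith [h1.1.2]⟩, ⟨by linarith [h1.2.1],
      by linarith [h1.2.2]⟩⟩
  set K : Set Pl := Icc (-R) (-R + 2 * R) ×ˢ Icc (-R) (-R + 2 * R) with hK
  have hKc : IsCompact K := isCompact_Icc.prod isCompact_Icc
  have hKne : K.Nonempty := ⟨(0, 0), by
    constructor <;> constructor <;> simp <;> linarith⟩
  have hm : Continuous m.1.1 := m.1.2.continuous
  have hsq : Continuous fun z => √(dt (m.1.1 z)) :=
    Real.continuous_sqrt.comp (Cmp_dt_cont.comp hm)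
  have hEG : ∀ z, 0 < (m.1.1 z).1 + (m.1.1 z).2.2 := by
    intro z
    have h := m.2.pos z
    have h3 : 0 < (m.1.1 z).2.2 := by
      have h4 := h.2
      unfold dt at h4
      by_contra hc
      push Not at hc
      nlinarith [mul_nonneg h.1.le (neg_nonneg.2 hc), sq_nonneg (m.1.1 z).2.1]
    linarith [h.1]
  have hlow : Continuous fun z => √(dt (m.1.1 z)) / ((m.1.1 z).1 + (m.1.1 z).2.2) :=
    hsq.div ((continuous_fst.comp hm).add (continuous_snd.comp (continuous_snd.comp hm)))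
      fun z => (hEG z).ne'
  obtain ⟨z1, _, hz1⟩ := hKc.exists_isMaxOn hKne hsq.continuousOn
  obtain ⟨z2, _, hz2⟩ := hKc.exists_isMinOn hKne hlow.continuousOn
  set A1 : ℝ := √(dt (m.1.1 z1)) with hA1
  set a2 : ℝ := √(dt (m.1.1 z2)) / ((m.1.1 z2).1 + (m.1.1 z2).2.2) with ha2
  have hA1pos : 0 < A1 := Real.sqrt_pos.2 (m.2.pos z1).2
  have ha2pos : 0 < a2 := div_pos (Real.sqrt_pos.2 (m.2.pos z2).2) (hEG z2)
  have hbd : Bornology.IsBounded (Disc_sq (-R) (-R) (2 * R)) :=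
    hKc.isBounded.subset (Disc_sq_sub _ _ _)
  obtain ⟨P, hP, hcov⟩ := en_cover hX m _ hbd (Disc_sq_meas (-R) (-R) (2 * R))
  -- choose the number of squares
  obtain ⟨N, hN⟩ := exists_nat_gt (A1 / a2 * P * (2 * R) ^ 2 * C)
  have hN0 : 0 < N := by
    have h1 : 0 ≤ A1 / a2 * P * (2 * R) ^ 2 * C := by positivity
    exact_mod_cast h1.trans_lt hN
  have hN' : (0 : ℝ) < N := by exact_mod_cast hN0
  set r : ℝ := 2 * R / N with hr
  have hrpos : 0 < r := by positivity
  have hNr : (N : ℝ) * r = 2 * R := by rw [hr]; field_simp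
  refine ⟨N * N, fun k hk => ?_⟩
  unfold ev
  refine le_iInf₂ fun c hc => ?_
  obtain ⟨V, hV, hVc⟩ := hc
  obtain ⟨u, huV, hu0, hmean⟩ := Disc_count V
    (fun p : Fin N × Fin N => Disc_sq (-R + (p.1 : ℕ) * r) (-R + (p.2 : ℕ) * r) r)
    (by rw [hV, Fintype.card_prod, Fintype.card_fin]; omega)
    (fun u hu p => Disc_intble (hVc u hu).1.1.continuous _ _ _)
  obtain ⟨hT, hen⟩ := hVc u huV
  have hpos := l2_pos hX m hT hu0
  have hp := Disc_poin hT.1 (-R) (-R) hrpos N hmean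
  rw [hNr] at hp
  set Q : Set Pl := Disc_sq (-R) (-R) (2 * R) with hQ
  have hQK : Q ⊆ K := Disc_sq_sub _ _ _
  have s1 : l2 D m.1.1 u ≤ A1 * ∫ z in Q, u z ^ 2 := by
    rw [← integral_const_mul]
    calc l2 D m.1.1 u ≤ ∫ z in Q, u z ^ 2 * √(dt (m.1.1 z)) :=
          setIntegral_mono_set (Disc_intble (Cmp_l2_cont m hT.1) _ _ _)
            (Eventually.of_forall fun z => mul_nonneg (sq_nonneg _) (Real.sqrt_nonneg _))
            hDR.eventuallyLE
      _ ≤ ∫ z in Q, A1 * u z ^ 2 := by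
          refine setIntegral_mono_on (Disc_intble (Cmp_l2_cont m hT.1) _ _ _)
            (Disc_intble (continuous_const.mul (hT.1.continuous.pow 2)) _ _ _)
            (Disc_sq_meas _ _ _) fun z hz => ?_
          rw [mul_comm]
          exact mul_le_mul_of_nonneg_right (hz1 (hQK hz)) (sq_nonneg _)
  have s2 : a2 * ∫ z in Q, (dx u z ^ 2 + dy u z ^ 2) ≤ P * en D m.1.1 u := by
    rw [← integral_const_mul]
    refine le_trans ?_ (hcov u hT)
    refine setIntegral_mono_on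
      (Disc_intble (continuous_const.mul (((Cmp_dx hT.1).pow 2).add ((Cmp_dy hT.1).pow 2))) _ _ _)
      (Disc_intble (Cmp_wf_cont m hT.1) _ _ _) (Disc_sq_meas _ _ _) fun z hz => ?_
    refine le_trans ?_ (Disc_wf (m.2.pos z).1 (m.2.pos z).2 _ _)
    exact mul_le_mul_of_nonneg_right (hz2 (hQK hz)) (by positivity)
  have s3 : l2 D m.1.1 u ≤ A1 / a2 * P * r ^ 2 * (c * l2 D m.1.1 u) := by
    have hI : ∫ z in Q, (dx u z ^ 2 + dy u z ^ 2) ≤ P * (c * l2 D m.1.1 u) / a2 := by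
      rw [le_div_iff₀ ha2pos, mul_comm]
      exact s2.trans (mul_le_mul_of_nonneg_left hen hP.le)
    calc l2 D m.1.1 u ≤ A1 * ∫ z in Q, u z ^ 2 := s1
      _ ≤ A1 * (r ^ 2 * ∫ z in Q, (dx u z ^ 2 + dy u z ^ 2)) :=
          mul_le_mul_of_nonneg_left hp hA1pos.le
      _ ≤ A1 * (r ^ 2 * (P * (c * l2 D m.1.1 u) / a2)) :=
          mul_le_mul_of_nonneg_left (mul_le_mul_of_nonneg_left hI (sq_nonneg _)) hA1pos.le
      _ = A1 / a2 * P * r ^ 2 * (c * l2 D m.1.1 u) := by ring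
  have s4 : 1 ≤ A1 / a2 * P * r ^ 2 * c := by
    by_contra hlt
    push Not at hlt
    have h5 := mul_lt_mul_of_pos_right hlt hpos
    rw [one_mul] at h5
    have h6 : A1 / a2 * P * r ^ 2 * (c * l2 D m.1.1 u)
        = A1 / a2 * P * r ^ 2 * c * l2 D m.1.1 u := by ring
    linarith
  rw [ENNReal.coe_le_coe, ← NNReal.coe_le_coe]
  by_contra hcC
  push Not at hcC
  have h7 : A1 / a2 * P * r ^ 2 * c ≤ A1 / a2 * P * r ^ 2 * C :=
    mul_le_mul_of_nonneg_left hcC.le (by positivity)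
  have h8 : A1 / a2 * P * r ^ 2 * C = A1 / a2 * P * (2 * R) ^ 2 * C / (N : ℝ) ^ 2 := by
    rw [hr]; ring
  have h9 : A1 / a2 * P * (2 * R) ^ 2 * C / (N : ℝ) ^ 2 < 1 := by
    rw [div_lt_one (by positivity)]
    refine hN.trans_le ?_
    have : (1 : ℝ) ≤ N := by exact_mod_cast hN0
    nlinarith
  linarith

/-- The eigenvalues are nondecreasing. (A subspace of dimension `k + 1` of a space of dimension
`k + 2`.) -/
theorem ev_mono (Γ : Type) [Group Γ] [MulAction Γ Pl] (D : Set Pl) (m : Pl → Co) :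
    Monotone (ev Γ D m) := by
  refine monotone_nat_of_le_succ fun k => ?_
  unfold ev
  refine le_iInf₂ fun c hc => ?_
  obtain ⟨V, hV, hVc⟩ := hc
  refine iInf₂_le c ?_
  have : FiniteDimensional ℝ V := Module.finite_of_finrank_pos (by omega)
  let b := Module.finBasisOfFinrankEq ℝ V hV
  have hli : LinearIndependent ℝ fun i : Fin (k + 1) => (b i.castSucc : Pl → ℝ) := by
    have h1 := b.linearIndependent.comp _ (Fin.castSucc_injective (k + 1))
    exact h1.map' V.subtype (Submodule.ker_subtype V)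
  refine ⟨Submodule.span ℝ (range fun i : Fin (k + 1) => (b i.castSucc : Pl → ℝ)), ?_, ?_⟩
  · rw [finrank_span_eq_card hli, Fintype.card_fin]
  · intro u hu
    refine hVc u ((Submodule.span_le.2 ?_) hu)
    rintro _ ⟨i, rfl⟩
    exact (b i.castSucc).2

end BGS
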