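import Mathlib
import Pool.Agent.LibBGS.Cmp
import Pool.Agent.LibBGS.Disc

/-! TASK STAT: the statistics at a level `T` that is not in the spectrum are continuous in the
metric. Prefix own names with `Stat_`. -/

open MeasureTheory Set Filter Topology
open scoped ContDiff ENNReal NNReal

namespace BGS

variable {Γ : Type} [Group Γ] [MulAction Γ Pl] {D : Set Pl}

theorem Stat_pi_ne_zero : ENNReal.ofReal (4 * Real.pi) ≠ 0 := by
  have : 0 < 4 * Real.pi := by positivity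
  simpa using this

theorem Stat_pi_ne_top : ENNReal.ofReal (4 * Real.pi) ≠ ⊤ := ENNReal.ofReal_ne_top

/-- Finitely many levels are at most `T`. -/
theorem finite_lvl (hX : Surface Γ D) (m : Mt Γ D) (T : ℝ) :
    {k : ℕ | lvl m k ≤ ENNReal.ofReal T}.Finite := by
  obtain ⟨k₀, hk₀⟩ := ev_large hX m (Real.toNNReal (T * (4 * Real.pi)) + 1)
  apply (finite_Iio k₀).subset
  intro k hk
  rw [mem_Iio]
  by_contra hc
  have h1 := hk₀ k (not_lt.1 hc)
  have h2 : ev Γ D m.1.1 k ≤ ENNReal.ofReal T * ENNReal.ofReal (4 * Real.pi) := by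
    have := (ENNReal.div_le_iff Stat_pi_ne_zero Stat_pi_ne_top).1 (show _ ≤ _ from hk)
    exact this
  have h3 : ENNReal.ofReal T * ENNReal.ofReal (4 * Real.pi) =
      ((Real.toNNReal (T * (4 * Real.pi)) : ℝ≥0) : ℝ≥0∞) := by
    rw [← ENNReal.ofReal_mul' (by positivity)]
    rfl
  rw [h3] at h2
  have h4 := h1.trans h2
  rw [ENNReal.coe_le_coe] at h4
  have : Real.toNNReal (T * (4 * Real.pi)) < Real.toNNReal (T * (4 * Real.pi)) + 1 :=
    lt_add_one _
  exact absurd h4 (not_le.2 this)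

theorem lvl_mono (m : Mt Γ D) : Monotone (lvl m) := by
  intro a b hab
  exact ENNReal.div_le_div_right (ev_mono Γ D m.1.1 hab) _

/-- Levels of nearby metrics are comparable, uniformly in the index. -/
theorem lvl_near (hX : Surface Γ D) (m : Mt Γ D) {η : ℝ≥0} (hη : 0 < η) :
    ∀ᶠ m' in 𝓝 m, ∀ k, lvl m' k ≤ (1 + η) * lvl m k ∧ lvl m k ≤ (1 + η) * lvl m' k := by
  filter_upwards [ev_near hX m hη] with m' hm' k
  constructor
  · unfold lvl
    rw [← mul_div_assoc]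
    exact ENNReal.div_le_div_right (hm' k).1 _
  · unfold lvl
    rw [← mul_div_assoc]
    exact ENNReal.div_le_div_right (hm' k).2 _

/-- Gap above `T` in the levels. -/
theorem Stat_gap (hX : Surface Γ D) (m : Mt Γ D) (T : ℝ) :
    ∃ ε > 0, ∀ k, lvl m k ≤ ENNReal.ofReal (T + ε) → lvl m k ≤ ENNReal.ofReal T := by
  have hfin := finite_lvl hX m (T + 1)
  -- among the finitely many levels in `(T, T + 1]` take the smallest
  by_cases hne : ∃ k, lvl m k ≤ ENNReal.ofReal (T + 1) ∧ ¬ lvl m k ≤ ENNReal.ofReal T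
  · have hfin2 : {k | lvl m k ≤ ENNReal.ofReal (T + 1) ∧ ¬ lvl m k ≤ ENNReal.ofReal T}.Finite :=
      hfin.subset fun k hk => hk.1
    obtain ⟨k₁, hk₁, hmin⟩ := hfin2.exists_minimalFor (lvl m) _ hne
    have hmin' : ∀ k, lvl m k ≤ ENNReal.ofReal (T + 1) → ¬ lvl m k ≤ ENNReal.ofReal T →
        lvl m k₁ ≤ lvl m k := by
      intro k hk hk'
      rcases le_total (lvl m k₁) (lvl m k) with h | h
      · exact h
      · exact hmin ⟨hk, hk'⟩ h
    have hlt : ENNReal.ofReal T < lvl m k₁ := not_le.1 hk₁.2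
    have hk₁top : lvl m k₁ ≠ ⊤ := ne_top_of_le_ne_top ENNReal.ofReal_ne_top hk₁.1
    have hTlt : T < (lvl m k₁).toReal := by
      by_contra hc
      have := ENNReal.ofReal_le_ofReal (not_lt.1 hc)
      rw [ENNReal.ofReal_toReal hk₁top] at this
      exact absurd hlt (not_lt.2 this)
    refine ⟨min 1 (((lvl m k₁).toReal - T) / 2), lt_min one_pos (by linarith), ?_⟩
    intro k hk
    by_contra hc
    have h1 : lvl m k ≤ ENNReal.ofReal (T + 1) :=
      hk.trans (ENNReal.ofReal_le_ofReal (by gcongr; exact min_le_left _ _))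
    have h2 := (hmin' k h1 hc).trans hk
    have h3 := ENNReal.toReal_mono ENNReal.ofReal_ne_top h2
    have h4 : (0 : ℝ) < T + min 1 (((lvl m k₁).toReal - T) / 2) := by
      by_contra hneg
      rw [ENNReal.ofReal_of_nonpos (not_lt.1 hneg)] at h2
      have : lvl m k₁ = 0 := le_antisymm h2 zero_le
      rw [this] at hlt
      exact not_lt_zero hlt
    rw [ENNReal.toReal_ofReal h4.le] at h3
    have h5 := min_le_right (1 : ℝ) (((lvl m k₁).toReal - T) / 2)
    linarith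
  · refine ⟨1, one_pos, fun k hk => ?_⟩
    by_contra hc
    exact hne ⟨k, hk, hc⟩

theorem Stat_eta {a b : ℝ≥0∞} (h : a < b) : ∃ η : ℝ≥0, 0 < η ∧ (1 + η) * a ≤ b := by
  have ha : a ≠ ⊤ := ne_top_of_lt h
  rcases eq_or_ne b ⊤ with rfl | hb
  · exact ⟨1, one_pos, le_top⟩
  lift a to ℝ≥0 using ha
  lift b to ℝ≥0 using hb
  rw [ENNReal.coe_lt_coe] at h
  rcases eq_or_ne a 0 with rfl | ha0
  · exact ⟨1, one_pos, by simp⟩
  · have ha' : 0 < a := pos_iff_ne_zero.2 ha0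
    refine ⟨(b - a) / a, div_pos (tsub_pos_of_lt h) ha', ?_⟩
    have : (1 + (b - a) / a) * a = b := by
      rw [add_mul, one_mul, div_mul_cancel₀ _ ha0, add_tsub_cancel_of_le h.le]
    have h2 : ((1 + ((b - a) / a : ℝ≥0) : ℝ≥0∞)) * a = b := by
      exact_mod_cast congrArg ((↑) : ℝ≥0 → ℝ≥0∞) this
    exact h2.le

/-- If no level of `m` equals `T`, the set of levels at most `T` is locally constant. -/
theorem near_index (hX : Surface Γ D) (m : Mt Γ D) {T : ℝ} (hT : 0 < T)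
    (hs : ∀ k, lvl m k ≠ ENNReal.ofReal T) :
    ∀ᶠ m' in 𝓝 m, ∀ k, lvl m' k ≤ ENNReal.ofReal T ↔ lvl m k ≤ ENNReal.ofReal T := by
  have hfin := finite_lvl hX m T
  have h1 : ∀ᶠ m' in 𝓝 m, ∀ k ∈ {k : ℕ | lvl m k ≤ ENNReal.ofReal T},
      lvl m' k ≤ ENNReal.ofReal T := by
    rw [eventually_all_finite hfin]
    intro k hk
    obtain ⟨η, hη, hle⟩ := Stat_eta (lt_of_le_of_ne hk (hs k))
    filter_upwards [lvl_near hX m hη] with m' hm'
    exact (hm' k).1.trans hle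
  obtain ⟨ε, hε, hgap⟩ := Stat_gap hX m T
  obtain ⟨η, hη, hle⟩ := Stat_eta (show ENNReal.ofReal T < ENNReal.ofReal (T + ε) from
    (ENNReal.ofReal_lt_ofReal_iff (by linarith)).2 (by linarith))
  filter_upwards [h1, lvl_near hX m hη] with m' hm1 hm2 k
  refine ⟨fun h => hgap k ?_, fun h => hm1 k h⟩
  calc lvl m k ≤ (1 + η) * lvl m' k := (hm2 k).2
    _ ≤ (1 + η) * ENNReal.ofReal T := by gcongr
    _ ≤ _ := hle

/-- A finite level depends continuously on the metric. -/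
theorem tendsto_x (hX : Surface Γ D) (m : Mt Γ D) {k : ℕ} (hk : lvl m k ≠ ⊤) :
    Tendsto (fun m' : Mt Γ D => x m' k) (𝓝 m) (𝓝 (x m k)) := by
  rw [Metric.tendsto_nhds]
  intro δ hδ
  have hx0 : 0 ≤ x m k := ENNReal.toReal_nonneg
  set η : ℝ≥0 := min 1 (Real.toNNReal (δ / (4 * (x m k + 1)))) with hη
  have hpos : 0 < η := by
    apply lt_min one_pos
    rw [Real.toNNReal_pos]
    positivity
  have hη1 : (η : ℝ) ≤ 1 := by
    have : η ≤ 1 := min_le_left _ _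
    exact_mod_cast this
  have hη2 : (η : ℝ) ≤ δ / (4 * (x m k + 1)) := by
    have h1 : η ≤ Real.toNNReal (δ / (4 * (x m k + 1))) := min_le_right _ _
    have h2 : (η : ℝ) ≤ (Real.toNNReal (δ / (4 * (x m k + 1))) : ℝ) := by exact_mod_cast h1
    rwa [Real.coe_toNNReal _ (by positivity)] at h2
  filter_upwards [lvl_near hX m hpos] with m' hm'
  obtain ⟨h1, h2⟩ := hm' k
  have hk' : lvl m' k ≠ ⊤ := by
    apply ne_top_of_le_ne_top _ h1
    exact ENNReal.mul_ne_top (by simp) hk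
  have h1' : x m' k ≤ (1 + η) * x m k := by
    have := ENNReal.toReal_mono (ENNReal.mul_ne_top (by simp) hk) h1
    rw [ENNReal.toReal_mul] at this
    simpa [x, ENNReal.toReal_add] using this
  have h2' : x m k ≤ (1 + η) * x m' k := by
    have := ENNReal.toReal_mono (ENNReal.mul_ne_top (by simp) hk') h2
    rw [ENNReal.toReal_mul] at this
    simpa [x, ENNReal.toReal_add] using this
  have hx' : 0 ≤ x m' k := ENNReal.toReal_nonneg
  have h3 : (η : ℝ) * (4 * (x m k + 1)) ≤ δ := by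
    rw [le_div_iff₀ (by positivity)] at hη2
    exact hη2
  have hη0 : (0 : ℝ) ≤ η := η.2
  have h4 : (η : ℝ) * x m' k ≤ (η : ℝ) * (2 * x m k) := by
    apply mul_le_mul_of_nonneg_left _ hη0
    nlinarith
  rw [Real.dist_eq, abs_lt]
  have h5 : 0 < (η : ℝ) := by exact_mod_cast hpos
  constructor <;> nlinarith

/-- For every `T > 0` there are `T' > T` arbitrarily close to `T` such that no level of `m` lies
in `(T, T']` and `T'` is not a level. -/
theorem exists_gap (hX : Surface Γ D) (m : Mt Γ D) {T : ℝ} (hT : 0 < T) :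
    ∃ ε > 0, ∀ T' : ℝ, T < T' → T' < T + ε → ∀ k,
      (lvl m k ≤ ENNReal.ofReal T' ↔ lvl m k ≤ ENNReal.ofReal T) ∧
      lvl m k ≠ ENNReal.ofReal T' := by
  obtain ⟨ε, hε, hgap⟩ := Stat_gap hX m T
  refine ⟨ε, hε, fun T' h1 h2 k => ⟨⟨fun h => hgap k (h.trans (ENNReal.ofReal_le_ofReal h2.le)),
    fun h => h.trans (ENNReal.ofReal_le_ofReal h1.le)⟩, fun h => ?_⟩⟩
  have h3 := hgap k (h.le.trans (ENNReal.ofReal_le_ofReal h2.le))
  rw [h, ENNReal.ofReal_le_ofReal_iff hT.le] at h3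
  linarith

/-- The correlation sum over an index set. -/
noncomputable def Stat_sum (p : ℕ) (f : (Fin (p + 1) → ℝ) → ℝ) (m : Mt Γ D) (I : Set ℕ) : ℝ :=
  ∑ᶠ j : {j : Fin (p + 2) → ℕ // Function.Injective j ∧ ∀ i, j i ∈ I},
    f fun i => x m (j.1 i.succ) - x m (j.1 0)

theorem Stat_corr (p : ℕ) (f : (Fin (p + 1) → ℝ) → ℝ) (m : Mt Γ D) (T : ℝ) :
    corr p f m T = (1 / T) * Stat_sum p f m {k | lvl m k ≤ ENNReal.ofReal T} := rfl

theorem Stat_finite (p : ℕ) {I : Set ℕ} (hI : I.Finite) :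
    Finite {j : Fin (p + 2) → ℕ // Function.Injective j ∧ ∀ i, j i ∈ I} := by
  have h1 : (Set.pi univ fun _ : Fin (p + 2) => I).Finite := Set.Finite.pi fun _ => hI
  exact (h1.subset (fun j hj => by
    rw [mem_univ_pi]
    exact hj.2) : {j : Fin (p + 2) → ℕ | Function.Injective j ∧ ∀ i, j i ∈ I}.Finite).to_subtype

theorem Stat_sum_tendsto (hX : Surface Γ D) (p : ℕ) {f : (Fin (p + 1) → ℝ) → ℝ}
    (hf : Continuous f) (m : Mt Γ D) {I : Set ℕ} (hI : I.Finite) (hI2 : ∀ k ∈ I, lvl m k ≠ ⊤) :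
    Tendsto (fun m' : Mt Γ D => Stat_sum p f m' I) (𝓝 m) (𝓝 (Stat_sum p f m I)) := by
  have := Stat_finite p hI
  have := Fintype.ofFinite {j : Fin (p + 2) → ℕ // Function.Injective j ∧ ∀ i, j i ∈ I}
  simp only [Stat_sum, finsum_eq_sum_of_fintype]
  apply tendsto_finsetSum
  intro j _
  apply (hf.tendsto _).comp
  rw [tendsto_pi_nhds]
  intro i
  exact (tendsto_x hX m (hI2 _ (j.2.2 _))).sub (tendsto_x hX m (hI2 _ (j.2.2 _)))

theorem Stat_pick {T S : ℝ} (hT : 0 < T) {U : Set ℝ} (hU : IsOpen U) (h : (1 / T) * S ∈ U)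
    {ε : ℝ} (hε : 0 < ε) : ∃ T', T < T' ∧ T' < T + ε ∧ (1 / T') * S ∈ U := by
  have hc : ContinuousAt (fun t : ℝ => (1 / t) * S) T := by
    have : T ≠ 0 := hT.ne'
    fun_prop (disch := assumption)
  have h1 : ∀ᶠ t in 𝓝 T, (1 / t) * S ∈ U := hc.eventually (hU.mem_nhds h)
  have h2 : ∀ᶠ t in 𝓝[>] T, (1 / t) * S ∈ U := h1.filter_mono nhdsWithin_le_nhds
  have h3 : ∀ᶠ t in 𝓝[>] T, t ∈ Ioo T (T + ε) := Ioo_mem_nhdsGT (by linarith)
  obtain ⟨t, ht1, ht2⟩ := (h2.and h3).exists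
  exact ⟨t, ht2.1, ht2.2, ht1⟩

/-- Property (P) for the correlation sums. -/
theorem corr_near (hX : Surface Γ D) (p : ℕ) {f : (Fin (p + 1) → ℝ) → ℝ} (hf : Continuous f)
    (m : Mt Γ D) {T : ℝ} (hT : 0 < T) {U : Set ℝ} (hU : IsOpen U) (h : corr p f m T ∈ U) :
    ∃ T', T ≤ T' ∧ ∀ᶠ m' in 𝓝 m, corr p f m' T' ∈ U := by
  obtain ⟨ε, hε, hgap⟩ := exists_gap hX m hT
  rw [Stat_corr] at h
  obtain ⟨T', h1, h2, h3⟩ := Stat_pick hT hU h hε
  have hT' : 0 < T' := hT.trans h1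
  refine ⟨T', h1.le, ?_⟩
  set I : Set ℕ := {k | lvl m k ≤ ENNReal.ofReal T} with hI
  have hIT' : I = {k | lvl m k ≤ ENNReal.ofReal T'} := by
    ext k
    exact ((hgap T' h1 h2 k).1).symm
  have hIfin : I.Finite := finite_lvl hX m T
  have hlim := (Stat_sum_tendsto hX p hf m hIfin (fun k hk =>
    ne_top_of_le_ne_top ENNReal.ofReal_ne_top hk)).const_mul (1 / T')
  have hev := hlim.eventually (hU.mem_nhds h3)
  filter_upwards [hev, near_index hX m hT' (fun k => (hgap T' h1 h2 k).2)] with m' hm1 hm2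
  rw [Stat_corr]
  have : {k | lvl m' k ≤ ENNReal.ofReal T'} = I := by
    rw [hIT']
    ext k
    exact hm2 k
  rw [this]
  exact hm1

/-- The spacing sum over an index set. -/
noncomputable def Stat_sum2 (f : ℝ → ℝ) (m : Mt Γ D) (I : Set ℕ) : ℝ :=
  ∑ᶠ k : {k : ℕ // k + 1 ∈ I}, f (x m (k.1 + 1) - x m k.1)

theorem Stat_spac (f : ℝ → ℝ) (m : Mt Γ D) (T : ℝ) :
    spac f m T = (1 / T) * Stat_sum2 f m {k | lvl m k ≤ ENNReal.ofReal T} := rfl

theorem Stat_finite2 {I : Set ℕ} (hI : I.Finite) : Finite {k : ℕ // k + 1 ∈ I} := by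
  have h1 : {k : ℕ | k + 1 ∈ I}.Finite :=
    hI.preimage (f := fun k : ℕ => k + 1) (fun a _ b _ hab => by simpa using hab)
  exact h1.to_subtype

theorem Stat_sum2_tendsto (hX : Surface Γ D) {f : ℝ → ℝ}
    (hf : Continuous f) (m : Mt Γ D) {I : Set ℕ} (hI : I.Finite) (hI2 : ∀ k ∈ I, lvl m k ≠ ⊤) :
    Tendsto (fun m' : Mt Γ D => Stat_sum2 f m' I) (𝓝 m) (𝓝 (Stat_sum2 f m I)) := by
  have := Stat_finite2 hI
  have := Fintype.ofFinite {k : ℕ // k + 1 ∈ I}
  simp only [Stat_sum2, finsum_eq_sum_of_fintype]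
  apply tendsto_finsetSum
  intro j _
  apply (hf.tendsto _).comp
  have h1 : lvl m (j.1 + 1) ≠ ⊤ := hI2 _ j.2
  have h2 : lvl m j.1 ≠ ⊤ := ne_top_of_le_ne_top h1 (lvl_mono m (Nat.le_succ _))
  exact (tendsto_x hX m h1).sub (tendsto_x hX m h2)

/-- Property (P) for the spacing sums. -/
theorem spac_near (hX : Surface Γ D) {f : ℝ → ℝ} (hf : Continuous f)
    (m : Mt Γ D) {T : ℝ} (hT : 0 < T) {U : Set ℝ} (hU : IsOpen U) (h : spac f m T ∈ U) :
    ∃ T', T ≤ T' ∧ ∀ᶠ m' in 𝓝 m, spac f m' T' ∈ U := by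
  obtain ⟨ε, hε, hgap⟩ := exists_gap hX m hT
  rw [Stat_spac] at h
  obtain ⟨T', h1, h2, h3⟩ := Stat_pick hT hU h hε
  have hT' : 0 < T' := hT.trans h1
  refine ⟨T', h1.le, ?_⟩
  set I : Set ℕ := {k | lvl m k ≤ ENNReal.ofReal T} with hI
  have hIT' : I = {k | lvl m k ≤ ENNReal.ofReal T'} := by
    ext k
    exact ((hgap T' h1 h2 k).1).symm
  have hIfin : I.Finite := finite_lvl hX m T
  have hlim := (Stat_sum2_tendsto hX hf m hIfin (fun k hk =>
    ne_top_of_le_ne_top ENNReal.ofReal_ne_top hk)).const_mul (1 / T')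
  have hev := hlim.eventually (hU.mem_nhds h3)
  filter_upwards [hev, near_index hX m hT' (fun k => (hgap T' h1 h2 k).2)] with m' hm1 hm2
  rw [Stat_spac]
  have : {k | lvl m' k ≤ ENNReal.ofReal T'} = I := by
    rw [hIT']
    ext k
    exact hm2 k
  rw [this]
  exact hm1

theorem Stat_fin_le {ι : Type} [Finite ι] {a b c : ι → ℝ} {ε T : ℝ} (hT : 0 < T)
    (h : ∀ i, |a i - b i| ≤ ε * c i) :
    |(1 / T) * (∑ᶠ i, a i) - (1 / T) * (∑ᶠ i, b i)| ≤ ε * ((1 / T) * ∑ᶠ i, c i) := by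
  have := Fintype.ofFinite ι
  simp only [finsum_eq_sum_of_fintype]
  rw [← mul_sub, abs_mul, abs_of_pos (by positivity : (0 : ℝ) < 1 / T), ← Finset.sum_sub_distrib]
  calc 1 / T * |∑ i, (a i - b i)| ≤ 1 / T * ∑ i, |a i - b i| := by
        gcongr
        exact Finset.abs_sum_le_sum_abs _ _
    _ ≤ 1 / T * ∑ i, ε * c i := by
        gcongr with i
        exact h i
    _ = ε * (1 / T * ∑ i, c i) := by
        rw [← Finset.mul_sum]
        ring

/-- Comparison of two correlation sums. -/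
theorem corr_sub_le (hX : Surface Γ D) (p : ℕ) {f h χ : (Fin (p + 1) → ℝ) → ℝ} {ε : ℝ}
    (hle : ∀ y, |f y - h y| ≤ ε * χ y) (m : Mt Γ D) {T : ℝ} (hT : 0 < T) :
    |corr p f m T - corr p h m T| ≤ ε * corr p χ m T := by
  have : Finite {j : Fin (p + 2) → ℕ //
      Function.Injective j ∧ ∀ i, lvl m (j i) ≤ ENNReal.ofReal T} :=
    Stat_finite p (finite_lvl hX m T)
  exact Stat_fin_le hT (fun j => hle _)

/-- Comparison of two spacing sums. -/
theorem spac_sub_le (hX : Surface Γ D) {f h χ : ℝ → ℝ} {ε : ℝ}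
    (hle : ∀ y, |f y - h y| ≤ ε * χ y) (m : Mt Γ D) {T : ℝ} (hT : 0 < T) :
    |spac f m T - spac h m T| ≤ ε * spac χ m T := by
  have : Finite {k : ℕ // lvl m (k + 1) ≤ ENNReal.ofReal T} :=
    Stat_finite2 (finite_lvl hX m T)
  exact Stat_fin_le hT (fun j => hle _)

end BGS
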