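import Mathlib
import Pool.Agent.LibBGS.Defs

/-! TASK JET: the space of smooth maps is completely metrizable. Prefix own names with
`Jet_`. -/

open MeasureTheory Set Filter Topology
open scoped ContDiff ENNReal NNReal

namespace BGS

theorem jet_injective : Function.Injective jet := by
  intro a b hab
  apply Subtype.ext
  funext z
  have h1 : jet a 0 z = jet b 0 z := by rw [hab]
  have h2 : iteratedFDeriv ℝ 0 a.1 z 0 = iteratedFDeriv ℝ 0 b.1 z 0 := by
    have : iteratedFDeriv ℝ 0 a.1 z = iteratedFDeriv ℝ 0 b.1 z := h1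
    rw [this]
  simpa using h2

theorem Jet_series {ι : Type} (l : Filter ι) [NeBot l] (u : ι → Sm)
    (h : ∀ k, C(Pl, Pl [×k]→L[ℝ] Co)) (hl : Tendsto (fun i => jet (u i)) l (𝓝 h)) :
    HasFTaylorSeriesUpTo ∞ (fun z => (h 0 z).curry0) (fun z k => h k z) := by
  have hk : ∀ k, TendstoLocallyUniformly (fun i z => jet (u i) k z) (h k) l := by
    intro k
    rw [← ContinuousMap.tendsto_iff_tendstoLocallyUniformly]
    exact (tendsto_pi_nhds.1 hl) k
  refine ⟨fun z => rfl, ?_, fun k _ => (h k).continuous⟩
  intro k _ z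
  have h1 : TendstoLocallyUniformlyOn
      (fun i z => (jet (u i) (k + 1) z).curryLeft) (fun z => (h (k + 1) z).curryLeft) l univ := by
    rw [tendstoLocallyUniformlyOn_univ]
    have h2 := (hk (k + 1))
    have h3 : UniformContinuous (continuousMultilinearCurryLeftEquiv ℝ
        (fun _ : Fin (k + 1) => Pl) Co) := (continuousMultilinearCurryLeftEquiv ℝ
        (fun _ : Fin (k + 1) => Pl) Co).isometry.uniformContinuous
    exact h3.comp_tendstoLocallyUniformly h2
  refine hasFDerivAt_of_tendstoLocallyUniformlyOn (𝕜 := ℝ) isOpen_univ h1 (f := fun i z =>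
    jet (u i) k z) ?_ ?_ (mem_univ z)
  · intro i w _
    have h4 := contDiff_iff_ftaylorSeries.1 (u i).2
    exact h4.fderiv k (by exact_mod_cast ENat.natCast_lt_top k) w
  · intro w _
    exact ((hk k).tendstoLocallyUniformlyOn (s := univ)).tendsto_at (mem_univ w)

/-- A sequence of jets that converges has as limit a jet (limits of derivatives:
`hasFDerivAt_of_tendstoLocallyUniformlyOn`). The target is first countable, so sequences
suffice. -/
theorem isClosed_range_jet : IsClosed (range jet) := by
  rw [← closure_subset_iff_isClosed]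
  intro h hh
  have hne : NeBot (comap jet (𝓝 h)) := by
    rw [comap_neBot_iff]
    intro t ht
    obtain ⟨y, hy, ⟨a, rfl⟩⟩ := mem_closure_iff_nhds.1 hh t ht
    exact ⟨a, hy⟩
  have hs := Jet_series (comap jet (𝓝 h)) id h tendsto_comap
  have hc : ContDiff ℝ ∞ (fun z => (h 0 z).curry0) := hs.contDiff
  refine ⟨⟨_, hc⟩, ?_⟩
  funext k
  ext1 z
  exact (hs.eq_iteratedFDeriv (by exact_mod_cast le_top) z).symm

theorem isClosedEmbedding_jet : IsClosedEmbedding jet :=
  ⟨⟨⟨rfl⟩, jet_injective⟩, isClosed_range_jet⟩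

instance completelyMetrizable_Sm : TopologicalSpace.IsCompletelyMetrizableSpace Sm := by
  have h : ∀ k : ℕ, TopologicalSpace.IsCompletelyMetrizableSpace C(Pl, Pl [×k]→L[ℝ] Co) :=
    fun k => @TopologicalSpace.IsCompletelyMetrizableSpace.of_completeSpace_metrizable
      C(Pl, Pl [×k]→L[ℝ] Co) ContinuousMap.compactConvergenceUniformSpace _ _ _
  exact isClosedEmbedding_jet.IsCompletelyMetrizableSpace

end BGS
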