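import Mathlib
import Pool.Agent.LibBGS.Jet
import Pool.Agent.LibBGS.Cmp

/-! TASK BAIRE: the space of metrics is a Baire space. Prefix own names with `Baire_`. -/

open MeasureTheory Set Filter Topology
open scoped ContDiff ENNReal NNReal

namespace BGS

variable {Γ : Type} [Group Γ] [MulAction Γ Pl] {D : Set Pl}

/-- First derivatives of a component, read off from the jet. -/
theorem Baire_d1 (L : Co →L[ℝ] ℝ) (m : Sm) (z v : Pl) :
    fderiv ℝ (fun w => L (m.1 w)) z v = L (jet m 1 z ![v]) := by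
  have h1 : HasFDerivAt m.1 (fderiv ℝ m.1 z) z := (m.2.differentiable (by simp) z).hasFDerivAt
  have h2 : HasFDerivAt (fun w => L (m.1 w)) (L.comp (fderiv ℝ m.1 z)) z :=
    L.hasFDerivAt.comp z h1
  rw [h2.fderiv]
  have h3 : jet m 1 z ![v] = iteratedFDeriv ℝ 1 m.1 z ![v] := rfl
  rw [h3, iteratedFDeriv_one_apply]
  rfl

/-- Second derivatives of a component, read off from the jet. -/
theorem Baire_d2 (L : Co →L[ℝ] ℝ) (m : Sm) (z v v' : Pl) :
    fderiv ℝ (fun w => fderiv ℝ (fun w => L (m.1 w)) w v) z v' = L (jet m 2 z ![v', v]) := by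
  have h0 : (fun w => fderiv ℝ (fun w => L (m.1 w)) w v) = fun w => L (fderiv ℝ m.1 w v) := by
    funext w
    have h1 : HasFDerivAt m.1 (fderiv ℝ m.1 w) w := (m.2.differentiable (by simp) w).hasFDerivAt
    have h2 : HasFDerivAt (fun w => L (m.1 w)) (L.comp (fderiv ℝ m.1 w)) w :=
      L.hasFDerivAt.comp w h1
    rw [h2.fderiv]
    rfl
  have hd : Differentiable ℝ (fderiv ℝ m.1) :=
    ((contDiff_infty_iff_fderiv.1 m.2).2).differentiable (by simp)
  have h3 : HasFDerivAt (fderiv ℝ m.1) (fderiv ℝ (fderiv ℝ m.1) z) z := (hd z).hasFDerivAt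
  have h4 : HasFDerivAt (fun w => fderiv ℝ m.1 w v)
      ((ContinuousLinearMap.apply ℝ Co v).comp (fderiv ℝ (fderiv ℝ m.1) z)) z :=
    (ContinuousLinearMap.apply ℝ Co v).hasFDerivAt.comp z h3
  have h5 : HasFDerivAt (fun w => L (fderiv ℝ m.1 w v))
      (L.comp ((ContinuousLinearMap.apply ℝ Co v).comp (fderiv ℝ (fderiv ℝ m.1) z))) z :=
    L.hasFDerivAt.comp z h4
  rw [h0, h5.fderiv]
  have h6 : jet m 2 z ![v', v] = iteratedFDeriv ℝ 2 m.1 z ![v', v] := rfl
  rw [h6, iteratedFDeriv_two_apply]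
  rfl

/-- The numerator of the curvature, in terms of the jet. -/
noncomputable def Baire_num (m : Sm) (z : Pl) : ℝ :=
  Matrix.det !![-(jet m 2 z ![((0 : ℝ), (1 : ℝ)), (0, 1)]).1 / 2 +
        (jet m 2 z ![((0 : ℝ), (1 : ℝ)), (1, 0)]).2.1 -
        (jet m 2 z ![((1 : ℝ), (0 : ℝ)), (1, 0)]).2.2 / 2,
        (jet m 1 z ![((1 : ℝ), (0 : ℝ))]).1 / 2,
        (jet m 1 z ![((1 : ℝ), (0 : ℝ))]).2.1 - (jet m 1 z ![((0 : ℝ), (1 : ℝ))]).1 / 2;
      (jet m 1 z ![((0 : ℝ), (1 : ℝ))]).2.1 - (jet m 1 z ![((1 : ℝ), (0 : ℝ))]).2.2 / 2,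
        (m.1 z).1, (m.1 z).2.1;
      (jet m 1 z ![((0 : ℝ), (1 : ℝ))]).2.2 / 2, (m.1 z).2.1, (m.1 z).2.2]
    - Matrix.det !![0, (jet m 1 z ![((0 : ℝ), (1 : ℝ))]).1 / 2,
        (jet m 1 z ![((1 : ℝ), (0 : ℝ))]).2.2 / 2;
      (jet m 1 z ![((0 : ℝ), (1 : ℝ))]).1 / 2, (m.1 z).1, (m.1 z).2.1;
      (jet m 1 z ![((1 : ℝ), (0 : ℝ))]).2.2 / 2, (m.1 z).2.1, (m.1 z).2.2]

theorem Baire_curv (m : Sm) (z : Pl) : curv m.1 z = Baire_num m z / dt (m.1 z) ^ 2 := by
  have hE1 : ∀ v, fderiv ℝ (fun w => (m.1 w).1) z v = (jet m 1 z ![v]).1 := fun v =>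
    Baire_d1 (ContinuousLinearMap.fst ℝ ℝ (ℝ × ℝ)) m z v
  have hF1 : ∀ v, fderiv ℝ (fun w => (m.1 w).2.1) z v = (jet m 1 z ![v]).2.1 := fun v =>
    Baire_d1 ((ContinuousLinearMap.fst ℝ ℝ ℝ).comp (ContinuousLinearMap.snd ℝ ℝ (ℝ × ℝ))) m z v
  have hG1 : ∀ v, fderiv ℝ (fun w => (m.1 w).2.2) z v = (jet m 1 z ![v]).2.2 := fun v =>
    Baire_d1 ((ContinuousLinearMap.snd ℝ ℝ ℝ).comp (ContinuousLinearMap.snd ℝ ℝ (ℝ × ℝ))) m z v
  have hE2 : ∀ v v', fderiv ℝ (fun w => fderiv ℝ (fun w => (m.1 w).1) w v) z v' =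
      (jet m 2 z ![v', v]).1 := fun v v' =>
    Baire_d2 (ContinuousLinearMap.fst ℝ ℝ (ℝ × ℝ)) m z v v'
  have hF2 : ∀ v v', fderiv ℝ (fun w => fderiv ℝ (fun w => (m.1 w).2.1) w v) z v' =
      (jet m 2 z ![v', v]).2.1 := fun v v' =>
    Baire_d2 ((ContinuousLinearMap.fst ℝ ℝ ℝ).comp (ContinuousLinearMap.snd ℝ ℝ (ℝ × ℝ)))
      m z v v'
  have hG2 : ∀ v v', fderiv ℝ (fun w => fderiv ℝ (fun w => (m.1 w).2.2) w v) z v' =
      (jet m 2 z ![v', v]).2.2 := fun v v' =>
    Baire_d2 ((ContinuousLinearMap.snd ℝ ℝ ℝ).comp (ContinuousLinearMap.snd ℝ ℝ (ℝ × ℝ)))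
      m z v v'
  unfold curv Baire_num
  simp only [dx, dy]
  unfold dx dy
  simp only [hE1, hF1, hG1, hE2, hF2, hG2]

theorem Baire_apply {k : ℕ} (v : Fin k → Pl) :
    Continuous fun q : Sm × Pl => jet q.1 k q.2 v := by
  have h1 := Cmp_jet k
  exact (ContinuousMultilinearMap.apply ℝ (fun _ : Fin k => Pl) Co v).continuous.comp h1

theorem Baire_num_cont : Continuous fun q : Sm × Pl => Baire_num q.1 q.2 := by
  have he := continuous_eval
  have h1 := Baire_apply ![((1 : ℝ), (0 : ℝ))]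
  have h2 := Baire_apply ![((0 : ℝ), (1 : ℝ))]
  have h3 := Baire_apply ![((0 : ℝ), (1 : ℝ)), (0, 1)]
  have h4 := Baire_apply ![((0 : ℝ), (1 : ℝ)), (1, 0)]
  have h5 := Baire_apply ![((1 : ℝ), (0 : ℝ)), (1, 0)]
  unfold Baire_num
  simp only [Matrix.det_fin_three, Matrix.of_apply, Matrix.cons_val]
  fun_prop

/-- The set of metrics and points with positive determinant and negative curvature. -/
def Baire_O : Set (Sm × Pl) :=
  {q | 0 < (q.1.1 q.2).1 ∧ 0 < dt (q.1.1 q.2) ∧ Baire_num q.1 q.2 < 0}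

theorem Baire_O_open : IsOpen Baire_O := by
  have he := continuous_eval
  refine (isOpen_lt continuous_const (continuous_fst.comp he)).inter
    ((isOpen_lt continuous_const (Cmp_dt_cont.comp he)).inter
      (isOpen_lt Baire_num_cont continuous_const))

theorem Baire_O_iff (m : Sm) (z : Pl) :
    (m, z) ∈ Baire_O ↔ 0 < (m.1 z).1 ∧ 0 < dt (m.1 z) ∧ curv m.1 z < 0 := by
  constructor
  · rintro ⟨h1, h2, h3⟩
    refine ⟨h1, h2, ?_⟩
    rw [Baire_curv]
    have h2' : 0 < dt (m.1 z) := h2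
    exact div_neg_of_neg_of_pos h3 (by positivity)
  · rintro ⟨h1, h2, h3⟩
    refine ⟨h1, h2, ?_⟩
    rw [Baire_curv] at h3
    have h4 : 0 < dt (m.1 z) ^ 2 := by positivity
    exact (div_neg_iff.1 h3).elim (fun h => absurd h.2 (not_lt.2 h4.le)) (fun h => h.1)

/-- Metrics with positive determinant and negative curvature on a compact set form an open set. -/
theorem isOpen_neg (K : Set Pl) (hK : IsCompact K) :
    IsOpen {m : Sm | ∀ z ∈ K, 0 < (m.1 z).1 ∧ 0 < dt (m.1 z) ∧ curv m.1 z < 0} := by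
  rw [isOpen_iff_mem_nhds]
  intro m hm
  have h1 : ∀ᶠ m' in 𝓝 m, ∀ z ∈ K, (m', z) ∈ Baire_O := by
    apply hK.eventually_forall_of_forall_eventually
    intro z hz
    exact Baire_O_open.mem_nhds ((Baire_O_iff m z).2 (hm z hz))
  filter_upwards [h1] with m' hm' z hz
  exact (Baire_O_iff m' z).1 (hm' z hz)

theorem Baire_eval (z : Pl) : Continuous fun m : Sm => m.1 z :=
  continuous_eval.comp (continuous_id.prodMk continuous_const)

theorem isClosed_inv (hX : Surface Γ D) :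
    IsClosed {m : Sm | ∀ (γ : Γ) (z v : Pl),
      qf (m.1 (γ • z)) (fderiv ℝ (fun w : Pl => γ • w) z v) = qf (m.1 z) v} := by
  have h : {m : Sm | ∀ (γ : Γ) (z v : Pl),
      qf (m.1 (γ • z)) (fderiv ℝ (fun w : Pl => γ • w) z v) = qf (m.1 z) v} =
      ⋂ (γ : Γ), ⋂ (z : Pl), ⋂ (v : Pl), {m : Sm |
        qf (m.1 (γ • z)) (fderiv ℝ (fun w : Pl => γ • w) z v) = qf (m.1 z) v} := by
    ext m
    simp
  rw [h]
  refine isClosed_iInter fun γ => isClosed_iInter fun z => isClosed_iInter fun v => ?_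
  have h1 := Baire_eval (γ • z)
  have h2 := Baire_eval z
  have hq : ∀ w : Pl, Continuous fun c : Co => qf c w := by
    intro w
    unfold qf
    fun_prop
  exact isClosed_eq ((hq _).comp h1) ((hq _).comp h2)

/-- The area depends continuously on the coefficients (`D` is bounded; `√` is zero on negative
numbers). -/
theorem isClosed_area (hX : Surface Γ D) :
    IsClosed {m : Sm | ∫ z in D, √(dt (m.1 z)) = 1} := by
  apply isClosed_eq _ continuous_const
  rw [continuous_iff_continuousAt]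
  intro m
  have hc : ∀ m : Sm, Continuous fun z => √(dt (m.1 z)) := fun m =>
    Real.continuous_sqrt.comp (Cmp_dt_cont.comp m.2.continuous)
  have hj : Continuous fun q : Sm × Pl => √(dt (q.1.1 q.2)) :=
    Real.continuous_sqrt.comp (Cmp_dt_cont.comp continuous_eval)
  have h1 : ∀ᶠ m' in 𝓝 m, ∀ z ∈ closure D, √(dt (m'.1 z)) ≤ √(dt (m.1 z)) + 1 := by
    apply (Cmp_compact hX).eventually_forall_of_forall_eventually
    intro z _
    have h2 : ContinuousAt (fun q : Sm × Pl => √(dt (q.1.1 q.2))) (m, z) := hj.continuousAt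
    have h3 : ContinuousAt (fun q : Sm × Pl => √(dt (m.1 q.2)) + 1) (m, z) :=
      (((hc m).comp continuous_snd).add continuous_const).continuousAt
    have h4 := h2.eventually_lt h3 (by simp)
    filter_upwards [h4] with q hq
    exact hq.le
  apply continuousAt_of_dominated (bound := fun z => √(dt (m.1 z)) + 1)
  · exact Eventually.of_forall fun m' => (hc m').aestronglyMeasurable
  · filter_upwards [h1] with m' hm'
    rw [ae_restrict_iff' hX.meas]
    refine ae_of_all _ fun z hz => ?_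
    rw [Real.norm_eq_abs, abs_of_nonneg (Real.sqrt_nonneg _)]
    exact hm' z (subset_closure hz)
  · exact Cmp_int hX ((hc m).add continuous_const)
  · refine ae_of_all _ fun z => ?_
    exact (Real.continuous_sqrt.comp (Cmp_dt_cont.comp (Baire_eval z))).continuousAt

/-- `M` is a `G_δ` set in the completely metrizable space `Sm` (intersection over closed balls of
radius `n`), hence a Baire space (`M` is a dense `G_δ` in its closure, which is closed in `Sm`;
`IsGδ.baireSpace_of_dense`). -/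
theorem baireSpace_Mt (hX : Surface Γ D) : BaireSpace (Mt Γ D) := by
  set M₀ : Set Sm := {m : Sm | IsMetric Γ D m.1} with hM₀
  set C : Set Sm := {m : Sm | ∀ (γ : Γ) (z v : Pl),
      qf (m.1 (γ • z)) (fderiv ℝ (fun w : Pl => γ • w) z v) = qf (m.1 z) v} ∩
    {m : Sm | ∫ z in D, √(dt (m.1 z)) = 1} with hC
  have hCc : IsClosed C := (isClosed_inv hX).inter (isClosed_area hX)
  set O : ℕ → Set Sm := fun n => {m : Sm | ∀ z ∈ Metric.closedBall (0 : Pl) n,
    0 < (m.1 z).1 ∧ 0 < dt (m.1 z) ∧ curv m.1 z < 0} with hO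
  have hOo : ∀ n, IsOpen (O n) := fun n => isOpen_neg _ (isCompact_closedBall _ _)
  have hM : M₀ = C ∩ ⋂ n, O n := by
    ext m
    constructor
    · intro h
      exact ⟨⟨h.inv, h.area⟩, mem_iInter.2 fun n z _ => ⟨(h.pos z).1, (h.pos z).2, h.neg z⟩⟩
    · rintro ⟨⟨h1, h2⟩, h3⟩
      have h4 : ∀ z, 0 < (m.1 z).1 ∧ 0 < dt (m.1 z) ∧ curv m.1 z < 0 := by
        intro z
        obtain ⟨n, hn⟩ := exists_nat_ge ‖z‖
        exact mem_iInter.1 h3 n z (by simpa using hn)
      exact ⟨fun z => ⟨(h4 z).1, (h4 z).2.1⟩, h1, fun z => (h4 z).2.2, h2⟩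
  set Z : Set Sm := closure M₀ with hZ
  have hZC : Z ⊆ C := closure_minimal (hM ▸ inter_subset_left) hCc
  have : TopologicalSpace.IsCompletelyMetrizableSpace Z :=
    isClosed_closure.isClosedEmbedding_subtypeVal.IsCompletelyMetrizableSpace
  have hG : IsGδ {z : Z | z.1 ∈ M₀} := by
    have : {z : Z | z.1 ∈ M₀} = ⋂ n, {z : Z | z.1 ∈ O n} := by
      ext z
      constructor
      · intro hz
        rw [mem_iInter]
        intro n
        have h1 : z.1 ∈ C ∩ ⋂ n, O n := hM ▸ hz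
        exact mem_iInter.1 h1.2 n
      · intro hz
        show z.1 ∈ M₀
        rw [hM]
        exact ⟨hZC z.2, mem_iInter.2 fun n => mem_iInter.1 hz n⟩
    rw [this]
    exact IsGδ.iInter_of_isOpen fun n => (hOo n).preimage continuous_subtype_val
  have hd : Dense {z : Z | z.1 ∈ M₀} := by
    rw [Subtype.dense_iff]
    intro z hz
    have h1 : ((↑) : Z → Sm) '' {z : Z | z.1 ∈ M₀} = M₀ := by
      ext m
      constructor
      · rintro ⟨w, hw, rfl⟩
        exact hw
      · intro hm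
        exact ⟨⟨m, subset_closure hm⟩, hm, rfl⟩
    rw [h1]
    exact hz
  have hB : BaireSpace {z : Z | z.1 ∈ M₀} := hG.baireSpace_of_dense hd
  let e : {z : Z | z.1 ∈ M₀} ≃ₜ Mt Γ D :=
    { toFun := fun z => ⟨z.1.1, z.2⟩
      invFun := fun m => ⟨⟨m.1, subset_closure m.2⟩, m.2⟩
      left_inv := fun z => rfl
      right_inv := fun m => rfl
      continuous_toFun := (continuous_subtype_val.comp continuous_subtype_val).subtype_mk _
      continuous_invFun := (continuous_subtype_val.subtype_mk _).subtype_mk _ }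
  exact e.baireSpace

end BGS
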