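import Mathlib
import Pool.Agent.LibBGS.Defs
import Pool.Agent.LibBGS.Cmp
import Pool.Agent.LibBGS.BaireM
import Pool.Agent.LibBGS.Egr

/-! Small smooth conformal changes stay in a given neighbourhood of a metric in `M`.
Own names start with `Top_`. -/

open MeasureTheory Set Filter Topology
open scoped ContDiff ENNReal NNReal

namespace BGS

variable {Γ : Type} [Group Γ] [MulAction Γ Pl] {D : Set Pl}

/-- A conformal multiple of a smooth coefficient map. -/
def Top_sm (m : Sm) (l : Pl → ℝ) (hl : ContDiff ℝ ∞ l) : Sm :=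
  ⟨fun z => l z • m.1 z, hl.smul m.2⟩

theorem Top_qf (a : ℝ) (c : Co) (v : Pl) : qf (a • c) v = a * qf c v := by
  simp only [qf, Prod.smul_fst, Prod.smul_snd, smul_eq_mul]
  ring

theorem Top_dt (a : ℝ) (c : Co) : dt (a • c) = a ^ 2 * dt c := by
  simp only [dt, Prod.smul_fst, Prod.smul_snd, smul_eq_mul]
  ring

theorem Top_sqrt {a : ℝ} (ha : 0 ≤ a) (c : Co) : √(dt (a • c)) = a * √(dt c) := by
  rw [Top_dt, Real.sqrt_mul (sq_nonneg _), Real.sqrt_sq ha]

/-- A positive invariant multiple of a metric of `M`, of area one, with negative curvature on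
`closure D`, lies in `M`. -/
theorem Top_metric (hX : Surface Γ D) (m : Mt Γ D) (l : Pl → ℝ) (hl : l ∈ Test Γ)
    (hpos : ∀ z, 0 < l z) (harea : ∫ z in D, l z * √(dt (m.1.1 z)) = 1)
    (hneg : ∀ z ∈ closure D, curv (fun z => l z • m.1.1 z) z < 0) :
    IsMetric Γ D (fun z => l z • m.1.1 z) := by
  have h1 : ∀ z, 0 < (l z • m.1.1 z).1 ∧ 0 < dt (l z • m.1.1 z) := by
    intro z
    refine ⟨mul_pos (hpos z) (m.2.pos z).1, ?_⟩
    rw [Top_dt]
    exact mul_pos (pow_pos (hpos z) 2) (m.2.pos z).2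
  have h2 : ∀ (γ : Γ) (z v : Pl), qf (l (γ • z) • m.1.1 (γ • z))
      (fderiv ℝ (fun w : Pl => γ • w) z v) = qf (l z • m.1.1 z) v := by
    intro γ z v
    rw [Top_qf, Top_qf, hl.2 γ z, m.2.inv γ z v]
  refine ⟨h1, h2, ?_, ?_⟩
  · intro z
    obtain ⟨γ, hγ, -⟩ := hX.orbit z
    have h3 := curv_inv hX (Top_sm m.1 l hl.1) (fun z => (h1 z).2) h2 γ z
    have h4 : curv (Top_sm m.1 l hl.1).1 (γ • z) < 0 := hneg _ (subset_closure hγ)
    rw [h3] at h4
    exact h4
  · rw [← harea]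
    congr 1
    funext z
    exact Top_sqrt (hpos z).le _

theorem Top_const (c : ℝ) (k : ℕ) (z : Pl) :
    ‖iteratedFDeriv ℝ k (fun _ : Pl => c) z‖ ≤ |c| := by
  rcases Nat.eq_zero_or_pos k with hk | hk
  · subst hk
    rw [norm_iteratedFDeriv_zero, Real.norm_eq_abs]
  · rw [iteratedFDeriv_const_of_ne hk.ne']
    simp

/-- Derivatives of an affine function of `h`. -/
theorem Top_affine {h : Pl → ℝ} (hh : ContDiff ℝ ∞ h) (a b : ℝ) (k : ℕ) (z : Pl) :
    ‖iteratedFDeriv ℝ k (fun z => a * h z + b) z‖ ≤ |a| * ‖iteratedFDeriv ℝ k h z‖ + |b| := by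
  have hk : (k : ℕ∞ω) ≤ (∞ : ℕ∞ω) := by exact_mod_cast le_top
  have h1 : ContDiffAt ℝ k h z := (hh.contDiffAt).of_le hk
  have h2 : ContDiffAt ℝ k (fun z => a • h z) z := h1.const_smul a
  have h3 : ContDiffAt ℝ k (fun _ : Pl => b) z := contDiffAt_const
  have h4 : (fun z => a * h z + b) = (fun z => a • h z) + fun _ : Pl => b := rfl
  rw [h4, iteratedFDeriv_add_apply h2 h3]
  refine (norm_add_le _ _).trans (add_le_add ?_ (Top_const b k z))
  have h5 : (fun z => a • h z) = a • h := rfl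
  rw [h5, iteratedFDeriv_const_smul_apply h1, norm_smul, Real.norm_eq_abs]

/-- Derivatives of a small multiple of `m` are small on compact sets. -/
theorem Top_mul (m : Sm) (k : ℕ) {K : Set Pl} (hK : IsCompact K) :
    ∃ C : ℝ, 0 < C ∧ ∀ (g : Pl → ℝ), ContDiff ℝ ∞ g → ∀ δ : ℝ, 0 ≤ δ →
      (∀ i ≤ k, ∀ z ∈ K, ‖iteratedFDeriv ℝ i g z‖ ≤ δ) →
      ∀ z ∈ K, ‖iteratedFDeriv ℝ k (fun z => g z • m.1 z) z‖ ≤ C * δ := by
  have hb : ∀ j : ℕ, ∃ M : ℝ, 0 ≤ M ∧ ∀ z ∈ K, ‖iteratedFDeriv ℝ j m.1 z‖ ≤ M := by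
    intro j
    obtain ⟨M, hM⟩ := hK.exists_bound_of_continuousOn
      (m.2.continuous_iteratedFDeriv (m := j) (by exact_mod_cast le_top)).continuousOn
    exact ⟨max M 0, le_max_right _ _, fun z hz => (hM z hz).trans (le_max_left _ _)⟩
  choose M hM0 hM using hb
  refine ⟨∑ i ∈ Finset.range (k + 1), (k.choose i : ℝ) * M (k - i) + 1, ?_, ?_⟩
  · have : 0 ≤ ∑ i ∈ Finset.range (k + 1), (k.choose i : ℝ) * M (k - i) :=
      Finset.sum_nonneg fun i _ => mul_nonneg (Nat.cast_nonneg _) (hM0 _)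
    linarith
  · intro g hg δ hδ h z hz
    refine (norm_iteratedFDeriv_smul_le hg m.2 z (by exact_mod_cast le_top)).trans ?_
    have h1 : ∑ i ∈ Finset.range (k + 1), (k.choose i : ℝ) * ‖iteratedFDeriv ℝ i g z‖ *
        ‖iteratedFDeriv ℝ (k - i) m.1 z‖ ≤
        ∑ i ∈ Finset.range (k + 1), (k.choose i : ℝ) * M (k - i) * δ := by
      apply Finset.sum_le_sum
      intro i hi
      have hik : i ≤ k := Nat.lt_succ_iff.1 (Finset.mem_range.1 hi)
      have a1 := h i hik z hz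
      have a2 := hM (k - i) z hz
      have a3 : (0 : ℝ) ≤ k.choose i := Nat.cast_nonneg _
      have a4 := norm_nonneg (iteratedFDeriv ℝ (k - i) m.1 z)
      calc (k.choose i : ℝ) * ‖iteratedFDeriv ℝ i g z‖ * ‖iteratedFDeriv ℝ (k - i) m.1 z‖
          ≤ (k.choose i : ℝ) * δ * M (k - i) := by gcongr
        _ = (k.choose i : ℝ) * M (k - i) * δ := by ring
    rw [← Finset.sum_mul] at h1
    linarith

/-- Continuity of the conformal change at `1`, along sequences. -/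
theorem Top_seq (hX : Surface Γ D) (m : Mt Γ D) (h : ℕ → Pl → ℝ) (hT : ∀ n, h n ∈ Test Γ)
    (hb : ∀ n k : ℕ, k ≤ n → ∀ z ∈ Metric.closedBall (0 : Pl) n,
      ‖iteratedFDeriv ℝ k (h n) z‖ ≤ 1 / ((n : ℝ) + 1)) (U : Set (Mt Γ D)) (hU : U ∈ 𝓝 m) :
    ∃ n, ∃ m' ∈ U, m'.1.1 =
      fun z => ((1 + h n z) / ∫ w in D, (1 + h n w) * √(dt (m.1.1 w))) • m.1.1 z := by
  set c : ℕ → ℝ := fun n => ∫ w in D, (1 + h n w) * √(dt (m.1.1 w)) with hc
  have hsq : Continuous fun w => √(dt (m.1.1 w)) :=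
    Real.continuous_sqrt.comp (Cmp_dt_cont.comp m.1.2.continuous)
  obtain ⟨R, hR⟩ := hX.bdd.subset_closedBall (0 : Pl)
  obtain ⟨R', hR'⟩ := exists_nat_ge R
  -- pointwise bound
  have hpt : ∀ n : ℕ, ∀ z ∈ Metric.closedBall (0 : Pl) n, |h n z| ≤ 1 / ((n : ℝ) + 1) := by
    intro n z hz
    have := hb n 0 (Nat.zero_le _) z hz
    rwa [norm_iteratedFDeriv_zero, Real.norm_eq_abs] at this
  have hDn : ∀ n : ℕ, R' ≤ n → D ⊆ Metric.closedBall (0 : Pl) n := fun n hn =>
    hR.trans (Metric.closedBall_subset_closedBall (hR'.trans (by exact_mod_cast hn)))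
  have hDn' : ∀ n : ℕ, R' ≤ n → closure D ⊆ Metric.closedBall (0 : Pl) n := fun n hn =>
    closure_minimal (hDn n hn) Metric.isClosed_closedBall
  -- the area
  have hcn : ∀ n : ℕ, R' ≤ n → |c n - 1| ≤ 1 / ((n : ℝ) + 1) := by
    intro n hn
    have e1 : c n - 1 = ∫ w in D, h n w * √(dt (m.1.1 w)) := by
      have i1 : IntegrableOn (fun w => (1 + h n w) * √(dt (m.1.1 w))) D :=
        Cmp_int hX ((continuous_const.add (hT n).1.continuous).mul hsq)
      have i2 : IntegrableOn (fun w => √(dt (m.1.1 w))) D := Cmp_int hX hsq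
      rw [← m.2.area, hc, ← integral_sub i1 i2]
      congr 1
      funext w
      ring
    rw [e1]
    have i3 : IntegrableOn (fun w => h n w * √(dt (m.1.1 w))) D :=
      Cmp_int hX ((hT n).1.continuous.mul hsq)
    have i4 : IntegrableOn (fun w => 1 / ((n : ℝ) + 1) * √(dt (m.1.1 w))) D :=
      Cmp_int hX (continuous_const.mul hsq)
    have h1 : |∫ w in D, h n w * √(dt (m.1.1 w))| ≤
        ∫ w in D, 1 / ((n : ℝ) + 1) * √(dt (m.1.1 w)) := by
      rw [← Real.norm_eq_abs]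
      refine norm_integral_le_of_norm_le i4 ?_
      rw [ae_restrict_iff' hX.meas]
      refine ae_of_all _ fun w hw => ?_
      rw [Real.norm_eq_abs, abs_mul, abs_of_nonneg (Real.sqrt_nonneg _)]
      exact mul_le_mul_of_nonneg_right (hpt n w (hDn n hn hw)) (Real.sqrt_nonneg _)
    rw [integral_const_mul, m.2.area, mul_one] at h1
    exact h1
  have hc12 : ∀ n : ℕ, R' + 1 ≤ n → 1 / 2 ≤ c n := by
    intro n hn
    have h1 := hcn n (by omega)
    have h2 : 1 / ((n : ℝ) + 1) ≤ 1 / 2 := by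
      have : (1 : ℝ) ≤ n := by exact_mod_cast (show 1 ≤ n by omega)
      exact one_div_le_one_div_of_le (by norm_num) (by linarith)
    have h3 := abs_le.1 h1
    linarith [h3.1]
  -- positivity of `1 + h`
  have hp : ∀ n : ℕ, R' + 1 ≤ n → ∀ z, 0 < 1 + h n z := by
    intro n hn z
    obtain ⟨γ, hγ, -⟩ := hX.orbit z
    have h1 := hpt n (γ • z) (hDn n (by omega) hγ)
    have h2 : 1 / ((n : ℝ) + 1) ≤ 1 / 2 := by
      have : (1 : ℝ) ≤ n := by exact_mod_cast (show 1 ≤ n by omega)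
      exact one_div_le_one_div_of_le (by norm_num) (by linarith)
    rw [(hT n).2 γ z] at h1
    have h3 := abs_le.1 h1
    linarith [h3.1]
  have hlT : ∀ n : ℕ, (fun z => (1 + h n z) / c n) ∈ Test Γ := fun n =>
    ⟨(contDiff_const.add (hT n).1).div_const _, fun γ z => by
      show (1 + h n (γ • z)) / c n = (1 + h n z) / c n
      rw [(hT n).2 γ z]⟩
  set S : ℕ → Sm := fun n => Top_sm m.1 (fun z => (1 + h n z) / c n) (hlT n).1 with hS
  -- convergence in `Sm`
  have hg : ∀ n : ℕ, R' + 1 ≤ n → ∀ k ≤ n, ∀ z ∈ Metric.closedBall (0 : Pl) n,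
      ‖iteratedFDeriv ℝ k (fun z => (1 + h n z) / c n - 1) z‖ ≤ 4 / ((n : ℝ) + 1) := by
    intro n hn k hk z hz
    have e1 : (fun z => (1 + h n z) / c n - 1) =
        fun z => (1 / c n) * h n z + (1 - c n) / c n := by
      funext z
      have := hc12 n hn
      field_simp
      ring
    rw [e1]
    refine (Top_affine (hT n).1 _ _ k z).trans ?_
    have h1 := hb n k hk z hz
    have h2 := hcn n (by omega)
    have h3 := hc12 n hn
    have h4 : |1 / c n| ≤ 2 := by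
      rw [abs_of_pos (by positivity)]
      rw [div_le_iff₀ (by linarith)]
      linarith
    have h5 : |(1 - c n) / c n| ≤ 2 * (1 / ((n : ℝ) + 1)) := by
      have e2 : (1 - c n) / c n = (1 / c n) * (1 - c n) := by ring
      rw [e2, abs_mul, abs_sub_comm 1 (c n)]
      exact mul_le_mul h4 h2 (abs_nonneg _) (by norm_num)
    have h6 : |1 / c n| * ‖iteratedFDeriv ℝ k (h n) z‖ ≤ 2 * (1 / ((n : ℝ) + 1)) :=
      mul_le_mul h4 h1 (norm_nonneg _) (by norm_num)
    have e3 : 4 / ((n : ℝ) + 1) = 2 * (1 / ((n : ℝ) + 1)) + 2 * (1 / ((n : ℝ) + 1)) := by ring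
    rw [e3]
    exact add_le_add h6 h5
  have hlim : Tendsto S atTop (𝓝 m.1) := by
    rw [(show IsInducing jet from ⟨rfl⟩).tendsto_nhds_iff, tendsto_pi_nhds]
    intro k
    rw [ContinuousMap.tendsto_iff_forall_isCompact_tendstoUniformlyOn]
    intro K hK
    obtain ⟨C, hC, hCb⟩ := Top_mul m.1 k hK
    obtain ⟨RK, hRK⟩ := hK.isBounded.subset_closedBall (0 : Pl)
    obtain ⟨RK', hRK'⟩ := exists_nat_ge RK
    rw [Metric.tendstoUniformlyOn_iff]
    intro ε hε
    have ht : Tendsto (fun n : ℕ => C * (4 / ((n : ℝ) + 1))) atTop (𝓝 0) := by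
      have h1 : Tendsto (fun n : ℕ => 4 / ((n : ℝ) + 1)) atTop (𝓝 0) := by
        have h0 := (tendsto_one_div_add_atTop_nhds_zero_nat (𝕜 := ℝ)).const_mul 4
        simp only [mul_zero] at h0
        refine h0.congr fun n => ?_
        ring
      simpa using h1.const_mul C
    filter_upwards [ht.eventually_lt_const hε, eventually_ge_atTop (R' + 1),
      eventually_ge_atTop k, eventually_ge_atTop RK'] with n h1 h2 h3 h4 z hz
    rw [dist_comm, dist_eq_norm]
    have hgs : ContDiff ℝ ∞ fun z => (1 + h n z) / c n - 1 := (hlT n).1.sub contDiff_const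
    have e1 : (jet (S n) k) z - (jet m.1 k) z =
        iteratedFDeriv ℝ k (fun z => ((1 + h n z) / c n - 1) • m.1.1 z) z := by
      show iteratedFDeriv ℝ k (fun z => ((1 + h n z) / c n) • m.1.1 z) z -
        iteratedFDeriv ℝ k m.1.1 z = _
      have e2 : (fun z => ((1 + h n z) / c n) • m.1.1 z) =
          (fun z => ((1 + h n z) / c n - 1) • m.1.1 z) + m.1.1 := by
        funext z
        simp only [Pi.add_apply, sub_smul, one_smul, sub_add_cancel]
      have hk : (k : ℕ∞ω) ≤ (∞ : ℕ∞ω) := by exact_mod_cast le_top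
      have a1 : ContDiffAt ℝ k (fun z => ((1 + h n z) / c n - 1) • m.1.1 z) z :=
        ((hgs.smul m.1.2).contDiffAt).of_le hk
      have a2 : ContDiffAt ℝ k m.1.1 z := (m.1.2.contDiffAt).of_le hk
      rw [e2, iteratedFDeriv_add_apply a1 a2, add_sub_cancel_right]
    show ‖(jet (S n) k) z - (jet m.1 k) z‖ < ε
    rw [e1]
    refine lt_of_le_of_lt (hCb _ hgs (4 / ((n : ℝ) + 1)) (by positivity) ?_ z hz) h1
    intro i hi w hw
    refine hg n h2 i (hi.trans h3) w ?_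
    exact (hRK.trans (Metric.closedBall_subset_closedBall
      (hRK'.trans (by exact_mod_cast h4)))) hw
  -- membership in `M`
  have hO := (isOpen_neg (closure D) (Cmp_compact hX)).mem_nhds
    (show m.1 ∈ {m : Sm | ∀ z ∈ closure D, 0 < (m.1 z).1 ∧ 0 < dt (m.1 z) ∧ curv m.1 z < 0} from
      fun z _ => ⟨(m.2.pos z).1, (m.2.pos z).2, m.2.neg z⟩)
  obtain ⟨V, hV, hVU⟩ := mem_nhds_subtype _ _ _ |>.1 hU
  have hev := (hlim.eventually hO).and ((hlim.eventually hV).and (eventually_ge_atTop (R' + 1)))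
  obtain ⟨n, h1, h2, h3⟩ := hev.exists
  have hpos : ∀ z, 0 < (1 + h n z) / c n := fun z =>
    div_pos (hp n h3 z) (by linarith [hc12 n h3])
  have harea : ∫ z in D, (1 + h n z) / c n * √(dt (m.1.1 z)) = 1 := by
    have e1 : ∀ z, (1 + h n z) / c n * √(dt (m.1.1 z)) =
        (1 / c n) * ((1 + h n z) * √(dt (m.1.1 z))) := fun z => by ring
    simp only [e1]
    rw [integral_const_mul]
    have := hc12 n h3
    show 1 / c n * c n = 1
    field_simp
  have hmet : IsMetric Γ D (S n).1 :=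
    Top_metric hX m _ (hlT n) hpos harea fun z hz => (h1 z hz).2.2
  exact ⟨n, ⟨S n, hmet⟩, hVU h2, rfl⟩

/-- Small smooth conformal changes of a metric of `M` lie in a given neighbourhood in `M`. -/
theorem Top_near (hX : Surface Γ D) (m : Mt Γ D) (U : Set (Mt Γ D)) (hU : U ∈ 𝓝 m) :
    ∃ r : ℕ, ∃ K : Set Pl, IsCompact K ∧ ∃ δ > 0, ∀ h ∈ Test Γ,
      (∀ k ≤ r, ∀ z ∈ K, ‖iteratedFDeriv ℝ k h z‖ ≤ δ) →
      ∃ m' ∈ U, m'.1.1 =
        fun z => ((1 + h z) / ∫ w in D, (1 + h w) * √(dt (m.1.1 w))) • m.1.1 z := by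
  by_contra hcon
  push Not at hcon
  have h1 : ∀ n : ℕ, ∃ h ∈ Test Γ, (∀ k ≤ n, ∀ z ∈ Metric.closedBall (0 : Pl) n,
      ‖iteratedFDeriv ℝ k h z‖ ≤ 1 / ((n : ℝ) + 1)) ∧ ∀ m' ∈ U, m'.1.1 ≠
        fun z => ((1 + h z) / ∫ w in D, (1 + h w) * √(dt (m.1.1 w))) • m.1.1 z := fun n =>
    hcon n _ (isCompact_closedBall _ _) _ (by positivity)
  choose h hT hb hne using h1
  obtain ⟨n, m', hm', he⟩ := Top_seq hX m h hT (fun n k hk => hb n k hk) U hU
  exact hne n m' hm' he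

end BGS
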