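import Mathlib

/-! TASK ABS: generic semicontinuity of upper and lower limits. Prefix own names with `Abs_`. -/

open Set Filter Topology

namespace BGS

/-- Property (P): the value of `S m` at `T` is almost attained, near `m`, at some `T' ≥ T`. -/
def PropP {X : Type} [TopologicalSpace X] (S : X → ℝ → ℝ) : Prop :=
  ∀ (m : X) (T : ℝ), 0 < T → ∀ U : Set ℝ, IsOpen U → S m T ∈ U →
    ∃ T', T ≤ T' ∧ ∀ᶠ m' in 𝓝 m, S m' T' ∈ U

/-- The set of points near which some `T > n` gives a value in `U` is open. -/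
theorem Abs_isOpen {X : Type} [TopologicalSpace X] (S : X → ℝ → ℝ) (hP : PropP S) (n : ℕ)
    (U : Set ℝ) (hU : IsOpen U) : IsOpen {m : X | ∃ T, (n : ℝ) < T ∧ S m T ∈ U} := by
  rw [isOpen_iff_mem_nhds]
  rintro m ⟨T, hT, hq⟩
  obtain ⟨T', hTT', hev⟩ := hP m T (lt_of_le_of_lt (Nat.cast_nonneg n) hT) U hU hq
  filter_upwards [hev] with m' hm'
  exact ⟨T', lt_of_lt_of_le hT hTT', hm'⟩

theorem Abs_frontier {X : Type} [TopologicalSpace X] {O : Set X} (hO : IsOpen O) :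
    (frontier O)ᶜ ∈ residual X := by
  apply residual_of_dense_open
  · exact isClosed_frontier.isOpen_compl
  · rw [← interior_eq_empty_iff_dense_compl, ← frontier_compl]
    exact interior_frontier hO.isClosed_compl

theorem Abs_open {X : Type} [TopologicalSpace X] {O : Set X} (hO : IsOpen O) {m : X}
    (hm : m ∈ (frontier O)ᶜ) (h : m ∉ O) : ∀ᶠ m' in 𝓝 m, m' ∉ O := by
  have h2 : m ∉ closure O := by
    intro hc
    apply hm
    rw [frontier, hO.interior_eq]
    exact ⟨hc, h⟩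
  have h3 : (closure O)ᶜ ∈ 𝓝 m := isClosed_closure.isOpen_compl.mem_nhds h2
  filter_upwards [h3] with y hy hyO
  exact hy (subset_closure hyO)

/-- The good points. -/
def Abs_Good {X : Type} [TopologicalSpace X] (S : X → ℝ → ℝ) (m : X) : Prop :=
  ∀ (n : ℕ) (q : ℚ),
    ((∀ T, (n : ℝ) < T → S m T ≤ q) → ∀ᶠ m' in 𝓝 m, ∀ T, (n : ℝ) < T → S m' T ≤ q) ∧
    ((∀ T, (n : ℝ) < T → (q : ℝ) ≤ S m T) →
      ∀ᶠ m' in 𝓝 m, ∀ T, (n : ℝ) < T → (q : ℝ) ≤ S m' T)

theorem Abs_good {X : Type} [TopologicalSpace X] (S : X → ℝ → ℝ) (hP : PropP S) :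
    {m : X | Abs_Good S m} ∈ residual X := by
  have h1 : ∀ (n : ℕ) (q : ℚ),
      (frontier {m : X | ∃ T, (n : ℝ) < T ∧ S m T ∈ Ioi (q : ℝ)})ᶜ ∈ residual X := fun n q =>
    Abs_frontier (Abs_isOpen S hP n _ isOpen_Ioi)
  have h2 : ∀ (n : ℕ) (q : ℚ),
      (frontier {m : X | ∃ T, (n : ℝ) < T ∧ S m T ∈ Iio (q : ℝ)})ᶜ ∈ residual X := fun n q =>
    Abs_frontier (Abs_isOpen S hP n _ isOpen_Iio)
  have h3 : (⋂ n : ℕ, ⋂ q : ℚ,
      (frontier {m : X | ∃ T, (n : ℝ) < T ∧ S m T ∈ Ioi (q : ℝ)})ᶜ) ∈ residual X := by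
    rw [countable_iInter_mem]
    intro n
    rw [countable_iInter_mem]
    exact h1 n
  have h4 : (⋂ n : ℕ, ⋂ q : ℚ,
      (frontier {m : X | ∃ T, (n : ℝ) < T ∧ S m T ∈ Iio (q : ℝ)})ᶜ) ∈ residual X := by
    rw [countable_iInter_mem]
    intro n
    rw [countable_iInter_mem]
    exact h2 n
  filter_upwards [h3, h4] with m hm3 hm4 n q
  simp only [mem_iInter] at hm3 hm4
  constructor
  · intro h
    have := Abs_open (Abs_isOpen S hP n _ isOpen_Ioi) (hm3 n q) (by
      rintro ⟨T, hT, hq⟩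
      exact absurd (h T hT) (not_le.2 hq))
    filter_upwards [this] with m' hm' T hT
    by_contra hc
    exact hm' ⟨T, hT, not_le.1 hc⟩
  · intro h
    have := Abs_open (Abs_isOpen S hP n _ isOpen_Iio) (hm4 n q) (by
      rintro ⟨T, hT, hq⟩
      exact absurd (h T hT) (not_le.2 hq))
    filter_upwards [this] with m' hm' T hT
    by_contra hc
    exact hm' ⟨T, hT, not_le.1 hc⟩

theorem Abs_joint {X : Type} [TopologicalSpace X] {m : X} {n : ℕ} {P : X → ℝ → Prop}
    (h : ∀ᶠ m' in 𝓝 m, ∀ T, (n : ℝ) < T → P m' T) :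
    ∀ᶠ q : X × ℝ in 𝓝 m ×ˢ atTop, P q.1 q.2 := by
  have h2 : ∀ᶠ T : ℝ in atTop, (n : ℝ) < T := eventually_gt_atTop _
  filter_upwards [h.prod_mk h2] with q hq
  exact hq.1 q.2 hq.2

theorem Abs_ex {P : ℝ → Prop} (h : ∀ᶠ T : ℝ in atTop, P T) : ∃ n : ℕ, ∀ T, (n : ℝ) < T → P T := by
  obtain ⟨a, ha⟩ := eventually_atTop.1 h
  obtain ⟨n, hn⟩ := exists_nat_ge a
  exact ⟨n, fun T hT => ha T (hn.trans hT.le)⟩

/-- For a generic point the upper limit in `T` is stable. -/
theorem generic_limsup {X : Type} [TopologicalSpace X] (S : X → ℝ → ℝ) (hP : PropP S) :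
    {m : X | limsup (fun q : X × ℝ => (S q.1 q.2 : EReal)) (𝓝 m ×ˢ atTop) =
      limsup (fun T => (S m T : EReal)) atTop} ∈ residual X := by
  filter_upwards [Abs_good S hP] with m hm
  apply le_antisymm
  · apply le_of_forall_gt_imp_ge_of_dense
    intro b hb
    obtain ⟨q, hq1, hq2⟩ := EReal.lt_iff_exists_rat_btwn.1 hb
    have h1 : ∀ᶠ T : ℝ in atTop, (S m T : EReal) < ((q : ℝ) : EReal) :=
      eventually_lt_of_limsup_lt hq1
    obtain ⟨n, hn⟩ := Abs_ex h1
    have h2 := (hm n q).1 (fun T hT => (EReal.coe_lt_coe_iff.1 (hn T hT)).le)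
    have h3 : ∀ᶠ p : X × ℝ in 𝓝 m ×ˢ atTop, (S p.1 p.2 : EReal) ≤ ((q : ℝ) : EReal) := by
      filter_upwards [Abs_joint (P := fun a T => S a T ≤ q) h2] with p hp
      exact EReal.coe_le_coe_iff.2 hp
    exact (limsup_le_of_le (by isBoundedDefault) h3).trans hq2.le
  · have hmap : map (fun T : ℝ => (m, T)) atTop ≤ 𝓝 m ×ˢ atTop := by
      have : Tendsto (fun T : ℝ => (m, T)) atTop (𝓝 m ×ˢ atTop) :=
        tendsto_const_nhds.prodMk tendsto_id
      exact this
    have h := limsup_le_limsup_of_le (f := map (fun T : ℝ => (m, T)) atTop)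
      (u := fun q : X × ℝ => (S q.1 q.2 : EReal)) hmap
    exact h

/-- For a generic point the lower limit in `T` is stable. -/
theorem generic_liminf {X : Type} [TopologicalSpace X] (S : X → ℝ → ℝ) (hP : PropP S) :
    {m : X | liminf (fun q : X × ℝ => (S q.1 q.2 : EReal)) (𝓝 m ×ˢ atTop) =
      liminf (fun T => (S m T : EReal)) atTop} ∈ residual X := by
  filter_upwards [Abs_good S hP] with m hm
  apply le_antisymm
  · have hmap : map (fun T : ℝ => (m, T)) atTop ≤ 𝓝 m ×ˢ atTop := by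
      have : Tendsto (fun T : ℝ => (m, T)) atTop (𝓝 m ×ˢ atTop) :=
        tendsto_const_nhds.prodMk tendsto_id
      exact this
    have h := liminf_le_liminf_of_le (g := map (fun T : ℝ => (m, T)) atTop)
      (u := fun q : X × ℝ => (S q.1 q.2 : EReal)) hmap
    exact h
  · apply le_of_forall_lt_imp_le_of_dense
    intro b hb
    obtain ⟨q, hq1, hq2⟩ := EReal.lt_iff_exists_rat_btwn.1 hb
    have h1 : ∀ᶠ T : ℝ in atTop, ((q : ℝ) : EReal) < (S m T : EReal) :=
      eventually_lt_of_lt_liminf hq2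
    obtain ⟨n, hn⟩ := Abs_ex h1
    have h2 := (hm n q).2 (fun T hT => (EReal.coe_lt_coe_iff.1 (hn T hT)).le)
    have h3 : ∀ᶠ p : X × ℝ in 𝓝 m ×ˢ atTop, ((q : ℝ) : EReal) ≤ (S p.1 p.2 : EReal) := by
      filter_upwards [Abs_joint (P := fun a T => (q : ℝ) ≤ S a T) h2] with p hp
      exact EReal.coe_le_coe_iff.2 hp
    exact hq1.le.trans (le_liminf_of_le (by isBoundedDefault) h3)

theorem Abs_between {X : Type} [TopologicalSpace X] {S : X → ℝ → ℝ} {m : X}
    (hm : Abs_Good S m) {c ε δ : ℝ} (hεδ : ε < δ)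
    (h : ∀ᶠ T : ℝ in atTop, |S m T - c| < ε) :
    ∀ᶠ q : X × ℝ in 𝓝 m ×ˢ atTop, |S q.1 q.2 - c| < δ := by
  obtain ⟨n, hn⟩ := Abs_ex h
  obtain ⟨q1, hq1, hq1'⟩ := exists_rat_btwn (show c + ε < c + δ by linarith)
  obtain ⟨q2, hq2, hq2'⟩ := exists_rat_btwn (show c - δ < c - ε by linarith)
  have h1 := (hm n q1).1 (fun T hT => by
    have := (abs_lt.1 (hn T hT)).2
    linarith)
  have h2 := (hm n q2).2 (fun T hT => by
    have := (abs_lt.1 (hn T hT)).1
    linarith)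
  filter_upwards [Abs_joint (P := fun a T => S a T ≤ q1) h1,
    Abs_joint (P := fun a T => (q2 : ℝ) ≤ S a T) h2] with p hp1 hp2
  rw [abs_lt]
  constructor <;> linarith

/-- For a generic point, convergence in `T` implies joint convergence. -/
theorem generic_tendsto {X : Type} [TopologicalSpace X] (S : X → ℝ → ℝ) (hP : PropP S) :
    {m : X | ∀ c : ℝ, Tendsto (S m) atTop (𝓝 c) →
      Tendsto (fun q : X × ℝ => S q.1 q.2) (𝓝 m ×ˢ atTop) (𝓝 c)} ∈ residual X := by
  filter_upwards [Abs_good S hP] with m hm c hc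
  rw [Metric.tendsto_nhds] at hc ⊢
  intro δ hδ
  have h := hc (δ / 2) (half_pos hδ)
  exact Abs_between hm (half_lt_self hδ) h

theorem Abs_isOpen_joint {X : Type} [TopologicalSpace X] (P : X → ℝ → Prop) :
    IsOpen {m : X | ∀ᶠ q : X × ℝ in 𝓝 m ×ˢ atTop, P q.1 q.2} := by
  rw [isOpen_iff_mem_nhds]
  intro m hm
  obtain ⟨pa, hpa, pb, hpb, hab⟩ := eventually_prod_iff.1 hm
  filter_upwards [eventually_eventually_nhds.2 hpa] with m' hm'
  exact eventually_prod_iff.2 ⟨pa, hm', pb, hpb, hab⟩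

/-- Zero-one law: either convergence to `c` is generic, or it fails generically on a nonempty
open set. -/
theorem zero_one {X : Type} [TopologicalSpace X] (S : X → ℝ → ℝ) (hP : PropP S) (c : ℝ) :
    {m : X | Tendsto (S m) atTop (𝓝 c)} ∈ residual X ∨
      ∃ V : Set X, IsOpen V ∧ V.Nonempty ∧
        ∃ ε > 0, {m : X | m ∈ V → ∃ᶠ T in atTop, ε ≤ |S m T - c|} ∈ residual X := by
  by_cases hd : ∀ j : ℕ, Dense {m : X | ∀ᶠ q : X × ℝ in 𝓝 m ×ˢ atTop,
      |S q.1 q.2 - c| < 1 / ((j : ℝ) + 1)}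
  · left
    have h1 : (⋂ j : ℕ, {m : X | ∀ᶠ q : X × ℝ in 𝓝 m ×ˢ atTop,
        |S q.1 q.2 - c| < 1 / ((j : ℝ) + 1)}) ∈ residual X := by
      rw [countable_iInter_mem]
      intro j
      exact residual_of_dense_open (Abs_isOpen_joint (fun a T => |S a T - c| < 1 / ((j : ℝ) + 1)))
        (hd j)
    filter_upwards [h1] with m hm
    simp only [mem_iInter, mem_ofPred_eq] at hm
    rw [Metric.tendsto_nhds]
    intro δ hδ
    obtain ⟨j, hj⟩ := exists_nat_one_div_lt hδ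
    have h2 : Tendsto (fun T : ℝ => (m, T)) atTop (𝓝 m ×ˢ atTop) :=
      tendsto_const_nhds.prodMk tendsto_id
    filter_upwards [h2.eventually (hm j)] with T hT
    exact lt_trans hT hj
  · right
    push Not at hd
    obtain ⟨j, hj⟩ := hd
    refine ⟨(closure {m : X | ∀ᶠ q : X × ℝ in 𝓝 m ×ˢ atTop,
      |S q.1 q.2 - c| < 1 / ((j : ℝ) + 1)})ᶜ, isClosed_closure.isOpen_compl, ?_,
      1 / ((j : ℝ) + 1) / 2, by positivity, ?_⟩
    · rw [nonempty_compl]
      intro h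
      exact hj (dense_iff_closure_eq.2 h)
    · filter_upwards [Abs_good S hP] with m hm hmV
      by_contra hf
      rw [not_frequently] at hf
      apply hmV
      apply subset_closure
      have hf' : ∀ᶠ T : ℝ in atTop, |S m T - c| < 1 / ((j : ℝ) + 1) / 2 := by
        filter_upwards [hf] with T hT
        exact not_le.1 hT
      exact Abs_between hm (half_lt_self (by positivity)) hf'

end BGS
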