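import Mathlib

/-! TASK APPROX: countably many test functions suffice. Prefix own names with `Approx_`. -/

open MeasureTheory Set Filter Topology
open scoped ENNReal NNReal

namespace BGS

/-- A cutoff function. -/
noncomputable def Approx_cut (E : Type) [NormedAddCommGroup E] (R : ℕ) (y : E) : ℝ :=
  max 0 (min 1 (R + 1 - ‖y‖))

theorem Approx_cut_cont (E : Type) [NormedAddCommGroup E] (R : ℕ) :
    Continuous (Approx_cut E R) := by
  unfold Approx_cut
  fun_prop

theorem Approx_cut_nonneg (E : Type) [NormedAddCommGroup E] (R : ℕ) (y : E) :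
    0 ≤ Approx_cut E R y := le_max_left _ _

theorem Approx_cut_le (E : Type) [NormedAddCommGroup E] (R : ℕ) (y : E) :
    Approx_cut E R y ≤ 1 := max_le zero_le_one (min_le_left _ _)

theorem Approx_cut_one (E : Type) [NormedAddCommGroup E] (R : ℕ) {y : E} (hy : ‖y‖ ≤ R) :
    Approx_cut E R y = 1 := by
  unfold Approx_cut
  rw [min_eq_left (by linarith), max_eq_right zero_le_one]

theorem Approx_cut_zero (E : Type) [NormedAddCommGroup E] (R : ℕ) {y : E} (hy : R + 1 ≤ ‖y‖) :
    Approx_cut E R y = 0 := by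
  unfold Approx_cut
  exact max_eq_left ((min_le_right _ _).trans (by linarith))

theorem Approx_cut_supp (E : Type) [NormedAddCommGroup E] [NormedSpace ℝ E]
    [FiniteDimensional ℝ E] (R : ℕ) : HasCompactSupport (Approx_cut E R) := by
  have : ProperSpace E := FiniteDimensional.proper ℝ E
  apply HasCompactSupport.intro (isCompact_closedBall (0 : E) (R + 1))
  intro y hy
  apply Approx_cut_zero
  rw [mem_closedBall_zero_iff] at hy
  exact (not_le.1 hy).le

/-- There is a countable set of continuous functions with compact support such that every such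
function `f` is approximated: `|f - h| ≤ ε χ` with `h, χ` in the set, `χ` depending only on `f`.
(`C(E, ℝ)` is second countable; take products of a countable dense set with cutoff functions.) -/
theorem exists_countable_dense (E : Type) [NormedAddCommGroup E] [NormedSpace ℝ E]
    [FiniteDimensional ℝ E] :
    ∃ S : Set (E → ℝ), S.Countable ∧ (∀ h ∈ S, Continuous h ∧ HasCompactSupport h) ∧
      ∀ f : E → ℝ, Continuous f → HasCompactSupport f →
        ∃ χ ∈ S, (∀ y, 0 ≤ χ y) ∧ ∀ ε > 0, ∃ h ∈ S, ∀ y, |f y - h y| ≤ ε * χ y := by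
  have : ProperSpace E := FiniteDimensional.proper ℝ E
  obtain ⟨d, hdc, hdd⟩ := TopologicalSpace.exists_countable_dense C(E, ℝ)
  refine ⟨(⋃ R : ℕ, (fun g : C(E, ℝ) => fun y => Approx_cut E R y * g y) '' d) ∪
    range (Approx_cut E), ?_, ?_, ?_⟩
  · exact (countable_iUnion fun R => hdc.image _).union (countable_range _)
  · rintro h (hh | ⟨R, rfl⟩)
    · obtain ⟨R, hR⟩ := mem_iUnion.1 hh
      obtain ⟨g, -, rfl⟩ := hR
      exact ⟨(Approx_cut_cont E R).mul g.continuous, (Approx_cut_supp E R).mul_right⟩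
    · exact ⟨Approx_cut_cont E R, Approx_cut_supp E R⟩
  · intro f hf hfc
    obtain ⟨r, hr⟩ := hfc.isCompact.isBounded.subset_closedBall (0 : E)
    obtain ⟨R, hR⟩ := exists_nat_ge r
    have hf0 : ∀ y, (R : ℝ) < ‖y‖ → f y = 0 := by
      intro y hy
      by_contra h0
      have h1 : y ∈ tsupport f := subset_tsupport f h0
      have h2 := hr h1
      rw [mem_closedBall_zero_iff] at h2
      linarith
    refine ⟨Approx_cut E (R + 1), Or.inr ⟨R + 1, rfl⟩, Approx_cut_nonneg E _, ?_⟩
    intro ε hε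
    -- a function of the dense set close to `f` on the ball of radius `R + 1`
    have hK : IsCompact (Metric.closedBall (0 : E) (R + 1)) := isCompact_closedBall _ _
    have hopen : IsOpen {g : C(E, ℝ) | ∀ y ∈ Metric.closedBall (0 : E) (R + 1),
        dist (f y) (g y) < ε} := by
      have h1 : {g : C(E, ℝ) | ∀ y ∈ Metric.closedBall (0 : E) (R + 1), dist (f y) (g y) < ε} =
          {g : C(E, ℝ) | MapsTo (g - (⟨f, hf⟩ : C(E, ℝ)))
            (Metric.closedBall (0 : E) (R + 1)) (Metric.ball 0 ε)} := by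
        ext g
        simp only [mem_ofPred_eq, MapsTo, ContinuousMap.coe_sub, ContinuousMap.coe_mk,
          Pi.sub_apply, mem_ball_zero_iff, Real.norm_eq_abs, Real.dist_eq, abs_sub_comm (f _)]
      rw [h1]
      exact (ContinuousMap.isOpen_setOfPred_mapsTo hK Metric.isOpen_ball).preimage
        (continuous_id.sub continuous_const)
    obtain ⟨g, hgd, hg⟩ := hdd.exists_mem_open hopen ⟨⟨f, hf⟩, fun y _ => by simpa using hε⟩
    refine ⟨fun y => Approx_cut E R y * g y, Or.inl (mem_iUnion.2 ⟨R, g, hgd, rfl⟩), ?_⟩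
    intro y
    show |f y - Approx_cut E R y * g y| ≤ ε * Approx_cut E (R + 1) y
    by_cases hy : ‖y‖ ≤ R + 1
    · rw [Approx_cut_one E (R + 1) (by push_cast; exact hy), mul_one]
      have h1 : |f y - g y| < ε := by
        have := hg y (mem_closedBall_zero_iff.2 hy)
        rwa [Real.dist_eq] at this
      by_cases hy2 : ‖y‖ ≤ R
      · rw [Approx_cut_one E R hy2, one_mul]
        exact h1.le
      · rw [hf0 y (not_le.1 hy2)] at h1 ⊢
        rw [zero_sub, abs_neg] at h1 ⊢
        rw [abs_mul, abs_of_nonneg (Approx_cut_nonneg E R y)]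
        calc Approx_cut E R y * |g y| ≤ 1 * |g y| :=
              mul_le_mul_of_nonneg_right (Approx_cut_le E R y) (abs_nonneg _)
          _ ≤ ε := by rw [one_mul]; exact h1.le
    · push Not at hy
      rw [hf0 y (by linarith), Approx_cut_zero E R hy.le, zero_mul, sub_zero, abs_zero]
      exact mul_nonneg hε.le (Approx_cut_nonneg E _ y)

/-- Extension of limits from the countable set to all test functions. `A f` is a positive linear
functional depending on a parameter; only the comparison inequality is used. -/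
theorem tendsto_of_countable {E : Type} [NormedAddCommGroup E] [NormedSpace ℝ E]
    [FiniteDimensional ℝ E] [MeasurableSpace E] [BorelSpace E] {S : Set (E → ℝ)}
    (hS : ∀ h ∈ S, Continuous h ∧ HasCompactSupport h)
    {f χ : E → ℝ} (hf : Continuous f) (hfc : HasCompactSupport f) (hχ : χ ∈ S)
    (hap : ∀ ε > 0, ∃ h ∈ S, ∀ y, |f y - h y| ≤ ε * χ y)
    (μ : Measure E) [IsFiniteMeasureOnCompacts μ] {ι : Type} {l : Filter ι}
    (A : (E → ℝ) → ι → ℝ)
    (hA : ∀ (ε : ℝ) (h : E → ℝ), (∀ y, |f y - h y| ≤ ε * χ y) →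
      ∀ᶠ i in l, |A f i - A h i| ≤ ε * A χ i)
    (hlim : ∀ h ∈ S, Tendsto (A h) l (𝓝 (∫ y, h y ∂μ))) :
    Tendsto (A f) l (𝓝 (∫ y, f y ∂μ)) := by
  have hint : ∀ h ∈ S, Integrable h μ := fun h hh =>
    (hS h hh).1.integrable_of_hasCompactSupport (hS h hh).2
  have hfint : Integrable f μ := hf.integrable_of_hasCompactSupport hfc
  have hχ0 : ∀ y, 0 ≤ χ y := by
    intro y
    obtain ⟨h, -, hh⟩ := hap 1 one_pos
    have := (abs_nonneg _).trans (hh y)
    linarith
  set K := ∫ y, χ y ∂μ with hK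
  have hK0 : 0 ≤ K := integral_nonneg hχ0
  rw [Metric.tendsto_nhds]
  intro δ hδ
  set ε := δ / (4 * (K + 1)) with hε
  have hεpos : 0 < ε := by positivity
  obtain ⟨h, hh, hle⟩ := hap ε hεpos
  have h1 := hA ε h hle
  have h2 : ∀ᶠ i in l, dist (A h i) (∫ y, h y ∂μ) < δ / 4 :=
    (Metric.tendsto_nhds.1 (hlim h hh)) _ (by positivity)
  have h3 : ∀ᶠ i in l, dist (A χ i) K < 1 := (Metric.tendsto_nhds.1 (hlim χ hχ)) _ one_pos
  have h4 : |∫ y, f y ∂μ - ∫ y, h y ∂μ| ≤ ε * K := by
    rw [← integral_sub hfint (hint h hh)]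
    calc |∫ y, (f y - h y) ∂μ| ≤ ∫ y, |f y - h y| ∂μ := abs_integral_le_integral_abs
      _ ≤ ∫ y, ε * χ y ∂μ :=
          integral_mono (hfint.sub (hint h hh)).abs ((hint χ hχ).const_mul ε) hle
      _ = ε * K := by rw [integral_const_mul]
  have h5 : ε * (K + 1) = δ / 4 := by
    rw [hε]
    field_simp
  filter_upwards [h1, h2, h3] with i hi1 hi2 hi3
  rw [Real.dist_eq] at hi2 hi3 ⊢
  have h6 : ε * A χ i ≤ ε * (K + 1) := by
    apply mul_le_mul_of_nonneg_left _ hεpos.le
    have := (abs_lt.1 hi3).2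
    linarith
  have h7 : ε * K ≤ ε * (K + 1) := by
    apply mul_le_mul_of_nonneg_left _ hεpos.le
    linarith
  have h8 : |A f i - ∫ y, f y ∂μ| ≤
      |A f i - A h i| + |A h i - ∫ y, h y ∂μ| + |∫ y, f y ∂μ - ∫ y, h y ∂μ| := by
    have e : A f i - ∫ y, f y ∂μ = (A f i - A h i) + (A h i - ∫ y, h y ∂μ) -
        (∫ y, f y ∂μ - ∫ y, h y ∂μ) := by ring
    rw [e]
    refine (abs_sub _ _).trans ?_
    gcongr
    exact abs_add_le _ _
  linarith

end BGS
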