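import Mathlib
import Pool.Agent.LibBGS.StatP
import Pool.Agent.LibBGS.Approx
import Pool.Agent.LibBGS.Abs
import Pool.Agent.LibBGS.BaireM

/-! Assembly. -/

open MeasureTheory Set Filter Topology
open scoped ContDiff ENNReal NNReal

namespace BGS

variable {Γ : Type} [Group Γ] [MulAction Γ Pl] {D : Set Pl}

theorem propP_corr (hX : Surface Γ D) (p : ℕ) {f : (Fin (p + 1) → ℝ) → ℝ} (hf : Continuous f) :
    PropP (fun (m : Mt Γ D) T => corr p f m T) := fun m _ hT _ hU h =>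
  corr_near hX p hf m hT hU h

theorem propP_spac (hX : Surface Γ D) {f : ℝ → ℝ} (hf : Continuous f) :
    PropP (fun (m : Mt Γ D) T => spac f m T) := fun m _ hT _ hU h =>
  spac_near hX hf m hT hU h

/-- The countable sets of test functions. -/
noncomputable def tests (E : Type) [NormedAddCommGroup E] [NormedSpace ℝ E]
    [FiniteDimensional ℝ E] : Set (E → ℝ) := (exists_countable_dense E).choose

/-- Convergence of the countably many statistics along a filter gives convergence of all. -/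
theorem extend_corr (hX : Surface Γ D) (p : ℕ) (μ : Measure (Fin (p + 1) → ℝ))
    [IsFiniteMeasureOnCompacts μ] (l : Filter (Mt Γ D × ℝ)) (hl : ∀ᶠ q in l, 0 < q.2)
    (hlim : ∀ h ∈ tests (Fin (p + 1) → ℝ),
      Tendsto (fun q : Mt Γ D × ℝ => corr p h q.1 q.2) l (𝓝 (∫ y, h y ∂μ)))
    {f : (Fin (p + 1) → ℝ) → ℝ} (hf : Continuous f) (hfc : HasCompactSupport f) :
    Tendsto (fun q : Mt Γ D × ℝ => corr p f q.1 q.2) l (𝓝 (∫ y, f y ∂μ)) := by
  obtain ⟨-, hS, hap⟩ := (exists_countable_dense (Fin (p + 1) → ℝ)).choose_spec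
  obtain ⟨χ, hχ, -, h2⟩ := hap f hf hfc
  refine tendsto_of_countable (S := tests (Fin (p + 1) → ℝ)) hS hf hfc hχ h2 μ
    (fun h (q : Mt Γ D × ℝ) => corr p h q.1 q.2) ?_ hlim
  intro ε h hle
  filter_upwards [hl] with q hq
  exact corr_sub_le hX p hle q.1 hq

theorem extend_spac (hX : Surface Γ D) (μ : Measure ℝ)
    [IsFiniteMeasureOnCompacts μ] (l : Filter (Mt Γ D × ℝ)) (hl : ∀ᶠ q in l, 0 < q.2)
    (hlim : ∀ h ∈ tests ℝ,
      Tendsto (fun q : Mt Γ D × ℝ => spac h q.1 q.2) l (𝓝 (∫ y, h y ∂μ)))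
    {f : ℝ → ℝ} (hf : Continuous f) (hfc : HasCompactSupport f) :
    Tendsto (fun q : Mt Γ D × ℝ => spac f q.1 q.2) l (𝓝 (∫ y, f y ∂μ)) := by
  obtain ⟨-, hS, hap⟩ := (exists_countable_dense ℝ).choose_spec
  obtain ⟨χ, hχ, -, h2⟩ := hap f hf hfc
  refine tendsto_of_countable (S := tests ℝ) hS hf hfc hχ h2 μ
    (fun h (q : Mt Γ D × ℝ) => spac h q.1 q.2) ?_ hlim
  intro ε h hle
  filter_upwards [hl] with q hq
  exact spac_sub_le hX hle q.1 hq

theorem tests_countable (E : Type) [NormedAddCommGroup E] [NormedSpace ℝ E]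
    [FiniteDimensional ℝ E] : (tests E).Countable := (exists_countable_dense E).choose_spec.1

theorem tests_spec (E : Type) [NormedAddCommGroup E] [NormedSpace ℝ E]
    [FiniteDimensional ℝ E] {h : E → ℝ} (hh : h ∈ tests E) :
    Continuous h ∧ HasCompactSupport h := (exists_countable_dense E).choose_spec.2.1 h hh

/-- A generic metric that obeys a law obeys it stably. -/
theorem generic_stable (hX : Surface Γ D) :
    {m : Mt Γ D | ∀ L : Law, Obeys L m → ObeysNear L m} ∈ residual (Mt Γ D) := by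
  have h1 : (⋂ p : ℕ, ⋂ h ∈ tests (Fin (p + 1) → ℝ), {m : Mt Γ D | ∀ c : ℝ,
      Tendsto (fun T => corr p h m T) atTop (𝓝 c) →
      Tendsto (fun q : Mt Γ D × ℝ => corr p h q.1 q.2) (𝓝 m ×ˢ atTop) (𝓝 c)}) ∈
        residual (Mt Γ D) := by
    rw [countable_iInter_mem]
    intro p
    rw [countable_bInter_mem (tests_countable _)]
    intro h hh
    exact generic_tendsto _ (propP_corr hX p (tests_spec _ hh).1)
  have h2 : (⋂ h ∈ tests ℝ, {m : Mt Γ D | ∀ c : ℝ,
      Tendsto (fun T => spac h m T) atTop (𝓝 c) →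
      Tendsto (fun q : Mt Γ D × ℝ => spac h q.1 q.2) (𝓝 m ×ˢ atTop) (𝓝 c)}) ∈
        residual (Mt Γ D) := by
    rw [countable_bInter_mem (tests_countable _)]
    intro h hh
    exact generic_tendsto _ (propP_spac hX (tests_spec _ hh).1)
  filter_upwards [h1, h2] with m hm1 hm2 L hL
  simp only [mem_iInter, mem_ofPred_eq] at hm1 hm2
  have hpos : ∀ᶠ q : Mt Γ D × ℝ in 𝓝 m ×ˢ atTop, 0 < q.2 :=
    (tendsto_snd (f := 𝓝 m) (g := atTop)).eventually (eventually_gt_atTop 0)
  refine ⟨fun p f hf hfc => ?_, fun f hf hfc => ?_⟩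
  · haveI := L.rho_fin p
    exact extend_corr hX p (L.rho p) _ hpos (fun h hh =>
      hm1 p h hh _ (hL.1 p h (tests_spec _ hh).1 (tests_spec _ hh).2)) hf hfc
  · haveI := L.sigma_fin
    exact extend_spac hX L.sigma _ hpos (fun h hh =>
      hm2 h hh _ (hL.2 h (tests_spec _ hh).1 (tests_spec _ hh).2)) hf hfc

/-- Zero-one law. -/
theorem law_zero_one (hX : Surface Γ D) (L : Law) :
    {m : Mt Γ D | Obeys L m} ∈ residual (Mt Γ D) ∨
    ∃ V : Set (Mt Γ D), IsOpen V ∧ V.Nonempty ∧ ∃ ε > 0,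
      (∃ (p : ℕ) (f : (Fin (p + 1) → ℝ) → ℝ), Continuous f ∧ HasCompactSupport f ∧
        {m : Mt Γ D | m ∈ V → ∃ᶠ T in atTop, ε ≤ |corr p f m T - ∫ y, f y ∂(L.rho p)|} ∈
          residual (Mt Γ D)) ∨
      (∃ f : ℝ → ℝ, Continuous f ∧ HasCompactSupport f ∧
        {m : Mt Γ D | m ∈ V → ∃ᶠ T in atTop, ε ≤ |spac f m T - ∫ y, f y ∂L.sigma|} ∈
          residual (Mt Γ D)) := by
  by_cases h1 : ∀ p : ℕ, ∀ h ∈ tests (Fin (p + 1) → ℝ),
      {m : Mt Γ D | Tendsto (fun T => corr p h m T) atTop (𝓝 (∫ y, h y ∂(L.rho p)))} ∈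
        residual (Mt Γ D)
  · by_cases h2 : ∀ h ∈ tests ℝ,
        {m : Mt Γ D | Tendsto (fun T => spac h m T) atTop (𝓝 (∫ y, h y ∂L.sigma))} ∈
          residual (Mt Γ D)
    · left
      have h1' : (⋂ p : ℕ, ⋂ h ∈ tests (Fin (p + 1) → ℝ),
          {m : Mt Γ D | Tendsto (fun T => corr p h m T) atTop (𝓝 (∫ y, h y ∂(L.rho p)))}) ∈
            residual (Mt Γ D) := by
        rw [countable_iInter_mem]
        intro p
        rw [countable_bInter_mem (tests_countable _)]
        exact h1 p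
      have h2' : (⋂ h ∈ tests ℝ,
          {m : Mt Γ D | Tendsto (fun T => spac h m T) atTop (𝓝 (∫ y, h y ∂L.sigma))}) ∈
            residual (Mt Γ D) := by
        rw [countable_bInter_mem (tests_countable _)]
        exact h2
      filter_upwards [h1', h2'] with m hm1 hm2
      simp only [mem_iInter, mem_ofPred_eq] at hm1 hm2
      have hmap : Tendsto (fun T : ℝ => (m, T)) atTop (map (fun T : ℝ => (m, T)) atTop) :=
        tendsto_map
      have hpos : ∀ᶠ q : Mt Γ D × ℝ in map (fun T : ℝ => (m, T)) atTop, 0 < q.2 :=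
        eventually_gt_atTop (0 : ℝ)
      refine ⟨fun p f hf hfc => ?_, fun f hf hfc => ?_⟩
      · haveI := L.rho_fin p
        have := extend_corr hX p (L.rho p) (map (fun T : ℝ => (m, T)) atTop) hpos
          (fun h hh => tendsto_map'_iff.2 (hm1 p h hh)) hf hfc
        exact tendsto_map'_iff.1 this
      · haveI := L.sigma_fin
        have := extend_spac hX L.sigma (map (fun T : ℝ => (m, T)) atTop) hpos
          (fun h hh => tendsto_map'_iff.2 (hm2 h hh)) hf hfc
        exact tendsto_map'_iff.1 this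
    · right
      push Not at h2
      obtain ⟨h, hh, hres⟩ := h2
      rcases zero_one (fun (m : Mt Γ D) T => spac h m T) (propP_spac hX (tests_spec _ hh).1)
        (∫ y, h y ∂L.sigma) with h3 | ⟨V, hV, hVn, ε, hε, h3⟩
      · exact absurd h3 hres
      · exact ⟨V, hV, hVn, ε, hε, Or.inr ⟨h, (tests_spec _ hh).1, (tests_spec _ hh).2, h3⟩⟩
  · right
    push Not at h1
    obtain ⟨p, h, hh, hres⟩ := h1
    rcases zero_one (fun (m : Mt Γ D) T => corr p h m T) (propP_corr hX p (tests_spec _ hh).1)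
      (∫ y, h y ∂(L.rho p)) with h3 | ⟨V, hV, hVn, ε, hε, h3⟩
    · exact absurd h3 hres
    · exact ⟨V, hV, hVn, ε, hε, Or.inl ⟨p, h, (tests_spec _ hh).1, (tests_spec _ hh).2, h3⟩⟩

end BGS
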